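import Pool.Agent.EAE.StB

/-!
# EAE, module AB0: the true words are in `X_G`
-/

set_option autoImplicit false
set_option linter.unusedVariables false

namespace Pool.Agent.EAE

open FirstOrder.Language Set
open scoped FirstOrder
open Pool.Agent.AAD (Gam Fx ls St su Ctx UD)

theorem thm_AB0 (hTWT : St_TWT) : St_AB0 := by
  intro L N _ _ hf π ι φ G₀ W c a b l r g R v S H G hG
  obtain ⟨h1, h2, h3, h4⟩ := hTWT L N hf π ι φ G₀ W c a b l r g R v S
  have hmem := S.mc.cr.mem
  refine ⟨?_, ?_⟩
  · intro s ρ m r' hr
    refine ⟨?_, ?_⟩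
    · intro s' i i' hi hi'
      by_cases hs : s' = s
      · subst hs
        rw [h2 s' ρ m r' hr] at hi hi'
        rw [hi, hi']
      · have hs2 : s' = !s := by
          revert hs
          cases s <;> cases s' <;> simp
        subst hs2
        rw [h3 s ρ m r'] at hi hi'
        exact (hmem r').1 _ _ _ hi hi'
    · intro i j hi hj
      cases s
      · rw [h2 false ρ m r' hr] at hi
        have hj' := (h3 false ρ m r' j).1 hj
        have hj2 : j ≠ c (!false) := by
          rintro rfl
          exact h4 r' ⟨hr, hj'⟩
        have h5 := (hmem r').2 _ _ hr hj'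
        have h6 := hG.va false ρ m j ⟨r', hj'⟩ hj2
        subst hi
        simp only [ad, Bool.false_eq_true, if_false] at h6
        exact h6.2 h5
      · rw [h2 true ρ m r' hr] at hj
        have hi' := (h3 true ρ m r' i).1 hi
        have hi2 : i ≠ c (!true) := by
          rintro rfl
          exact h4 r' ⟨hi', hr⟩
        have h5 := (hmem r').2 _ _ hi' hr
        have h6 := hG.va true ρ m i ⟨r', hi'⟩ hi2
        subst hj
        simp only [ad, if_true] at h6
        exact h6.2 h5
  · intro r' hr
    refine ⟨(hmem r').1, ?_⟩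
    intro i j hi hj
    have hi2 : i ≠ c false := by
      rintro rfl
      exact hr false hi
    have hj2 : j ≠ c true := by
      rintro rfl
      exact hr true hj
    exact (hG.aa i j ⟨r', hi⟩ ⟨r', hj⟩ hi2 hj2).2 ((hmem r').2 _ _ hi hj)

end Pool.Agent.EAE
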