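import Pool.Agent.EAE.MV2

/-!
# EAE, module AB1 (helper78): true words
-/

set_option autoImplicit false
set_option linter.unusedVariables false

namespace Pool.Agent.EAE

open FirstOrder.Language Set
open scoped FirstOrder
open Pool.Agent.AAD (Gam Fx ls St su Ctx)
open Pool.Agent.UNS (ext su_fix su_min su_act su_eq)

theorem thm_AB1 (hLCL : St_LCL) (hTWT : St_TWT) : St_AB1 := by
  classical
  intro L N _ _ hf π ι φ G₀ W c a b l r g R v h H G hG ρ m
  have hfin := h.fin
  obtain ⟨-, -, -, h4⟩ := hTWT L N hf π ι φ G₀ W c a b l r g R v h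
  -- the element
  let i : Bool → ℚ := fun s => v s (ρ s) (m s)
  let γ : Gam := g false (i false) * g true (i true)
  have rg : ∀ s, a s < i s ∧ i s < b s := fun s => (h.vt s).rg _ _
  have hγ : ∀ x, γ x = g false (i false) (g true (i true) x) := fun x => rfl
  -- `γ` on the supports
  have hγ1 : ∀ r' x, x ∈ su (W r') → π x = bk false (c false) → γ x = g false (i false) x := by
    intro r' x hx h1
    rw [hγ, MV2_fx h true r' hx (fun h2 => by
      rw [h1] at h2
      exact absurd (MV2_bk_inj h2).1 (by decide)) (i true)]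
  have hγ2 : ∀ r' x, x ∈ su (W r') → π x = bk true (c true) → γ x = g true (i true) x := by
    intro r' x hx h1
    rw [hγ]
    refine h.ou false _ _ fun h2 => ?_
    obtain ⟨k, hk, -⟩ := MV2_in h false h2
    rw [MV2_mv h true r' hx h1 (ρ true) (m true)] at hk
    exact absurd (MV2_bk_inj hk).1 (by decide)
  have hγ3 : ∀ r' x, x ∈ su (W r') → (∀ s, π x ≠ bk s (c s)) → γ x = x := by
    intro r' x hx h1
    rw [hγ, MV2_fx h true r' hx (h1 true), MV2_fx h false r' hx (h1 false)]
  have hpi : ∀ r' x, x ∈ su (W r') → ∀ s, π x = bk s (c s) → π (γ x) = bk s (i s) := by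
    intro r' x hx s h1
    cases s
    · rw [hγ1 r' x hx h1]
      exact MV2_mv h false r' hx h1 (ρ false) (m false)
    · rw [hγ2 r' x hx h1]
      exact MV2_mv h true r' hx h1 (ρ true) (m true)
  -- the words
  have hW : (mg π W c fun s => tw W g v s (ρ s) (m s)) = fun r' => γ • W r' := by
    funext r'
    by_cases h1 : Tch π false (W r') (c false)
    · rw [(MV2_mg h h4 _ r').1 false h1]
      show g false (i false) • W r' = γ • W r'
      refine su_eq h.ctx fun x hx => ?_
      by_cases h2 : π x = bk false (c false)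
      · exact (hγ1 r' x hx h2).symm
      · rw [hγ3 r' x hx (fun s hs => ?_), MV2_fx h false r' hx h2]
        cases s
        · exact h2 hs
        · exact h4 r' ⟨h1, x, hx, hs⟩
    · by_cases h1' : Tch π true (W r') (c true)
      · rw [(MV2_mg h h4 _ r').1 true h1']
        show g true (i true) • W r' = γ • W r'
        refine su_eq h.ctx fun x hx => ?_
        by_cases h2 : π x = bk true (c true)
        · exact (hγ2 r' x hx h2).symm
        · rw [hγ3 r' x hx (fun s hs => ?_), MV2_fx h true r' hx h2]
          cases s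
          · exact h1 ⟨x, hx, hs⟩
          · exact h2 hs
      · rw [(MV2_mg h h4 _ r').2 (fun s hs => by cases s; exacts [h1 hs, h1' hs])]
        refine (su_fix h.ctx fun x hx => hγ3 r' x hx fun s hs => ?_).symm
        cases s
        · exact h1 ⟨x, hx, hs⟩
        · exact h1' ⟨x, hx, hs⟩
  rw [hW]
  -- touched blocks
  have fa : ∀ s r' k, Tch π s (W r') k → k ≠ c s → k < a s ∨ b s < k := h.fa
  have hm : ∀ r' x, x ∈ su (W r') → (∃ s, π x = bk s (c s)) ∨ ∀ s, π x ≠ bk s (c s) := by
    intro r' x hx
    by_cases h1 : ∃ s, π x = bk s (c s)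
    · exact Or.inl h1
    · push Not at h1
      exact Or.inr h1
  -- blocks touched by `γ • W r'`
  have tch : ∀ s r' k, Tch π s (γ • W r') k → k = i s ∨ (Tch π s (W r') k ∧ k ≠ c s) := by
    rintro s r' k ⟨y, hy, hk⟩
    rw [su_act h.ctx] at hy
    obtain ⟨x, hx, rfl⟩ := Finset.mem_image.1 hy
    rcases hm r' x hx with ⟨s', hs'⟩ | h1
    · rw [hpi r' x hx s' hs'] at hk
      obtain ⟨rfl, rfl⟩ := MV2_bk_inj hk
      exact Or.inl rfl
    · rw [hγ3 r' x hx h1] at hk
      refine Or.inr ⟨⟨x, hx, hk⟩, ?_⟩
      rintro rfl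
      exact h1 s hk
  have hfalse : ∀ x y, ad G false x y ↔ G x y := fun x y => by simp [ad]
  have htrue : ∀ x y, ad G true x y ↔ G y x := fun x y => by simp [ad]
  have hfalse' : ∀ x y, ad G₀ false x y ↔ G₀ x y := fun x y => by simp [ad]
  have htrue' : ∀ x y, ad G₀ true x y ↔ G₀ y x := fun x y => by simp [ad]
  constructor
  · intro hD
    by_contra hH
    let σ' : Bool → ℚ → ℚ := fun s k => if k = i s then c s else k
    have s1 : ∀ s, σ' s (i s) = c s := fun s => if_pos rfl
    have s2 : ∀ s k, k ≠ i s → σ' s k = k := fun s k hk => if_neg hk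
    have hinv : ∀ r', (γ⁻¹ : Gam) • γ • W r' = W r' := fun r' => inv_smul_smul γ (W r')
    have hinv' : ∀ x, (γ⁻¹ : Gam) (γ x) = x := fun x => by
      show (γ⁻¹ * γ : Gam) x = x
      rw [inv_mul_cancel]
      rfl
    have hne : ∀ s r' k, Tch π s (W r') k → k ≠ c s → k ≠ i s := by
      intro s r' k h1 h2 h3
      rcases fa s r' k h1 h2 with h5 | h5
      · rw [h3] at h5
        exact lt_asymm h5 (rg s).1
      · rw [h3] at h5
        exact lt_asymm h5 (rg s).2
    have h5 := (hLCL L N h.ctx π h.blk ι (fun r' => γ • W r') G G₀ γ⁻¹ σ' h.mc.cr.gd ?_ ?_ ?_ ?_).2 φ hD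
    · simp only [hinv] at h5
      exact h.mc.cr.d0 h5
    · intro r' y hy c' hc'
      rw [su_act h.ctx] at hy
      obtain ⟨x, hx, rfl⟩ := Finset.mem_image.1 hy
      rw [hinv']
      rcases hm r' x hx with ⟨s', hs'⟩ | h1
      · rw [hpi r' x hx s' hs'] at hc'
        exact absurd hc' (MV2_bk_fr _ _ _)
      · rwa [hγ3 r' x hx h1] at hc'
    · intro r' y hy s k hk
      rw [su_act h.ctx] at hy
      obtain ⟨x, hx, rfl⟩ := Finset.mem_image.1 hy
      rw [hinv']
      rcases hm r' x hx with ⟨s', hs'⟩ | h1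
      · rw [hpi r' x hx s' hs'] at hk
        obtain ⟨rfl, rfl⟩ := MV2_bk_inj hk
        rw [s1, hs']
      · rw [hγ3 r' x hx h1] at hk
        have h2 : k ≠ c s := by
          rintro rfl
          exact h1 s hk
        rw [s2 s k (hne s r' k ⟨x, hx, hk⟩ h2), hk]
    · intro s r₁ r₂ k k' hk hk' hlt
      rcases tch s r₁ k hk with rfl | ⟨h1, h2⟩
      · rcases tch s r₂ k' hk' with rfl | ⟨h1', h2'⟩
        · exact absurd hlt (lt_irrefl _)
        · rw [s1, s2 s k' (hne s r₂ k' h1' h2')]
          rcases fa s r₂ k' h1' h2' with h6 | h6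
          · exact absurd (hlt.trans h6) (not_lt.2 (rg s).1.le)
          · exact (h.ab s).2.trans h6
      · rcases tch s r₂ k' hk' with rfl | ⟨h1', h2'⟩
        · rw [s1, s2 s k (hne s r₁ k h1 h2)]
          rcases fa s r₁ k h1 h2 with h6 | h6
          · exact h6.trans (h.ab s).1
          · exact absurd (h6.trans hlt) (not_lt.2 (rg s).2.le)
        · rw [s2 s k (hne s r₁ k h1 h2), s2 s k' (hne s r₂ k' h1' h2')]
          exact hlt
    · intro r₁ r₂ k k' hk hk' hE
      rcases tch false r₁ k hk with rfl | ⟨h1, h2⟩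
      · rcases tch true r₂ k' hk' with rfl | ⟨h1', h2'⟩
        · exact absurd ((hG.vv _ _ _ _).1 hE) hH
        · rw [s1, s2 true k' (hne true r₂ k' h1' h2')]
          have h6 := hG.va false (ρ false) (m false) k' ⟨r₂, h1'⟩ h2'
          rw [hfalse, hfalse'] at h6
          exact h6.1 hE
      · rcases tch true r₂ k' hk' with rfl | ⟨h1', h2'⟩
        · rw [s1, s2 false k (hne false r₁ k h1 h2)]
          have h6 := hG.va true (ρ true) (m true) k ⟨r₁, h1⟩ h2
          rw [htrue, htrue'] at h6
          exact h6.1 hE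
        · rw [s2 false k (hne false r₁ k h1 h2), s2 true k' (hne true r₂ k' h1' h2')]
          exact (hG.aa k k' ⟨r₁, h1⟩ ⟨r₂, h1'⟩ h2 h2').1 hE
  · intro hH
    let σ : Bool → ℚ → ℚ := fun s k => if k = c s then i s else k
    have s1 : ∀ s, σ s (c s) = i s := fun s => if_pos rfl
    have s2 : ∀ s k, k ≠ c s → σ s k = k := fun s k hk => if_neg hk
    refine (hLCL L N h.ctx π h.blk ι W (adE G₀ c) G γ σ hG.gd ?_ ?_ ?_ ?_).2 φ h.mc.cr.d1
    · intro r' x hx c' hc'
      rw [hγ3 r' x hx (fun s hs => ?_)]
      · exact hc'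
      · rw [hc'] at hs
        exact MV2_bk_fr _ _ _ hs.symm
    · intro r' x hx s k hk
      by_cases h1 : k = c s
      · rw [h1] at hk ⊢
        rw [s1]
        exact hpi r' x hx s hk
      · rw [s2 s k h1, hγ3 r' x hx (fun s' hs' => ?_)]
        · exact hk
        · rw [hk] at hs'
          obtain ⟨rfl, h2⟩ := MV2_bk_inj hs'
          exact h1 h2
    · intro s r₁ r₂ k k' hk hk' hlt
      by_cases h1 : k = c s
      · have h1' : k' ≠ c s := by
          rintro rfl
          rw [h1] at hlt
          exact lt_irrefl _ hlt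
        rw [h1, s1, s2 s k' h1']
        rcases fa s r₂ k' hk' h1' with h6 | h6
        · rw [h1] at hlt
          exact absurd (hlt.trans h6) (not_lt.2 (h.ab s).1.le)
        · exact (rg s).2.trans h6
      · by_cases h1' : k' = c s
        · rw [h1', s1, s2 s k h1]
          rcases fa s r₁ k hk h1 with h6 | h6
          · exact h6.trans (rg s).1
          · rw [h1'] at hlt
            exact absurd (h6.trans hlt) (not_lt.2 (h.ab s).2.le)
        · rw [s2 s k h1, s2 s k' h1']
          exact hlt
    · intro r₁ r₂ k k' hk hk' hE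
      by_cases h1 : k = c false
      · by_cases h1' : k' = c true
        · rw [h1, h1', s1, s1]
          exact (hG.vv _ _ _ _).2 hH
        · rw [h1, s1, s2 true k' h1']
          have h6 := hG.va false (ρ false) (m false) k' ⟨r₂, hk'⟩ h1'
          rw [hfalse, hfalse'] at h6
          refine h6.2 ?_
          rw [h1] at hE
          rcases hE with h7 | h7
          · exact h7
          · exact absurd h7.2 h1'
      · by_cases h1' : k' = c true
        · rw [h1', s1, s2 false k h1]
          have h6 := hG.va true (ρ true) (m true) k ⟨r₁, hk⟩ h1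
          rw [htrue, htrue'] at h6
          refine h6.2 ?_
          rw [h1'] at hE
          rcases hE with h7 | h7
          · exact h7
          · exact absurd h7.1 h1
        · rw [s2 false k h1, s2 true k' h1']
          refine (hG.aa k k' ⟨r₁, hk⟩ ⟨r₂, hk'⟩ h1 h1').2 ?_
          rcases hE with h7 | h7
          · exact h7
          · exact absurd h7.1 h1

end Pool.Agent.EAE
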