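import Pool.Agent.EAE.StB

/-!
# EAE, module AB2 (helper27): arbitrary words against true words
-/

set_option autoImplicit false
set_option linter.unusedVariables false

namespace Pool.Agent.EAE

open FirstOrder.Language Set
open scoped FirstOrder
open Pool.Agent.AAD (Gam Fx ls St su Ctx)

lemma AB2_bk_inj {s s' : Bool} {i i' : ℚ} (h : bk s i = bk s' i') : s = s' ∧ i = i' := by
  unfold bk at h
  have h1 := congrArg (fun x => (ofLex x).1) h
  have h2 := congrArg (fun x => (ofLex x).2) h
  simp only [ofLex_toLex] at h1 h2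
  refine ⟨?_, h2⟩
  cases s <;> cases s' <;> simp_all

lemma AB2_fr_bk {c : Fin 3} {s : Bool} {i : ℚ} : fr c ≠ bk s i := by
  intro h
  unfold fr bk at h
  have h1 := congrArg (fun x => ((ofLex x).1).1) h
  simp only [ofLex_toLex] at h1
  cases s
  · simp at h1
  · simp at h1
    omega

section

variable {N : Type} [MulAction Gam N] {π : ℚ → Lam} {ι : Type} {W : ι → N} {c : Bool → ℚ}

lemma AB2_mgs (hno : ∀ r', ¬ (Tch π false (W r') (c false) ∧ Tch π true (W r') (c true)))
    (u : Bool → ι → N) {s : Bool} {r : ι} (h : Tch π s (W r) (c s)) : mg π W c u r = u s r := by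
  unfold mg
  cases s
  · rw [if_pos h]
  · rw [if_neg (fun h' => hno r ⟨h', h⟩), if_pos h]

lemma AB2_mgn (u : Bool → ι → N) {r : ι} (h : ∀ s, ¬ Tch π s (W r) (c s)) : mg π W c u r = W r := by
  unfold mg
  rw [if_neg (h false), if_neg (h true)]

end

lemma AB2_ad_not {α : Type} (G : α → α → Prop) (s : Bool) (x y : α) : ad G (!s) x y ↔ ad G s y x := by
  cases s <;> simp [ad]

lemma AB2_pair {G : ℚ → ℚ → Prop} (s : Bool) (c : Bool → ℚ) :
    G (c false) (c true) ↔ ad G s (c s) (c (!s)) := by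
  cases s <;> simp [ad]

/-- all neighbours of `j` are added to `j'` -/
def AB2_G (G : ℚ → ℚ → Prop) (s : Bool) (j j' : ℚ) : ℚ → ℚ → Prop := fun x y =>
  G x y ∨ ((if s then x else y) = j' ∧ ad G s (if s then y else x) j)

lemma AB2_G_ad (G : ℚ → ℚ → Prop) (s : Bool) (j j' i k : ℚ) :
    ad (AB2_G G s j j') s i k ↔ ad G s i k ∨ (k = j' ∧ ad G s i j) := by
  cases s <;> simp [ad, AB2_G]

lemma AB2_G_sub (G : ℚ → ℚ → Prop) (s : Bool) (j j' i k : ℚ) (h : G i k) : AB2_G G s j j' i k := Or.inl h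

lemma AB2_ad_mono {G G' : ℚ → ℚ → Prop} (h : ∀ i k, G i k → G' i k) (s : Bool) (i k : ℚ)
    (h' : ad G s i k) : ad G' s i k := by
  cases s
  · exact h _ _ h'
  · exact h _ _ h'

lemma AB2_Gd_mono {G G' : ℚ → ℚ → Prop} (h : ∀ i k, G i k → G' i k) (hG : Gd G) : Gd G' := by
  intro s a b hab
  obtain ⟨i, h1, h2, h3⟩ := hG s a b hab
  exact ⟨i, h1, h2, fun j => AB2_ad_mono h s i j (h3 j)⟩

theorem thm_AB2 (hLCL : St_LCL) (hEDG : St_EDG) (hTWT : St_TWT) (hAB0 : St_AB0) (hMV2 : St_MV2) : St_AB2 := by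
  intro L N _ _ hf π ι φ G₀ W c a b l r g R v hS H G hG s w hw ρ m m' hsep hD hD'
  have hfin : Finite ι := hS.fin
  obtain ⟨T1, T2, T3, T4⟩ := hTWT L N hf π ι φ G₀ W c a b l r g R v hS
  obtain ⟨A1, A2⟩ := hAB0 L N hf π ι φ G₀ W c a b l r g R v hS H G hG
  have T3' : ∀ ρ m r' j, Tch π s (tw W g v (!s) ρ m r') j ↔ Tch π s (W r') j := by
    intro ρ m r' j
    have := T3 (!s) ρ m r' j
    rwa [Bool.not_not] at this
  have hno : ∀ r', ¬ (Tch π s (W r') (c s) ∧ Tch π (!s) (W r') (c (!s))) := by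
    intro r' h
    apply T4 r'
    cases s
    · exact h
    · exact ⟨h.2, h.1⟩
  -- the three kinds of entries
  have hcase : ∀ r', Tch π s (W r') (c s) ∨ Tch π (!s) (W r') (c (!s)) ∨ ∀ s', ¬ Tch π s' (W r') (c s') := by
    intro r'
    by_cases h1 : Tch π s (W r') (c s)
    · exact Or.inl h1
    · by_cases h2 : Tch π (!s) (W r') (c (!s))
      · exact Or.inr (Or.inl h2)
      · refine Or.inr (Or.inr fun s' => ?_)
        cases s <;> cases s' <;> assumption
  have Ys : ∀ M r', Tch π s (W r') (c s) → mg π W c (pr s w (tw W g v (!s) ρ M)) r' = w r' := by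
    intro M r' h
    rw [AB2_mgs T4 _ h]
    unfold pr
    rw [if_pos rfl]
  have Yt : ∀ M r', Tch π (!s) (W r') (c (!s)) →
      mg π W c (pr s w (tw W g v (!s) ρ M)) r' = tw W g v (!s) ρ M r' := by
    intro M r' h
    rw [AB2_mgs T4 _ h]
    unfold pr
    rw [if_neg (by simp)]
  have Yn : ∀ M r', (∀ s', ¬ Tch π s' (W r') (c s')) →
      mg π W c (pr s w (tw W g v (!s) ρ M)) r' = W r' := fun M r' h => AB2_mgn _ h
  have Ymem : ∀ M r', mg π W c (pr s w (tw W g v (!s) ρ M)) r' ∈ (XG π G : Set N) := by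
    intro M r'
    rcases hcase r' with h | h | h
    · rw [Ys M r' h]
      exact hw r'
    · rw [Yt M r' h]
      exact A1 (!s) ρ M r' h
    · rw [Yn M r' h]
      exact A2 r' h
  have hrg : ∀ s ρ m, a s < v s ρ m ∧ v s ρ m < b s := fun s ρ m => (hS.vt s).rg ρ m
  -- named blocks which are not special are not vertices
  have hnv : ∀ s r' i, Tch π s (W r') i → ¬ Tch π s (W r') (c s) → ∀ ρ m, i < v s ρ m ∧ i < a s ∨ v s ρ m < i ∧ b s < i := by
    intro s r' i h h' ρ m
    have h1 : i ≠ c s := fun e => h' (e ▸ h)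
    have h2 := hrg s ρ m
    rcases hS.fa s r' i h h1 with h3 | h3
    · exact Or.inl ⟨h3.trans h2.1, h3⟩
    · exact Or.inr ⟨h2.2.trans h3, h3⟩
  -- blocks of side `!s` touched by `Y`
  have hblk : ∀ M, (M = m ∨ M = m') → ∀ r' i, Tch π (!s) (mg π W c (pr s w (tw W g v (!s) ρ M)) r') i →
      i = v (!s) ρ M ∧ Tch π (!s) (W r') (c (!s)) ∨
      (i < v (!s) ρ m ∧ i < v (!s) ρ m') ∨ (v (!s) ρ m < i ∧ v (!s) ρ m' < i) := by
    intro M hM r' i hi
    rcases hcase r' with h | h | h
    · rw [Ys M r' h] at hi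
      exact Or.inr (hsep r' i h hi)
    · rw [Yt M r' h] at hi
      exact Or.inl ⟨(T2 (!s) ρ M r' h i).1 hi, h⟩
    · rw [Yn M r' h] at hi
      have h1 := hnv (!s) r' i hi (h (!s)) ρ m
      have h2 := hnv (!s) r' i hi (h (!s)) ρ m'
      have h3 := hrg (!s) ρ m
      have h4 := hrg (!s) ρ m'
      refine Or.inr ?_
      rcases h1 with h1 | h1
      · exact Or.inl ⟨h1.1, h1.2.trans h4.1⟩
      · exact Or.inr ⟨h1.1, h4.2.trans h1.2⟩
  obtain ⟨γ, hγ1, hγ2⟩ := hMV2 L N hf π ι φ G₀ W c a b l r g R v hS s w ρ m m' hsep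
  set j : ℚ := v (!s) ρ m with hj
  set j' : ℚ := v (!s) ρ m' with hj'
  set Y : ι → N := mg π W c (pr s w (tw W g v (!s) ρ m)) with hY
  set Y' : ι → N := mg π W c (pr s w (tw W g v (!s) ρ m')) with hY'
  have hsub : ∀ i k, G i k → AB2_G G s j j' i k := AB2_G_sub G s j j'
  have hG' : Gd (AB2_G G s j j') := AB2_Gd_mono hsub hG.gd
  -- `DD G' Y'`
  have hDG : DD π φ (AB2_G G s j j') Y' := by
    have h1 := (hLCL L N hS.ctx π hS.blk ι Y G (AB2_G G s j j') γ
      (fun s' i => if s' = (!s) ∧ i = j then j' else i) hG' ?_ ?_ ?_ ?_).2 φ hD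
    · have h2 : (fun r' => γ • Y r') = Y' := funext hγ1
      rw [h2] at h1
      exact h1
    · intro r' x hx cc hcc
      rw [(hγ2 r' x hx).2 (by rw [hcc]; exact AB2_fr_bk), hcc]
    · intro r' x hx s' i hi
      by_cases h2 : s' = (!s) ∧ i = j
      · rw [if_pos h2, h2.1]
        exact (hγ2 r' x hx).1 (by rw [hi, h2.1, h2.2])
      · rw [if_neg h2, (hγ2 r' x hx).2 (fun h3 => h2 (AB2_bk_inj (hi.symm.trans h3))), hi]
    · intro s' r1 r2 i i' hi hi' hlt
      by_cases hs' : s' = (!s)
      · subst hs'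
        have h3 := hblk m (Or.inl rfl) r1 i hi
        have h4 := hblk m (Or.inl rfl) r2 i' hi'
        simp only [true_and]
        by_cases h5 : i = j
        · by_cases h6 : i' = j
          · rw [h5, h6] at hlt
            exact absurd hlt (lt_irrefl _)
          · rw [if_pos h5, if_neg h6]
            rcases h4 with h4 | h4 | h4
            · exact absurd h4.1 h6
            · rw [h5] at hlt
              exact absurd (hlt.trans h4.1) (lt_irrefl _)
            · exact h4.2
        · by_cases h6 : i' = j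
          · rw [if_neg h5, if_pos h6]
            rcases h3 with h3 | h3 | h3
            · exact absurd h3.1 h5
            · exact h3.2
            · rw [h6] at hlt
              exact absurd (hlt.trans h3.1) (lt_irrefl _)
          · rw [if_neg h5, if_neg h6]
            exact hlt
      · simp only [hs', false_and, if_false]
        exact hlt
    · intro r1 r2 i k hi hk hik
      cases s
      · simp only [Bool.not_false, Bool.false_eq_true, false_and, if_false, true_and]
        by_cases h5 : k = j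
        · rw [if_pos h5]
          refine Or.inr ⟨by simp, ?_⟩
          rw [h5] at hik
          simpa [ad] using hik
        · rw [if_neg h5]
          exact Or.inl hik
      · simp only [Bool.not_true, Bool.true_eq_false, false_and, if_false, true_and]
        by_cases h5 : i = j
        · rw [if_pos h5]
          refine Or.inr ⟨by simp, ?_⟩
          rw [h5] at hik
          simpa [ad] using hik
        · rw [if_neg h5]
          exact Or.inl hik
  obtain ⟨H₁, c', e1, e2, e3, e4, e5, e6, e7, e8, e9⟩ :=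
    hEDG L N hS.ctx π hS.blk ι φ Y' G (AB2_G G s j j') hG.gd hsub (Ymem m') hD' hDG
  have hcrit : Crit hf π φ H₁ Y' c' := ⟨e1, hS.mc.cr.ab, e7, e4, e8, e9⟩
  have hmn := hS.mc.mn H₁ Y' c' hcrit
  have f1 : ¬ ad G s (c' s) (c' (!s)) := fun h => e4 (e2 _ _ ((AB2_pair s c').2 h))
  have f2 : ad (AB2_G G s j j') s (c' s) (c' (!s)) := (AB2_pair s c').1 e5
  rw [AB2_G_ad] at f2
  rcases f2 with f2 | ⟨f2, f3⟩
  · exact absurd f2 f1
  rw [f2] at f1
  rcases hG.nf s (c' s) j' f1 with f4 | ⟨ρ₁, m₁, f4⟩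
  · -- a named block: impossible
    exfalso
    apply f1
    have hT : Nm π W (!(!s)) (c' s) := by rw [Bool.not_not]; exact f4.1
    have hne : c' s ≠ c (!(!s)) := by rw [Bool.not_not]; exact f4.2
    have g1 := hG.va (!s) ρ m (c' s) hT hne
    have g2 := hG.va (!s) ρ m' (c' s) hT hne
    rw [AB2_ad_not] at g1 g2
    exact g2.2 (g1.1 f3)
  · refine ⟨ρ₁, m₁, ?_, ?_, ?_⟩
    · -- counting
      have hsubT : {r' : ι | Tch π (!s) (Y' r') j'} ⊆ {r' : ι | Tch π (!s) (W r') (c (!s))} := by
        intro r' hr'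
        rcases hblk m' (Or.inr rfl) r' j' hr' with h1 | h1 | h1
        · exact h1.2
        · exact absurd h1.2 (lt_irrefl _)
        · exact absurd h1.2 (lt_irrefl _)
      have hsubS : {r' : ι | Tch π s (Y' r') (c' s)} ⊆ {r' : ι | Tch π s (W r') (c s)} := by
        intro r' hr'
        have hr2 : Tch π s (Y' r') (c' s) := hr'
        by_contra hns
        have hns' : ¬ Tch π s (W r') (c s) := hns
        have h1 : Tch π s (W r') (c' s) := by
          rcases hcase r' with h | h | h
          · exact absurd h hns'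
          · rw [hY', Yt m' r' h] at hr2
            exact (T3' ρ m' r' (c' s)).1 hr2
          · rw [hY', Yn m' r' h] at hr2
            exact hr2
        have h2 := hnv s r' (c' s) h1 hns' ρ₁ m₁
        rw [← f4] at h2
        rcases h2 with h2 | h2
        · exact lt_irrefl _ h2.1
        · exact lt_irrefl _ h2.1
      have hc1 : cnt π Y' (!s) j' ≤ cnt π W (!s) (c (!s)) :=
        Set.ncard_le_ncard hsubT (Set.toFinite _)
      have hc2 : cnt π W s (c s) ≤ cnt π Y' s (c' s) := by
        have hmn' : cnt π W s (c s) + cnt π W (!s) (c (!s)) ≤ cnt π Y' s (c' s) + cnt π Y' (!s) (c' (!s)) := by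
          cases s
          · exact hmn
          · simp only [Bool.not_true]
            rw [add_comm, add_comm (cnt π Y' true (c' true))]
            exact hmn
        rw [f2] at hmn'
        omega
      have heq := Set.eq_of_subset_of_ncard_le hsubS hc2 (Set.toFinite _)
      intro r' hr'
      have h3 : r' ∈ {r' : ι | Tch π s (Y' r') (c' s)} := by
        rw [heq]
        exact hr'
      have h4 : Tch π s (Y' r') (c' s) := h3
      rw [hY', Ys m' r' hr', f4] at h4
      exact h4
    · rw [f4] at f3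
      have := hG.vv
      cases s
      · exact (hG.vv ρ₁ m₁ ρ m).1 f3
      · exact (hG.vv ρ m ρ₁ m₁).1 f3
    · rw [f4] at f1
      intro h
      apply f1
      cases s
      · exact (hG.vv ρ₁ m₁ ρ m').2 h
      · exact (hG.vv ρ m' ρ₁ m₁).2 h

end Pool.Agent.EAE
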