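import Pool.Agent.EAE.StA

/-!
# EAE, module AIF: if no absolute formula fails then all formulas are absolute
-/

set_option autoImplicit false
set_option linter.unusedVariables false

namespace Pool.Agent.EAE

open FirstOrder.Language Set
open scoped FirstOrder
open Pool.Agent.AAD (Gam Fx ls St su Ctx)

section

variable {L : FirstOrder.Language.{0, 0}} {N : Type} [L.Structure N]

private theorem AIF_term (hf : ∀ n, IsEmpty (L.Functions n)) (X : Set N) {β : Type} (t : L.Term β)
    (v : β → X) : (@Term.realize L X (rs hf X) β v t).1 = t.realize fun i => (v i).1 := by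
  cases t with
  | var i => rfl
  | func f ts => exact (hf _).elim f

private theorem AIF_elim {X : Set N} {α : Type} {n : ℕ} (v : α → X) (xs : Fin n → X) :
    (fun i => ((Sum.elim v xs i : X) : N)) =
      Sum.elim (fun i => ((v i : X) : N)) fun i => ((xs i : X) : N) := by
  funext i
  cases i <;> rfl

private theorem AIF_snoc {X : Set N} {n : ℕ} (xs : Fin n → X) (z : X) :
    (fun i => ((Fin.snoc (α := fun _ => X) xs z i : X) : N)) =
      Fin.snoc (α := fun _ => N) (fun i => ((xs i : X) : N)) (z : N) := by
  funext i
  refine Fin.lastCases ?_ (fun j => ?_) i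
  · rw [Fin.snoc_last, Fin.snoc_last]
  · rw [Fin.snoc_castSucc, Fin.snoc_castSucc]

/-- renaming of the last variable -/
private def AIF_g (α : Type) (n : ℕ) : α ⊕ Fin (n + 1) → (α ⊕ Fin n) ⊕ Unit :=
  Sum.elim (fun a => Sum.inl (Sum.inl a))
    fun i => Fin.lastCases (motive := fun _ => (α ⊕ Fin n) ⊕ Unit) (Sum.inr ())
      (fun j => Sum.inl (Sum.inr j)) i

private theorem AIF_rn {M : Type} [L.Structure M] {α : Type} {n : ℕ}
    (φ : L.BoundedFormula α (n + 1)) (w : (α ⊕ Fin n) ⊕ Unit → M) :
    (φ.toFormula.relabel (AIF_g α n)).Realize w ↔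
      φ.Realize (fun a => w (Sum.inl (Sum.inl a)))
        (Fin.snoc (α := fun _ => M) (fun j => w (Sum.inl (Sum.inr j))) (w (Sum.inr ()))) := by
  rw [Formula.realize_relabel, BoundedFormula.realize_toFormula]
  have e1 : (w ∘ AIF_g α n) ∘ Sum.inl = fun a => w (Sum.inl (Sum.inl a)) := rfl
  have e2 : (w ∘ AIF_g α n) ∘ Sum.inr =
      Fin.snoc (α := fun _ => M) (fun j => w (Sum.inl (Sum.inr j))) (w (Sum.inr ())) := by
    funext i
    refine Fin.lastCases ?_ (fun j => ?_) i
    · rw [Fin.snoc_last]
      show w (Fin.lastCases (motive := fun _ => (α ⊕ Fin n) ⊕ Unit) (Sum.inr ())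
        (fun j => Sum.inl (Sum.inr j)) (Fin.last n)) = _
      rw [Fin.lastCases_last]
    · rw [Fin.snoc_castSucc]
      show w (Fin.lastCases (motive := fun _ => (α ⊕ Fin n) ⊕ Unit) (Sum.inr ())
        (fun j => Sum.inl (Sum.inr j)) j.castSucc) = _
      rw [Fin.lastCases_castSucc]
  rw [e1, e2]

end

theorem thm_AIF : St_AIF := by
  intro L N _ _ hf π hyp
  have key : ∀ (α : Type) [Finite α] (n : ℕ) (φ : L.BoundedFormula α n) (G : ℚ → ℚ → Prop),
      Gd G → ∀ (v : α → (XG π G : Set N)) (xs : Fin n → (XG π G : Set N)),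
      (@BoundedFormula.Realize L (XG π G : Set N) (rs hf _) α n φ v xs ↔
        φ.Realize (fun i => (v i).1) fun i => (xs i).1) := by
    intro α _ n φ
    induction φ with
    | falsum => intro G hG v xs; exact Iff.rfl
    | equal t₁ t₂ =>
      intro G hG v xs
      let _ := rs hf (XG π G : Set N)
      show (t₁.realize (Sum.elim v xs) = t₂.realize (Sum.elim v xs)) ↔
        (t₁.realize (Sum.elim (fun i => (v i).1) fun i => (xs i).1) =
          t₂.realize (Sum.elim (fun i => (v i).1) fun i => (xs i).1))
      rw [← AIF_elim v xs, ← AIF_term hf (XG π G : Set N) t₁, ← AIF_term hf (XG π G : Set N) t₂]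
      exact Subtype.ext_iff
    | rel R ts =>
      intro G hG v xs
      let _ := rs hf (XG π G : Set N)
      show (Structure.RelMap R fun i =>
          ((@Term.realize L _ (rs hf _) _ (Sum.elim v xs) (ts i) : (XG π G : Set N)) : N)) ↔
        (Structure.RelMap R fun i =>
          (ts i).realize (Sum.elim (fun i => (v i).1) fun i => (xs i).1))
      have e : (fun i =>
          ((@Term.realize L _ (rs hf _) _ (Sum.elim v xs) (ts i) : (XG π G : Set N)) : N)) =
          fun i => (ts i).realize (Sum.elim (fun i => (v i).1) fun i => (xs i).1) := by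
        funext i
        rw [AIF_term hf (XG π G : Set N) (ts i), AIF_elim v xs]
      rw [e]
    | imp φ ψ ih1 ih2 =>
      intro G hG v xs
      exact imp_congr (ih1 G hG v xs) (ih2 G hG v xs)
    | @all n φ ih =>
      intro G hG v xs
      have ih' : ∀ (G' : ℚ → ℚ → Prop), Gd G' → ∀ (v : α → (XG π G' : Set N))
          (xs : Fin n → (XG π G' : Set N)) (z : (XG π G' : Set N)),
          (@BoundedFormula.Realize L (XG π G' : Set N) (rs hf _) α (n + 1) φ v
            (Fin.snoc (α := fun _ => (XG π G' : Set N)) xs z) ↔
          φ.Realize (fun i => (v i).1)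
            (Fin.snoc (α := fun _ => N) (fun i => (xs i).1) (z : N))) := by
        intro G' hG' v' xs' z'
        rw [ih G' hG' v' (Fin.snoc (α := fun _ => (XG π G' : Set N)) xs' z'), AIF_snoc]
      constructor
      · intro h z
        by_contra hz
        have hAbs : Abs hf N π (φ.toFormula.relabel (AIF_g α n)).not := by
          intro G' hG' w
          let _ := rs hf (XG π G' : Set N)
          show (¬ (φ.toFormula.relabel (AIF_g α n)).Realize w) ↔
            ¬ (φ.toFormula.relabel (AIF_g α n)).Realize fun i => (w i).1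
          rw [AIF_rn, AIF_rn]
          exact not_congr (ih' G' hG' _ _ _)
        obtain ⟨z', hz', hz2⟩ := hyp (α ⊕ Fin n) (φ.toFormula.relabel (AIF_g α n)).not hAbs G hG
          (Sum.elim (fun i => (v i).1) fun i => (xs i).1)
          (by
            intro i
            cases i with
            | inl a => exact (v a).2
            | inr j => exact (xs j).2)
          ⟨z, by
            show ¬ (φ.toFormula.relabel (AIF_g α n)).Realize _
            rw [AIF_rn]
            exact hz⟩
        have h2 : ¬ (φ.toFormula.relabel (AIF_g α n)).Realize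
            (Sum.elim (Sum.elim (fun i => (v i).1) fun i => (xs i).1) fun _ => z') := hz2
        rw [AIF_rn] at h2
        exact h2 ((ih' G hG v xs ⟨z', hz'⟩).1 (h ⟨z', hz'⟩))
      · intro h z
        exact (ih' G hG v xs z).2 (h z.1)
  intro α _ φ G hG v
  have h := key α 0 φ G hG v default
  unfold Rz Formula.Realize
  have e : (fun i => ((default : Fin 0 → (XG π G : Set N)) i).1) = (default : Fin 0 → N) :=
    Subsingleton.elim _ _
  rw [e] at h
  exact h

end Pool.Agent.EAE
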