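import Pool.Agent.EAE.StB

/-!
# EAE, BAD: few bad zones
-/

set_option autoImplicit false
set_option linter.unusedVariables false

namespace Pool.Agent.EAE

open Set
open Pool.Agent.AAD (Gam)

theorem thm_BAD : St_BAD := by
  classical
  intro N _ π G ι _ a b R v hv s w hw
  -- a zone is bad if some touched block is between two of its vertices
  let P : Fin R → ι → Prop := fun ρ r' => ∃ (μ : ℚ) (m m' : ℕ), Tch π (!s) (w r') μ ∧
    v (!s) ρ m ≤ μ ∧ μ ≤ v (!s) ρ m'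
  refine ⟨Finset.univ.filter fun ρ => ∃ r', P ρ r', ?_, ?_⟩
  · have hch : ∀ ρ : {ρ : Fin R // ρ ∈ Finset.univ.filter fun ρ => ∃ r', P ρ r'},
        ∃ r', P ρ.1 r' := fun ρ => (Finset.mem_filter.1 ρ.2).2
    choose F hF using hch
    have hlt : ∀ ρ₁ ρ₂ : Fin R, ∀ r', P ρ₁ r' → P ρ₂ r' → ¬ ρ₁ < ρ₂ := by
      rintro ρ₁ ρ₂ r' ⟨μ₁, m₁, m₁', t₁, -, h₁⟩ ⟨μ₂, m₂, m₂', t₂, h₂, -⟩ hlt
      have h3 : μ₁ = μ₂ := (hw r').1 (!s) μ₁ μ₂ t₁ t₂
      have h4 := (hv (!s)).zo ρ₁ ρ₂ m₁' m₂ hlt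
      rw [h3] at h₁
      exact absurd (h₁.trans_lt (h4.trans_le h₂)) (lt_irrefl _)
    have hinj : Function.Injective F := by
      intro ρ₁ ρ₂ h
      have h1 := hF ρ₁
      have h2 := hF ρ₂
      rw [← h] at h2
      apply Subtype.ext
      exact le_antisymm (not_lt.1 (hlt ρ₂.1 ρ₁.1 _ h2 h1)) (not_lt.1 (hlt ρ₁.1 ρ₂.1 _ h1 h2))
    have h5 := Nat.card_le_card_of_injective F hinj
    rwa [Nat.card_eq_fintype_card, Fintype.card_coe] at h5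
  · intro ρ hρ m m' r' μ ht
    have hno : ∀ m₁ m₂ : ℕ, v (!s) ρ m₁ ≤ μ → ¬ μ ≤ v (!s) ρ m₂ := by
      intro m₁ m₂ h1 h2
      exact hρ (Finset.mem_filter.2 ⟨Finset.mem_univ _, r', μ, m₁, m₂, ht, h1, h2⟩)
    rcases lt_or_ge μ (v (!s) ρ m) with h | h
    · refine Or.inl ⟨h, ?_⟩
      by_contra h2
      exact hno m' m (not_lt.1 h2) h.le
    · exact Or.inr ⟨not_le.1 (hno m m h), not_le.1 (hno m m' h)⟩

end Pool.Agent.EAE
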