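import Pool.Agent.EAE.StB

/-!
# EAE, module BTS: the bits in `X_G`
-/

set_option autoImplicit false
set_option linter.unusedVariables false

namespace Pool.Agent.EAE

open FirstOrder.Language Set
open scoped FirstOrder
open Pool.Agent.AAD (Gam Fx ls St su Ctx UD)

theorem BTS_mg {N : Type} [MulAction Gam N] {π : ℚ → Lam} {ι : Type} {W : ι → N} {c : Bool → ℚ}
    {u u' : Bool → ι → N} (h0 : ∀ r, Tch π false (W r) (c false) → u false r = u' false r)
    (h1 : ∀ r, Tch π true (W r) (c true) → u true r = u' true r) :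
    mg π W c u = mg π W c u' := by
  funext r
  unfold mg
  by_cases h2 : Tch π false (W r) (c false)
  · rw [if_pos h2, if_pos h2, h0 r h2]
  · rw [if_neg h2, if_neg h2]
    by_cases h3 : Tch π true (W r) (c true)
    · rw [if_pos h3, if_pos h3, h1 r h3]
    · rw [if_neg h3, if_neg h3]

theorem thm_BTS (hTWT : St_TWT) (hAB0 : St_AB0) (hAB1 : St_AB1) (hTT2 : St_TT2)
    (hDEC : St_DEC) : St_BTS := by
  intro L N _ _ hf π ι φ G₀ W c a b l r g R v S hR S' G hG x₀
  obtain ⟨hm1, hm2⟩ := hAB0 L N hf π ι φ G₀ W c a b l r g R v S (HS S') G hG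
  have htt : ∀ s ρ m r', Tch π s (W r') (c s) → (tt W g v G x₀ s ρ m r').1 = tw W g v s ρ m r' := by
    intro s ρ m r' h
    unfold tt
    rw [dif_pos (hm1 s ρ m r' h)]
  have h1 : ∀ ρ m ρ' m', Dw π φ W c G (tt W g v G x₀ false ρ m) (tt W g v G x₀ true ρ' m') ↔
      HS S' m m' := by
    intro ρ m ρ' m'
    have h2 := hAB1 L N hf π ι φ G₀ W c a b l r g R v S (HS S') G hG
      (fun s => if s then ρ' else ρ) (fun s => if s then m' else m)
    have h3 : HS S' ((fun s : Bool => if s then m' else m) false)
        ((fun s : Bool => if s then m' else m) true) ↔ HS S' m m' := by simp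
    rw [h3] at h2
    rw [← h2]
    unfold Dw
    have h4 : mg π W c (pr false (fun i => (tt W g v G x₀ false ρ m i).1)
        fun i => (tt W g v G x₀ true ρ' m' i).1) =
        mg π W c fun s : Bool => tw W g v s (if s then ρ' else ρ) (if s then m' else m) := by
      refine BTS_mg ?_ ?_
      · intro r' hr
        show (tt W g v G x₀ false ρ m r').1 = _
        rw [htt false ρ m r' hr]
        simp
      · intro r' hr
        show (tt W g v G x₀ true ρ' m' r').1 = _
        rw [htt true ρ' m' r' hr]
        simp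
    rw [h4]
  have h2 : ∀ (s : Bool) (w : ι → (XG π G : Set N)) (ρ : Fin R) (m : ℕ),
      ad (Dw π φ W c G) s w (tt W g v G x₀ (!s) ρ m) ↔
        DD π φ G (mg π W c (pr s (fun i => (w i).1) (tw W g v (!s) ρ m))) := by
    intro s w ρ m
    cases s
    · show Dw π φ W c G w (tt W g v G x₀ true ρ m) ↔ _
      unfold Dw
      have h4 : mg π W c (pr false (fun i => (w i).1) fun i => (tt W g v G x₀ true ρ m i).1) =
          mg π W c (pr false (fun i => (w i).1) (tw W g v (!false) ρ m)) := by
        refine BTS_mg ?_ ?_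
        · intro r' hr
          rfl
        · intro r' hr
          show (tt W g v G x₀ true ρ m r').1 = tw W g v true ρ m r'
          exact htt true ρ m r' hr
      rw [h4]
    · show Dw π φ W c G (tt W g v G x₀ false ρ m) w ↔ _
      unfold Dw
      have h4 : mg π W c (pr false (fun i => (tt W g v G x₀ false ρ m i).1) fun i => (w i).1) =
          mg π W c (pr true (fun i => (w i).1) (tw W g v (!true) ρ m)) := by
        refine BTS_mg ?_ ?_
        · intro r' hr
          show (tt W g v G x₀ false ρ m r').1 = tw W g v false ρ m r'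
          exact htt false ρ m r' hr
        · intro r' hr
          rfl
      rw [h4]
  refine hDEC (ι → (XG π G : Set N)) (Nat.card ι) R S' (Dw π φ W c G) (tt W g v G x₀) hR h1 ?_
  intro s w
  obtain ⟨B, hB, m₀, h5⟩ := hTT2 L N hf π ι φ G₀ W c a b l r g R v S (HS S') G hG s
    (fun i => (w i).1) (fun i => (w i).2)
  refine ⟨B, hB, m₀, ?_⟩
  intro ρ hρ m m' h6 h7
  rw [h2] at h6 h7
  exact h5 ρ hρ m m' h6 h7

end Pool.Agent.EAE
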