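import Pool.Agent.EAE.StA
import Pool.Agent.UNS.LOC
import Pool.Agent.UNS.EMB

/-!
# EAE, module CLM: failure for the complete graph gives a visible pair
-/

set_option autoImplicit false
set_option linter.unusedVariables false

namespace Pool.Agent.EAE

open FirstOrder.Language Set
open scoped FirstOrder
open Pool.Agent.AAD (Gam Fx ls St su Ctx)

private def CLM_cL (s : Bool) : Fin 3 := if s then 1 else 0
private def CLM_cR (s : Bool) : Fin 3 := if s then 2 else 1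

private theorem CLM_frbk (s : Bool) (i : ℚ) (c : Fin 3) : fr c ≠ bk s i := by
  intro h
  have h1 : ((⟨2 * c.1, by omega⟩ : Fin 5)) = (if s then 3 else 1 : Fin 5) := by
    have := congrArg (fun x : Lam => (ofLex x).1) h
    exact this
  revert h1
  cases s <;> fin_cases c <;> decide

private theorem CLM_bL (s : Bool) (i₁ : ℚ) (x : Lam)
    (hc : (∃ c, x = fr c) ∨ ∃ s' i, x = bk s' i) (h1 : fr (CLM_cL s) < x) (h2 : x ≤ bk s i₁) :
    ∃ j, j ≤ i₁ ∧ x = bk s j := by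
  rcases hc with ⟨c, rfl⟩ | ⟨s', i, rfl⟩
  · exfalso
    revert h1 h2
    cases s <;> fin_cases c <;> simp [fr, bk, CLM_cL, Prod.Lex.toLex_lt_toLex, Prod.Lex.toLex_le_toLex]
  · revert h1 h2
    cases s <;> cases s' <;> simp [fr, bk, CLM_cL, Prod.Lex.toLex_lt_toLex, Prod.Lex.toLex_le_toLex]

private theorem CLM_bR (s : Bool) (i₁ : ℚ) (x : Lam)
    (hc : (∃ c, x = fr c) ∨ ∃ s' i, x = bk s' i) (h1 : x < fr (CLM_cR s)) (h2 : bk s i₁ ≤ x) :
    ∃ j, i₁ ≤ j ∧ x = bk s j := by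
  rcases hc with ⟨c, rfl⟩ | ⟨s', i, rfl⟩
  · exfalso
    revert h1 h2
    cases s <;> fin_cases c <;> simp [fr, bk, CLM_cR, Prod.Lex.toLex_lt_toLex, Prod.Lex.toLex_le_toLex]
  · revert h1 h2
    cases s <;> cases s' <;> simp [fr, bk, CLM_cR, Prod.Lex.toLex_lt_toLex, Prod.Lex.toLex_le_toLex]

private theorem CLM_ltL (s : Bool) (i : ℚ) : fr (CLM_cL s) < bk s i := by
  cases s <;> simp [fr, bk, CLM_cL, Prod.Lex.toLex_lt_toLex]

private theorem CLM_ltR (s : Bool) (i : ℚ) : bk s i < fr (CLM_cR s) := by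
  cases s <;> simp [fr, bk, CLM_cR, Prod.Lex.toLex_lt_toLex]

private theorem CLM_bklt (s : Bool) (i j : ℚ) : bk s i < bk s j ↔ i < j := by
  simp [bk, Prod.Lex.toLex_lt_toLex]

private theorem CLM_bkle (s : Bool) (i j : ℚ) : bk s i ≤ bk s j ↔ i ≤ j := by
  simp [bk, Prod.Lex.toLex_le_toLex]

private theorem CLM_up {π : ℚ → Lam} (hπ : Blk π) (B : Finset ℚ) (v : Lam) (hv : ∃ x, π x = v) :
    ∃ l, π l = v ∧ ∀ b ∈ B, π b = v → b < l := by
  classical
  obtain ⟨x, hx⟩ := hv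
  have hne : (insert x (B.filter fun b => π b = v)).Nonempty := Finset.insert_nonempty _ _
  obtain ⟨y, hy, hyv⟩ := hπ.up ((insert x (B.filter fun b => π b = v)).max' hne)
  refine ⟨y, ?_, fun b hb hbv => ?_⟩
  · rw [hyv]
    have hm := Finset.max'_mem _ hne
    rcases Finset.mem_insert.1 hm with h | h
    · rw [h]; exact hx
    · exact (Finset.mem_filter.1 h).2
  · exact lt_of_le_of_lt
      (Finset.le_max' _ _ (Finset.mem_insert_of_mem (Finset.mem_filter.2 ⟨hb, hbv⟩))) hy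

private theorem CLM_dn {π : ℚ → Lam} (hπ : Blk π) (B : Finset ℚ) (v : Lam) (hv : ∃ x, π x = v) :
    ∃ l, π l = v ∧ ∀ b ∈ B, π b = v → l < b := by
  classical
  obtain ⟨x, hx⟩ := hv
  have hne : (insert x (B.filter fun b => π b = v)).Nonempty := Finset.insert_nonempty _ _
  obtain ⟨y, hy, hyv⟩ := hπ.dn ((insert x (B.filter fun b => π b = v)).min' hne)
  refine ⟨y, ?_, fun b hb hbv => ?_⟩
  · rw [hyv]
    have hm := Finset.min'_mem _ hne
    rcases Finset.mem_insert.1 hm with h | h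
    · rw [h]; exact hx
    · exact (Finset.mem_filter.1 h).2
  · exact lt_of_lt_of_le hy
      (Finset.min'_le _ _ (Finset.mem_insert_of_mem (Finset.mem_filter.2 ⟨hb, hbv⟩)))

private theorem CLM_rs {π : ℚ → Lam} (hπ : Blk π) (B : Finset ℚ) (f : ℚ) :
    ∃ r, f < r ∧ π r = π f ∧ ∀ b ∈ B, f < b → r < b := by
  classical
  obtain ⟨y, hy, hyv⟩ := hπ.up f
  have hne : (insert y (B.filter fun b => f < b)).Nonempty := Finset.insert_nonempty _ _
  set m := (insert y (B.filter fun b => f < b)).min' hne with hm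
  have hfm : f < m := by
    have h := Finset.min'_mem _ hne
    rw [← hm] at h
    rcases Finset.mem_insert.1 h with h | h
    · rw [h]; exact hy
    · exact (Finset.mem_filter.1 h).2
  have hmy : m ≤ y := Finset.min'_le _ _ (Finset.mem_insert_self _ _)
  refine ⟨(f + m) / 2, by linarith, ?_, fun b hb hfb => ?_⟩
  · apply le_antisymm
    · rw [← hyv]
      exact hπ.mono (by linarith)
    · exact hπ.mono (by linarith)
  · have h : m ≤ b := Finset.min'_le _ _ (Finset.mem_insert_of_mem (Finset.mem_filter.2 ⟨hb, hfb⟩))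
    linarith

private theorem CLM_ls {π : ℚ → Lam} (hπ : Blk π) (B : Finset ℚ) (f : ℚ) :
    ∃ r, r < f ∧ π r = π f ∧ ∀ b ∈ B, b < f → b < r := by
  classical
  obtain ⟨y, hy, hyv⟩ := hπ.dn f
  have hne : (insert y (B.filter fun b => b < f)).Nonempty := Finset.insert_nonempty _ _
  set m := (insert y (B.filter fun b => b < f)).max' hne with hm
  have hfm : m < f := by
    have h := Finset.max'_mem _ hne
    rw [← hm] at h
    rcases Finset.mem_insert.1 h with h | h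
    · rw [h]; exact hy
    · exact (Finset.mem_filter.1 h).2
  have hmy : y ≤ m := Finset.le_max' _ _ (Finset.mem_insert_self _ _)
  refine ⟨(f + m) / 2, by linarith, ?_, fun b hb hfb => ?_⟩
  · apply le_antisymm
    · exact hπ.mono (by linarith)
    · rw [← hyv]
      exact hπ.mono (by linarith)
  · have h : b ≤ m := Finset.le_max' _ _ (Finset.mem_insert_of_mem (Finset.mem_filter.2 ⟨hb, hfb⟩))
    linarith

open Classical in
/-- moving one point of the support to a free part -/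
private theorem CLM_card {L : FirstOrder.Language.{0, 0}} {N : Type} [L.Structure N] [MulAction Gam N]
    (hctx : Ctx L N) {π : ℚ → Lam} (z : N) (f q l r : ℚ) (c : Fin 3) (h : Gam)
    (hf : f ∈ su z) (hfb : ∃ s i, π f = bk s i) (hq : π q = fr c) (hhf : h f = q)
    (hou : ∀ x, x ∉ Ioo l r → h x = x) (hone : ∀ a ∈ su z, a ∈ Ioo l r → a = f) :
    ((su (h • z)).filter fun a => ∃ s i, π a = bk s i).card <
      ((su z).filter fun a => ∃ s i, π a = bk s i).card := by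
  classical
  apply Finset.card_lt_card
  rw [Finset.ssubset_iff_of_subset]
  · refine ⟨f, Finset.mem_filter.2 ⟨hf, hfb⟩, fun hmem => ?_⟩
    obtain ⟨hm, -⟩ := Finset.mem_filter.1 hmem
    rw [UNS.su_act hctx h z] at hm
    obtain ⟨a, ha, haf⟩ := Finset.mem_image.1 hm
    by_cases hal : a ∈ Ioo l r
    · have := hone a ha hal
      rw [this, hhf] at haf
      obtain ⟨s, i, hsi⟩ := hfb
      rw [← haf, hq] at hsi
      exact CLM_frbk s i c hsi
    · rw [hou a hal] at haf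
      rw [haf] at hal
      have h1 := hou f hal
      rw [hhf] at h1
      obtain ⟨s, i, hsi⟩ := hfb
      rw [← h1, hq] at hsi
      exact CLM_frbk s i c hsi
  · intro b hb
    obtain ⟨hm, s, i, hsi⟩ := Finset.mem_filter.1 hb
    rw [UNS.su_act hctx h z] at hm
    obtain ⟨a, ha, rfl⟩ := Finset.mem_image.1 hm
    by_cases hal : a ∈ Ioo l r
    · exfalso
      have := hone a ha hal
      rw [this, hhf, hq] at hsi
      exact CLM_frbk s i c hsi
    · rw [hou a hal] at hsi ⊢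
      exact Finset.mem_filter.2 ⟨ha, s, i, hsi⟩

theorem thm_CLM : St_CLM := by
  classical
  intro L N _ _ hctx π hπ ι _ φ w hw hex hnDD
  have _ : Fintype ι := Fintype.ofFinite ι
  have hLOC : UNS.St_LOC := UNS.thm_LOC UNS.thm_EMB
  have hex' : ∃ n : ℕ, ∃ z : N, φ.Realize (Sum.elim w fun _ => z) ∧
      ((su z).filter fun a => ∃ s i, π a = bk s i).card = n := by
    obtain ⟨z, hz⟩ := hex
    exact ⟨_, z, hz, rfl⟩
  obtain ⟨z, hz, hzn⟩ := Nat.find_spec hex'
  have hmin : ∀ z' : N, ((su z').filter fun a => ∃ s i, π a = bk s i).card <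
      ((su z).filter fun a => ∃ s i, π a = bk s i).card → ¬ φ.Realize (Sum.elim w fun _ => z') := by
    intro z' hlt hz'
    rw [hzn] at hlt
    exact Nat.find_min hex' hlt ⟨z', hz', rfl⟩
  obtain ⟨s, i, i', hii, hi, hi'⟩ : ∃ s i i', i < i' ∧ Tch π s z i ∧ Tch π s z i' := by
    by_contra hno
    apply hnDD
    refine ⟨z, ⟨fun s i i' hi hi' => ?_, fun _ _ _ _ => trivial⟩, hz⟩
    rcases lt_trichotomy i i' with h | h | h
    · exact absurd ⟨s, i, i', h, hi, hi'⟩ hno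
    · exact h
    · exact absurd ⟨s, i', i, h, hi', hi⟩ hno
  -- the points on side `s`
  set S := (su z).filter fun a => ∃ i, π a = bk s i with hS
  have hSne : S.Nonempty := by
    obtain ⟨a, ha, hai⟩ := hi
    exact ⟨a, Finset.mem_filter.2 ⟨ha, i, hai⟩⟩
  set f₁ := S.min' hSne with hf₁
  set f₂ := S.max' hSne with hf₂
  obtain ⟨hf₁z, i₁, hi₁⟩ := Finset.mem_filter.1 (Finset.min'_mem S hSne)
  obtain ⟨hf₂z, i₂, hi₂⟩ := Finset.mem_filter.1 (Finset.max'_mem S hSne)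
  rw [← hf₁] at hf₁z hi₁
  rw [← hf₂] at hf₂z hi₂
  have hi₁i : i₁ ≤ i := by
    obtain ⟨a, ha, hai⟩ := hi
    have h := Finset.min'_le S a (Finset.mem_filter.2 ⟨ha, i, hai⟩)
    have h2 := hπ.mono h
    rw [← hf₁, hi₁, hai] at h2
    exact (CLM_bkle s i₁ i).1 h2
  have hi₂i : i' ≤ i₂ := by
    obtain ⟨a, ha, hai⟩ := hi'
    have h := Finset.le_max' S a (Finset.mem_filter.2 ⟨ha, i', hai⟩)
    have h2 := hπ.mono h
    rw [← hf₂, hi₂, hai] at h2
    exact (CLM_bkle s i' i₂).1 h2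
  have hi₁₂ : i₁ < i₂ := by linarith
  set B := su z ∪ Finset.univ.biUnion fun k => su (w k) with hB
  have hBz : ∀ a ∈ su z, a ∈ B := fun a ha => Finset.mem_union_left _ ha
  have hBw : ∀ k, ∀ a ∈ su (w k), a ∈ B := fun k a ha =>
    Finset.mem_union_right _ (Finset.mem_biUnion.2 ⟨k, Finset.mem_univ k, ha⟩)
  -- monotonicity, contraposed
  have hlt : ∀ x y : ℚ, π x < π y → x < y := fun x y h => by
    by_contra hn
    exact absurd (hπ.mono (not_lt.1 hn)) (not_le.2 h)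
  -- the left interval
  obtain ⟨l, hlv, hl⟩ := CLM_up hπ B (fr (CLM_cL s)) (hπ.nef _)
  obtain ⟨q, hlq, hqv⟩ := hπ.up l
  rw [hlv] at hqv
  obtain ⟨r, hfr, hrv, hr⟩ := CLM_rs hπ B f₁
  rw [hi₁] at hrv
  have hlf : l < f₁ := hlt _ _ (by rw [hlv, hi₁]; exact CLM_ltL s i₁)
  have hqr : q < r := hlt _ _ (by rw [hqv, hrv]; exact CLM_ltL s i₁)
  obtain ⟨h, hh, hou⟩ := hLOC l r {f₁} (fun _ => q)
    (fun a ha => by rw [Finset.mem_singleton.1 ha]; exact ⟨hlf, hfr⟩)
    (fun a ha => ⟨hlq, hqr⟩)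
    (fun a ha b hb hab => by
      rw [Finset.mem_singleton.1 ha, Finset.mem_singleton.1 hb] at hab
      exact absurd hab (lt_irrefl _))
  have hhf : h f₁ = q := hh f₁ (Finset.mem_singleton_self _)
  -- points of `B` in the left interval
  have hpl : ∀ a ∈ B, a ∈ Ioo l r → ∃ j, j ≤ i₁ ∧ π a = bk s j := by
    intro a ha hal
    apply CLM_bL s i₁ (π a) (hπ.cov a)
    · apply lt_of_le_of_ne
      · rw [← hlv]; exact hπ.mono hal.1.le
      · intro he
        exact absurd (hl a ha he.symm) (not_lt.2 hal.1.le)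
    · rw [← hrv]; exact hπ.mono hal.2.le
  have hone : ∀ a ∈ su z, a ∈ Ioo l r → a = f₁ := by
    intro a ha hal
    obtain ⟨j, -, hj⟩ := hpl a (hBz a ha) hal
    apply le_antisymm
    · by_contra hn
      exact absurd (hr a (hBz a ha) (not_le.1 hn)) (not_lt.2 hal.2.le)
    · exact Finset.min'_le S a (Finset.mem_filter.2 ⟨ha, j, hj⟩)
  have hnot : ¬ φ.Realize (Sum.elim w fun _ => h • z) :=
    hmin _ (CLM_card hctx z f₁ q l r _ h hf₁z ⟨s, i₁, hi₁⟩ hqv hhf hou hone)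
  -- the right interval
  obtain ⟨r', hrv', hr'⟩ := CLM_dn hπ B (fr (CLM_cR s)) (hπ.nef _)
  obtain ⟨q', hlq', hqv'⟩ := hπ.dn r'
  rw [hrv'] at hqv'
  obtain ⟨l', hfl', hlv', hl'⟩ := CLM_ls hπ B f₂
  rw [hi₂] at hlv'
  have hfr' : f₂ < r' := hlt _ _ (by rw [hrv', hi₂]; exact CLM_ltR s i₂)
  have hqr' : l' < q' := hlt _ _ (by rw [hqv', hlv']; exact CLM_ltR s i₂)
  obtain ⟨h', hh', hou'⟩ := hLOC l' r' {f₂} (fun _ => q')
    (fun a ha => by rw [Finset.mem_singleton.1 ha]; exact ⟨hfl', hfr'⟩)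
    (fun a ha => ⟨hqr', hlq'⟩)
    (fun a ha b hb hab => by
      rw [Finset.mem_singleton.1 ha, Finset.mem_singleton.1 hb] at hab
      exact absurd hab (lt_irrefl _))
  have hhf' : h' f₂ = q' := hh' f₂ (Finset.mem_singleton_self _)
  have hpl' : ∀ a ∈ B, a ∈ Ioo l' r' → ∃ j, i₂ ≤ j ∧ π a = bk s j := by
    intro a ha hal
    apply CLM_bR s i₂ (π a) (hπ.cov a)
    · apply lt_of_le_of_ne
      · rw [← hrv']; exact hπ.mono hal.2.le
      · intro he
        exact absurd (hr' a ha he) (not_lt.2 hal.2.le)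
    · rw [← hlv']; exact hπ.mono hal.1.le
  have hone' : ∀ a ∈ su z, a ∈ Ioo l' r' → a = f₂ := by
    intro a ha hal
    obtain ⟨j, -, hj⟩ := hpl' a (hBz a ha) hal
    apply le_antisymm
    · exact Finset.le_max' S a (Finset.mem_filter.2 ⟨ha, j, hj⟩)
    · by_contra hn
      exact absurd (hl' a (hBz a ha) (not_le.1 hn)) (not_lt.2 hal.1.le)
  have hnot' : ¬ φ.Realize (Sum.elim w fun _ => h' • z) :=
    hmin _ (CLM_card hctx z f₂ q' l' r' _ h' hf₂z ⟨s, i₂, hi₂⟩ hqv' hhf' hou' hone')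
  have hsp : ∀ k, (∃ a ∈ su (w k), a ∈ Ioo l r) → ¬ ∃ a ∈ su (w k), a ∈ Ioo l' r' := by
    rintro k ⟨a, ha, hal⟩ ⟨a', ha', hal'⟩
    obtain ⟨j, hj1, hj⟩ := hpl a (hBw k a ha) hal
    obtain ⟨j', hj1', hj'⟩ := hpl' a' (hBw k a' ha') hal'
    have := hw k s j j' ⟨a, ha, hj⟩ ⟨a', ha', hj'⟩
    linarith
  have hrl : r ≤ l' := (hlt _ _ (by rw [hrv, hlv']; exact (CLM_bklt s i₁ i₂).2 hi₁₂)).le
  exact ⟨z, l, r, l', r', h, h', hrl, hou, hou', fun hiff => hnot (hiff.1 hz),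
    fun hiff => hnot' (hiff.1 hz), hsp, hsp⟩

end Pool.Agent.EAE
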