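import Pool.Agent.EAE.StB

/-!
# EAE [CNT]: counting
-/

set_option autoImplicit false
set_option linter.unusedVariables false

namespace Pool.Agent.EAE

open Finset

private theorem CNT_card {R : ℕ} (p : Fin R → Prop) [DecidablePred p] :
    Nat.card {x : Fin R // p x} = (univ.filter p).card := by
  rw [Nat.card_eq_fintype_card, Fintype.card_subtype]

theorem thm_CNT : St_CNT := by
  classical
  intro K R E hKR
  have hKR' : K < R := by
    have : K ≤ K * (K + 2) := Nat.le_mul_of_pos_right K (by omega)
    omega
  refine ⟨fun P hP h => ?_, fun P hP hA => ?_, fun h hA => ?_⟩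
  · unfold Adj
    rw [CNT_card]
    refine (card_le_card ?_).trans hP
    intro ρ hρ
    by_contra hn
    exact absurd (mem_filter.1 hρ).2 (not_lt.2 (h ρ hn))
  · by_contra hcon
    obtain ⟨C, hCP, hC⟩ := exists_subset_card_eq (s := P) (n := K + 1) (by omega)
    have hZ : (C.biUnion fun σ => univ.filter fun ρ => E ρ σ).card ≤ (K + 1) * K := by
      rw [← hC]
      refine card_biUnion_le_card_mul _ _ _ fun σ hσ => ?_
      rw [← CNT_card]
      exact hP σ (hCP hσ)
    have hsub : (univ : Finset (Fin R)) ⊆ (C.biUnion fun σ => univ.filter fun ρ => E ρ σ) ∪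
        univ.filter fun ρ => K < Nat.card {σ : Fin R // ¬ E ρ σ} := by
      intro ρ _
      rw [mem_union]
      by_cases hρ : ρ ∈ C.biUnion fun σ => univ.filter fun ρ => E ρ σ
      · exact Or.inl hρ
      · right
        refine mem_filter.2 ⟨mem_univ _, ?_⟩
        rw [CNT_card]
        have h1 : C ⊆ univ.filter fun σ => ¬ E ρ σ := by
          intro σ hσ
          refine mem_filter.2 ⟨mem_univ _, fun hE => hρ ?_⟩
          exact mem_biUnion.2 ⟨σ, hσ, mem_filter.2 ⟨mem_univ _, hE⟩⟩
        have h2 := card_le_card h1
        omega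
    have h3 := (card_le_card hsub).trans (card_union_le _ _)
    rw [card_univ, Fintype.card_fin] at h3
    unfold Adj at hA
    rw [CNT_card] at hA
    have h4 : (K + 1) * K + K = K * (K + 2) := by ring
    omega
  · unfold Adj at hA
    rw [CNT_card, filter_true_of_mem, card_univ, Fintype.card_fin] at hA
    · omega
    · intro ρ _
      rw [CNT_card, filter_true_of_mem fun σ _ => h ρ σ, card_univ, Fintype.card_fin]
      exact hKR'

end Pool.Agent.EAE
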