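import Pool.Agent.EAE.StA

/-!
# EAE, CRX (helper23)
-/

set_option autoImplicit false
set_option linter.unusedVariables false

namespace Pool.Agent.EAE

open FirstOrder.Language Set
open scoped FirstOrder
open Pool.Agent.AAD (Gam Fx ls St su Ctx)

theorem thm_CRX (hEDG : St_EDG) (hVCR : St_VCR) (hFAI : St_FAI) (hCLM : St_CLM) : St_CRX := by
  intro L N _ _ hf hC π hπ hz
  obtain ⟨ι, _, χ, G, w, hχ, hG, hw, hz', hD⟩ := hFAI L N hf hC π hπ hz
  by_cases hT : DD π χ (fun _ _ => True) w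
  · obtain ⟨H, c, a1, a2, a3, a4, a5, a6, a7, a8, a9⟩ :=
      hEDG L N hC π hπ ι χ w G (fun _ _ => True) hG (fun _ _ _ => trivial) hw hD hT
    exact ⟨ι, inferInstance, χ, H, w, c, ⟨a1, hχ, a7, a4, a8, a9⟩⟩
  · obtain ⟨z, l, r, l', r', h, h', hVP⟩ :=
      hCLM L N hC π hπ ι χ w (fun k s i i' => (hw k).1 s i i') hz' hT
    exact hVCR L N hf hC π hπ ι ι χ χ w w z l r l' r' h h' hVP hχ hχ

end Pool.Agent.EAE
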