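import Pool.Agent.EAE.StB

/-!
# EAE, module DEC: decoding the bits

Offer 14168, statement of helper97, proof in the docstring of `St_DEC`.
-/

set_option autoImplicit false
set_option linter.unusedVariables false

namespace Pool.Agent.EAE

/-- a word `u` of side `s` means the vertex `m` -/
private def DEC_Mean {X : Type} {R : ℕ} (K : ℕ) (S : ℕ → Prop) (D : X → X → Prop) (t : Bool → Fin R → ℕ → X)
    (s : Bool) (u : X) (m : ℕ) : Prop :=
  ∃ B : Finset (Fin R), B.card ≤ K ∧ ∀ ρ ∉ B, ∀ k : ℕ, (ad D s u (t (!s) ρ k) ↔ ad (HS S) s m k)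

private lemma DEC_card {R K : ℕ} (p : Fin R → Prop) (B : Finset (Fin R)) (hB : B.card ≤ K)
    (h : ∀ σ, p σ → σ ∈ B) : Nat.card {σ : Fin R // p σ} ≤ K := by
  classical
  rw [Nat.card_eq_fintype_card, Fintype.card_subtype]
  refine le_trans (Finset.card_le_card ?_) hB
  intro σ hσ
  exact h σ (Finset.mem_filter.1 hσ).2

private lemma DEC_sd (n : ℕ) : sd (n + 1) = !sd n := by
  unfold sd
  rcases Nat.mod_two_eq_zero_or_one n with h | h
  · have h' : (n + 1) % 2 = 1 := by omega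
    simp [h, h']
  · have h' : (n + 1) % 2 = 0 := by omega
    simp [h, h']

private lemma DEC_ad {α : Type} (G : α → α → Prop) (s : Bool) (x y : α) : ad G (!s) x y ↔ ad G s y x := by
  cases s <;> simp [ad]

theorem thm_DEC (hHSF : St_HSF) (hCNT : St_CNT) : St_DEC := by
  classical
  intro X K R S D t hR T1 T2
  obtain ⟨F1, F2, F3, F4, F5⟩ := hHSF S
  have T1' : ∀ (s : Bool) (ρ : Fin R) (m : ℕ) (ρ' : Fin R) (m' : ℕ),
      ad D s (t s ρ m) (t (!s) ρ' m') ↔ ad (HS S) s m m' := by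
    intro s ρ m ρ' m'
    cases s
    · exact T1 ρ m ρ' m'
    · exact T1 ρ' m' ρ m
  have hKR : K < R := by nlinarith
  have hA : ∀ (n : ℕ) (u : X),
      (∀ σ, ad D (sd n) u (t (!sd n) σ (cl n)) ∧ ¬ ad D (sd n) u (t (!sd n) σ (1 - cl n))) →
      ∃ m, 3 ≤ m ∧ (m - 3) % 2 = cl n ∧ DEC_Mean K S D t (sd n) u m := by
    intro n u hu
    obtain ⟨B, hB, m₀, hm₀⟩ := T2 (sd n) u
    have hcl : cl n ≤ 1 := by unfold cl; omega
    obtain ⟨ρ0, hρ0⟩ : ∃ ρ, ρ ∉ B := by
      by_contra hcon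
      push Not at hcon
      have h1 : (Finset.univ : Finset (Fin R)) ⊆ B := fun x _ => hcon x
      have h2 := Finset.card_le_card h1
      rw [Finset.card_univ, Fintype.card_fin] at h2
      omega
    have h1 := hm₀ ρ0 hρ0 (cl n) (1 - cl n) (hu ρ0).1 (hu ρ0).2
    have h2 := F3 (sd n) m₀ (cl n) hcl h1.1 h1.2
    refine ⟨m₀, h2.1, h2.2, B, hB, ?_⟩
    intro ρ hρ k
    constructor
    · intro hk
      exact (hm₀ ρ hρ k (1 - cl n) hk (hu ρ).2).1
    · intro hk
      by_contra hcon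
      exact (hm₀ ρ hρ (cl n) k (hu ρ).1 hcon).2 hk
  have hB : ∀ n, (fun ρ => t (sd n) ρ (vx n)) ∈ WW K D t n ∧
      ∀ w ∈ WW K D t n, ∃ P : Finset (Fin R), P.card ≤ K ∧ ∀ ρ ∉ P, DEC_Mean K S D t (sd n) (w ρ) (vx n) := by
    intro n
    induction n with
    | zero =>
      refine ⟨fun ρ => rfl, fun w hw => ⟨∅, by simp, fun ρ _ => ⟨∅, by simp, fun σ _ k => ?_⟩⟩⟩
      have h1 : w ρ = t false ρ 3 := hw ρ
      rw [h1]
      exact T1' false ρ 3 σ k
    | succ n ih =>
      obtain ⟨ih1, ih2⟩ := ih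
      constructor
      · refine ⟨fun ρ σ => ⟨(T1' _ _ _ _ _).2 (F2 (n + 1)).1, fun h => (F2 (n + 1)).2 ((T1' _ _ _ _ _).1 h)⟩, ?_⟩
        intro w hw
        obtain ⟨P, hP, hM⟩ := ih2 w hw
        apply (hCNT K R _ hR).1 P hP
        intro ρ hρ
        obtain ⟨B, hB, hBM⟩ := hM ρ hρ
        apply DEC_card _ B hB
        intro σ hσ
        by_contra hσB
        apply hσ
        have h1 := (hBM σ hσB (vx (n + 1))).2 (F1 n)
        show ad D (sd n) (w ρ) (t (sd (n + 1)) σ (vx (n + 1)))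
        rw [DEC_sd n]
        exact h1
      · intro u hu
        obtain ⟨hu1, hu2⟩ := hu
        have hm : ∀ σ, ∃ m, 3 ≤ m ∧ (m - 3) % 2 = cl (n + 1) ∧ DEC_Mean K S D t (sd (n + 1)) (u σ) m :=
          fun σ => hA (n + 1) (u σ) (hu1 σ)
        choose m hm1 hm2 hm3 using hm
        refine ⟨Finset.univ.filter (fun σ => m σ ≠ vx (n + 1)), ?_, ?_⟩
        · refine (hCNT K R _ hR).2.1 _ ?_ (hu2 _ ih1)
          intro σ hσ
          have hσ' := (Finset.mem_filter.1 hσ).2
          obtain ⟨B, hB, hBM⟩ := hm3 σ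
          apply DEC_card _ B hB
          intro ρ hρ
          by_contra hρB
          apply hσ'
          apply F4 n (m σ) (hm1 σ) (hm2 σ)
          have h1 := (hBM ρ hρB (vx n)).1
          rw [DEC_sd n, DEC_ad, DEC_ad, Bool.not_not] at h1
          exact h1 hρ
        · intro σ hσ
          have h1 : m σ = vx (n + 1) := by
            by_contra h
            exact hσ (Finset.mem_filter.2 ⟨Finset.mem_univ _, h⟩)
          rw [← h1]
          exact hm3 σ
  intro n
  have hs0 : sd (2 * n) = false := by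
    unfold sd
    simp
  obtain ⟨C1, C2⟩ := hB (2 * n)
  constructor
  · intro hbit
    by_contra hS
    have hno : ¬ HS S (vx (2 * n)) 2 := fun h => hS ((F5 n).1 h)
    rw [hs0] at C1
    refine (hCNT K R _ hR).2.2 ?_ (hbit _ C1)
    intro ρ σ h
    exact hno ((T1 _ _ _ _).1 h)
  · intro hS w hw
    obtain ⟨P, hP, hM⟩ := C2 w hw
    apply (hCNT K R _ hR).1 P hP
    intro ρ hρ
    obtain ⟨B, hB, hBM⟩ := hM ρ hρ
    apply DEC_card _ B hB
    intro σ hσ
    by_contra hσB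
    apply hσ
    have h1 := (hBM σ hσB 2).2
    rw [hs0] at h1
    exact h1 ((F5 n).2 hS)

end Pool.Agent.EAE
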