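import Pool.Agent.EAE.StA

/-!
# EAE, EDG: adding edges one at a time
-/

set_option autoImplicit false

namespace Pool.Agent.EAE

open FirstOrder.Language Set
open scoped FirstOrder
open Pool.Agent.AAD (Gam Fx ls St su Ctx)

theorem EDG_gd {G H : ℚ → ℚ → Prop} (h : ∀ i j, G i j → H i j) (hG : Gd G) : Gd H := by
  intro s a b hab
  obtain ⟨i, h1, h2, h3⟩ := hG s a b hab
  refine ⟨i, h1, h2, fun j => ?_⟩
  have h4 := h3 j
  unfold ad at h4 ⊢
  split_ifs at h4 ⊢
  · exact h _ _ h4
  · exact h _ _ h4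

theorem EDG_xg {N : Type} [MulAction Gam N] {π : ℚ → Lam} {G H : ℚ → ℚ → Prop}
    (h : ∀ i j, G i j → H i j) {x : N} (hx : x ∈ (XG π G : Set N)) : x ∈ (XG π H : Set N) :=
  ⟨hx.1, fun i j h1 h2 => h _ _ (hx.2 i j h1 h2)⟩

theorem EDG_fin {N : Type} [MulAction Gam N] (π : ℚ → Lam) {ι : Type} [Finite ι] (W : ι → N)
    (s : Bool) : {i : ℚ | ∃ r, Tch π s (W r) i}.Finite := by
  have h1 : (⋃ r : ι, ((fun a => (ofLex (π a)).2) '' ((su (W r) : Finset ℚ) : Set ℚ))).Finite :=
    Set.finite_iUnion fun r => ((su (W r)).finite_toSet.image _)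
  refine h1.subset ?_
  rintro i ⟨r, a, ha, hai⟩
  refine Set.mem_iUnion.2 ⟨r, a, ha, ?_⟩
  change (ofLex (π a)).2 = i
  rw [hai]
  rfl

theorem thm_EDG (hLCL : St_LCL) : St_EDG := by
  classical
  intro L N _ _ hctx π hπ ι _ φ W G G' hG hGG' hW hn hd
  obtain ⟨E, hE⟩ : ∃ E : Finset (ℚ × ℚ), ∀ p, p ∈ E ↔ (∃ r, Tch π false (W r) p.1) ∧
      (∃ r, Tch π true (W r) p.2) ∧ G' p.1 p.2 := by
    have hf : {p : ℚ × ℚ | (∃ r, Tch π false (W r) p.1) ∧ (∃ r, Tch π true (W r) p.2) ∧
        G' p.1 p.2}.Finite := by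
      refine ((EDG_fin π W false).prod (EDG_fin π W true)).subset ?_
      rintro p ⟨h1, h2, -⟩
      exact ⟨h1, h2⟩
    exact ⟨hf.toFinset, fun p => hf.mem_toFinset⟩
  have key : ∀ E' : Finset (ℚ × ℚ), E' ⊆ E → DD π φ (fun i j => G i j ∨ (i, j) ∈ E') W →
      ∃ (H : ℚ → ℚ → Prop) (c : Bool → ℚ), Gd H ∧ (∀ i j, G i j → H i j) ∧
        (∀ i j, H i j → G' i j) ∧
        ¬ H (c false) (c true) ∧ G' (c false) (c true) ∧ (∀ s, ∃ r, Tch π s (W r) (c s)) ∧
        (∀ r, W r ∈ (XG π H : Set N)) ∧ ¬ DD π φ H W ∧ DD π φ (adE H c) W := by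
    intro E'
    induction E' using Finset.induction with
    | empty =>
      intro _ h
      have e : (fun i j => G i j ∨ (i, j) ∈ (∅ : Finset (ℚ × ℚ))) = G := by
        funext i j
        exact propext ⟨fun h => h.resolve_right (Finset.notMem_empty _), Or.inl⟩
      rw [e] at h
      exact absurd h hn
    | insert p E'' hp ih =>
      intro hsub h
      have hsub' : E'' ⊆ E := (Finset.subset_insert p E'').trans hsub
      by_cases hD : DD π φ (fun i j => G i j ∨ (i, j) ∈ E'') W
      · exact ih hsub' hD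
      obtain ⟨q1, q2, q3⟩ := (hE p).1 (hsub (Finset.mem_insert_self p E''))
      have hmono : ∀ i j, G i j → (fun i j => G i j ∨ (i, j) ∈ E'') i j := fun i j h => Or.inl h
      have e : adE (fun i j => G i j ∨ (i, j) ∈ E'') (fun s => if s then p.2 else p.1) =
          fun i j => G i j ∨ (i, j) ∈ insert p E'' := by
        funext i j
        apply propext
        change ((G i j ∨ (i, j) ∈ E'') ∨ (i = p.1 ∧ j = p.2)) ↔ _
        rw [Finset.mem_insert, Prod.ext_iff]
        tauto
      refine ⟨fun i j => G i j ∨ (i, j) ∈ E'', fun s => if s then p.2 else p.1,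
        EDG_gd hmono hG, hmono, ?_, ?_, q3, ?_, fun r => EDG_xg hmono (hW r), hD, ?_⟩
      · rintro i j (h1 | h1)
        · exact hGG' i j h1
        · exact ((hE (i, j)).1 (hsub' h1)).2.2
      · intro hH
        apply hD
        have e2 : (fun i j => G i j ∨ (i, j) ∈ insert p E'') =
            fun i j => G i j ∨ (i, j) ∈ E'' := by
          funext i j
          apply propext
          rw [Finset.mem_insert]
          constructor
          · rintro (h1 | h1 | h1)
            · exact Or.inl h1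
            · have hH' : G p.1 p.2 ∨ (p.1, p.2) ∈ E'' := hH
              rw [← h1] at hH'
              exact hH'
            · exact Or.inr h1
          · rintro (h1 | h1)
            · exact Or.inl h1
            · exact Or.inr (Or.inr h1)
        rw [e2] at h
        exact h
      · intro s
        cases s
        · exact q1
        · exact q2
      · rw [e]
        exact h
  have hmono : ∀ i j, G i j → (fun i j => G i j ∨ (i, j) ∈ E) i j := fun i j h => Or.inl h
  have hL := (hLCL L N hctx π hπ ι W G' (fun i j => G i j ∨ (i, j) ∈ E) 1 (fun _ i => i)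
    (EDG_gd hmono hG) (fun r a _ c h => h) (fun r a _ s i h => h)
    (fun s r r' i i' _ _ h => h) (fun r r' i j h1 h2 h3 =>
      Or.inr ((hE (i, j)).2 ⟨⟨r, h1⟩, ⟨r', h2⟩, h3⟩))).2 φ hd
  simp only [one_smul] at hL
  exact key E (Finset.Subset.refl E) hL

end Pool.Agent.EAE
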