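import Pool.Agent.EAE.StC

/-!
EAE, module ELB (helper45): elementary submodels.
-/

set_option autoImplicit false
set_option linter.unusedVariables false

namespace Pool.Agent.EAE

open FirstOrder.Language Set
open scoped FirstOrder
open Pool.Agent.AAD (Gam Fx ls St su Ctx)
open Pool.Agent.UNS (su_fix su_min su_act su_eq inv2)

theorem ELB_bb {s s' : Bool} {i i' : ℚ} (h : bk s i = bk s' i') : s = s' ∧ i = i' := by
  have h1 := congrArg (fun x : Lam => (ofLex x).1) h
  have h2 := congrArg (fun x : Lam => (ofLex x).2) h
  refine ⟨?_, h2⟩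
  cases s <;> cases s' <;> first | rfl | (exfalso; revert h1; simp [bk])

theorem ELB_fb {c : Fin 3} {s : Bool} {i : ℚ} (h : fr c = bk s i) : False := by
  have h1 := congrArg (fun x : Lam => (ofLex x).1) h
  revert h1
  fin_cases c <;> cases s <;> simp [bk, fr]

/-- the number of the part -/
theorem ELB_lt {x y : Lam} (h : (ofLex x).1 < (ofLex y).1) : x ≤ y :=
  (Prod.Lex.le_iff.2 (Or.inl h))

theorem ELB_le {x y : Lam} (h : x ≤ y) : (ofLex x).1 ≤ (ofLex y).1 := by
  rcases Prod.Lex.le_iff.1 h with h | h
  · exact h.le
  · exact h.1.le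

/-- [ELB] -/
theorem thm_ELB (hMVP : St_MVP) : St_ELB := by
  classical
  intro L N _ _ hC π hπ x hx α _ φ v hv hz
  obtain ⟨z, hz⟩ := hz
  have := Fintype.ofFinite α
  -- the new parts of the blocks
  let nb : Bool → Lam := fun s => if h : ∃ i, Tch π s x i then bk s h.choose
    else if s then fr 2 else fr 1
  have nb1 : ∀ s i, Tch π s x i → nb s = bk s i := by
    intro s i hi
    have h : ∃ i, Tch π s x i := ⟨i, hi⟩
    show (if h : ∃ i, Tch π s x i then bk s h.choose else if s then fr 2 else fr 1) = bk s i
    rw [dif_pos h, hx s _ _ h.choose_spec hi]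
  have nb2 : ∀ s i, nb s = bk s i → Tch π s x i := by
    intro s i hi
    by_cases h : ∃ i, Tch π s x i
    · obtain ⟨j, hj⟩ := h
      rw [nb1 s j hj] at hi
      rw [← (ELB_bb hi).2]
      exact hj
    · exfalso
      have h1 : nb s = if s then fr 2 else fr 1 := dif_neg h
      rw [h1] at hi
      cases s
      · exact ELB_fb (c := 1) hi
      · exact ELB_fb (c := 2) hi
  have nbr : ∀ s, ∃ p, π p = nb s := by
    intro s
    by_cases h : ∃ i, Tch π s x i
    · obtain ⟨j, hj⟩ := h
      rw [nb1 s j hj]
      exact hπ.neb s j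
    · have h1 : nb s = if s then fr 2 else fr 1 := dif_neg h
      rw [h1]
      cases s
      · exact hπ.nef 1
      · exact hπ.nef 2
  -- `nb false` is in the parts `1, 2`, `nb true` in the parts `3, 4`
  have nbf : (ofLex (nb false)).1 = 1 ∨ (ofLex (nb false)).1 = 2 := by
    by_cases h : ∃ i, Tch π false x i
    · obtain ⟨j, hj⟩ := h
      rw [nb1 false j hj]
      exact Or.inl rfl
    · have h1 : nb false = if false then fr 2 else fr 1 := dif_neg h
      rw [h1]
      exact Or.inr rfl
  have nbt : (ofLex (nb true)).1 = 3 ∨ (ofLex (nb true)).1 = 4 := by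
    by_cases h : ∃ i, Tch π true x i
    · obtain ⟨j, hj⟩ := h
      rw [nb1 true j hj]
      exact Or.inl rfl
    · have h1 : nb true = if true then fr 2 else fr 1 := dif_neg h
      rw [h1]
      exact Or.inr rfl
  let f : ℚ → Lam := fun p => if (ofLex (π p)).1 = 1 then nb false
    else if (ofLex (π p)).1 = 3 then nb true else π p
  have ff : ∀ p c, π p = fr c → f p = fr c := by
    intro p c h
    show (if (ofLex (π p)).1 = 1 then nb false
      else if (ofLex (π p)).1 = 3 then nb true else π p) = fr c
    rw [h]
    fin_cases c <;> rfl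
  have fb : ∀ p s i, π p = bk s i → f p = nb s := by
    intro p s i h
    show (if (ofLex (π p)).1 = 1 then nb false
      else if (ofLex (π p)).1 = 3 then nb true else π p) = nb s
    rw [h]
    cases s <;> rfl
  have nbf' : (∃ j, nb false = bk false j) ∨ nb false = fr 1 := by
    by_cases h : ∃ i, Tch π false x i
    · obtain ⟨j, hj⟩ := h
      exact Or.inl ⟨j, nb1 false j hj⟩
    · exact Or.inr (dif_neg h)
  have nbt' : (∃ j, nb true = bk true j) ∨ nb true = fr 2 := by
    by_cases h : ∃ i, Tch π true x i
    · obtain ⟨j, hj⟩ := h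
      exact Or.inl ⟨j, nb1 true j hj⟩
    · exact Or.inr (dif_neg h)
  have hf : ∀ p q, p ≤ q → f p ≤ f q := by
    intro p q hpq
    have h := hπ.mono hpq
    rcases hπ.cov p with ⟨c, hc⟩ | ⟨s, i, hc⟩ <;> rcases hπ.cov q with ⟨c', hc'⟩ | ⟨s', i', hc'⟩
    · rw [ff p c hc, ff q c' hc', ← hc, ← hc']
      exact h
    · rw [ff p c hc, fb q s' i' hc']
      rw [hc, hc'] at h
      have h1 := ELB_le h
      refine ELB_lt ?_
      cases s'
      · have h2 : (ofLex (fr c)).1 < 1 := by
          revert h1
          fin_cases c <;> simp [fr, bk]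
        rcases nbf with h3 | h3 <;> rw [h3]
        · exact h2
        · exact h2.trans (by decide)
      · have h2 : (ofLex (fr c)).1 < 3 := by
          revert h1
          fin_cases c <;> simp [fr, bk]
        rcases nbt with h3 | h3 <;> rw [h3]
        · exact h2
        · exact h2.trans (by decide)
    · rw [fb p s i hc, ff q c' hc']
      rw [hc, hc'] at h
      have h1 := ELB_le h
      cases s
      · rcases nbf' with ⟨j, hj⟩ | hj
        · rw [hj]
          refine ELB_lt ?_
          revert h1
          fin_cases c' <;> simp [fr, bk]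
        · rw [hj]
          revert h1
          fin_cases c'
          · simp [fr, bk]
          · intro _; exact le_refl _
          · intro _; exact ELB_lt (by simp [fr])
      · rcases nbt' with ⟨j, hj⟩ | hj
        · rw [hj]
          refine ELB_lt ?_
          revert h1
          fin_cases c' <;> simp [fr, bk]
        · rw [hj]
          revert h1
          fin_cases c'
          · simp [fr, bk]
          · simp [fr, bk]
          · intro _; exact le_refl _
    · rw [fb p s i hc, fb q s' i' hc']
      rw [hc, hc'] at h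
      have h1 := ELB_le h
      cases s <;> cases s'
      · exact le_refl _
      · refine ELB_lt ?_
        rcases nbf with h2 | h2 <;> rcases nbt with h3 | h3 <;> rw [h2, h3] <;> decide
      · exfalso
        revert h1
        simp [bk]
      · exact le_refl _
  -- the move
  let F : Finset ℚ := Finset.univ.biUnion fun i => su (v i)
  obtain ⟨h, h1, h2⟩ := hMVP π hπ F (su z) 1 f (fun a _ b _ hab => hf a b hab) (by
    intro a ha
    obtain ⟨i, -, ha⟩ := Finset.mem_biUnion.1 ha
    show f a = π a
    rcases hπ.cov a with ⟨c, hc⟩ | ⟨s, j, hc⟩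
    · rw [ff a c hc, hc]
    · rw [fb a s j hc, hc]
      exact nb1 s j (hv i s j ⟨a, ha, hc⟩)) (by
    intro a _
    rcases hπ.cov a with ⟨c, hc⟩ | ⟨s, j, hc⟩
    · rw [ff a c hc]
      exact ⟨a, hc⟩
    · rw [fb a s j hc]
      exact nbr s)
  refine ⟨h • z, ?_, ?_⟩
  · rintro s i ⟨a, ha, hai⟩
    rw [su_act hC] at ha
    obtain ⟨b, hb, rfl⟩ := Finset.mem_image.1 ha
    have h3 := h2 b hb
    rw [hai] at h3
    rcases hπ.cov b with ⟨c, hc⟩ | ⟨s', j, hc⟩
    · rw [ff b c hc] at h3
      exact (ELB_fb h3.symm).elim
    · rw [fb b s' j hc] at h3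
      have hs : s = s' := by
        rcases Bool.eq_false_or_eq_true s' with hs' | hs'
        · subst hs'
          rcases nbt' with ⟨j', hj'⟩ | hj'
          · rw [hj'] at h3
            exact (ELB_bb h3).1
          · rw [hj'] at h3
            exact (ELB_fb h3.symm).elim
        · subst hs'
          rcases nbf' with ⟨j', hj'⟩ | hj'
          · rw [hj'] at h3
            exact (ELB_bb h3).1
          · rw [hj'] at h3
            exact (ELB_fb h3.symm).elim
      subst hs
      exact nb2 s i h3.symm
  · have h3 := (inv2 hC φ h v (fun _ => z)).2 hz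
    have h4 : (fun i => h • v i) = v := by
      funext i
      refine su_fix hC fun a ha => ?_
      exact h1 a (Finset.mem_biUnion.2 ⟨i, Finset.mem_univ _, ha⟩)
    rw [h4] at h3
    exact h3

end Pool.Agent.EAE
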