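import Pool.Agent.EAE.StA

/-!
# EAE, FAI (helper23)
-/

set_option autoImplicit false
set_option linter.unusedVariables false

namespace Pool.Agent.EAE

open FirstOrder.Language Set
open scoped FirstOrder
open Pool.Agent.AAD (Gam Fx ls St su Ctx)

theorem thm_FAI (hXFR : St_XFR) (hVPC : St_VPC) (hGCO : St_GCO) (hVIP : St_VIP) (hAIF : St_AIF) : St_FAI := by
  intro L N _ _ hf hC π hπ ⟨z, hz⟩
  by_contra hcon
  have hA : ∀ (ι : Type) [Finite ι] (χ : L.Formula (ι ⊕ Unit)), Abs hf N π χ → ∀ G, Gd G → ∀ w : ι → N,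
      (∀ i, w i ∈ (XG π G : Set N)) → (∃ z : N, χ.Realize (Sum.elim w fun _ => z)) → DD π χ G w := by
    intro ι _ χ hχ G hG w hw hz1
    by_contra hD
    exact hcon ⟨ι, inferInstance, χ, G, w, hχ, hG, hw, hz1, hD⟩
  obtain ⟨α, β, _, _, φ, ψ, d, e, l, r, l', r', h, h', hVP⟩ := hVIP L N hC z hz
  obtain ⟨W, w1, w2, w3, w4⟩ := hVPC L N hC π hπ α β φ ψ d e z l r l' r' h h' hVP (fun _ => 0)
  obtain ⟨G, g1, g2, g3, g4, g5⟩ := hGCO L N π _ (xf φ ψ) W w1 w2 w3 w4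
  obtain ⟨z', hz', -⟩ := w4
  exact g4 (hA _ (xf φ ψ) (hAIF L N hf π hA _ (xf φ ψ)) G g1 W g3 ⟨z', hz'⟩)

end Pool.Agent.EAE
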