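import Pool.Agent.EAE.StC

/-!
EAE/FMB (helper96): the formulas for the bits.
-/

set_option autoImplicit false
set_option linter.unusedVariables false

namespace Pool.Agent.EAE

open FirstOrder.Language Set
open scoped FirstOrder
open Pool.Agent.AAD (Gam Fx ls St su Ctx UD)

section

variable {L : FirstOrder.Language.{0, 0}} {N : Type} [L.Structure N] [MulAction Gam N]

open Classical in
/-- the word with entries from three words -/
private noncomputable def FMB_w {X ι : Type} (π : ℚ → Lam) (W : ι → N) (c : Bool → ℚ)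
    (w u y : ι → X) : ι → X := fun i =>
  if Tch π false (W i) (c false) then w i else if Tch π true (W i) (c true) then u i else y i

/-- the relation `D` with the third word as a parameter -/
private noncomputable def FMB_Q (hf : ∀ n, IsEmpty (L.Functions n)) (π : ℚ → Lam) {ι : Type}
    (φ : L.Formula (ι ⊕ Unit)) (W : ι → N) (c : Bool → ℚ) (G : ℚ → ℚ → Prop)
    (w u y : ι → (XG π G : Set N)) : Prop :=
  ∃ z : (XG π G : Set N), Rz hf (XG π G) φ (Sum.elim (FMB_w π W c w u y) fun _ => z)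

open Classical in
private theorem FMB_ud (hf : ∀ n, IsEmpty (L.Functions n)) (π : ℚ → Lam) {ι : Type}
    (φ : L.Formula (ι ⊕ Unit)) (W : ι → N) (c : Bool → ℚ) :
    UD L (J := {G : ℚ → ℚ → Prop // Gd G}) (fun j => (XG π j.1 : Set N))
      (fun j => rs hf (XG π j.1)) ((ι ⊕ ι) ⊕ ι) (fun j x =>
        FMB_Q hf π φ W c j.1 (fun i => x (Sum.inl (Sum.inl i))) (fun i => x (Sum.inl (Sum.inr i)))
          fun i => x (Sum.inr i)) := by
  refine AAD.UD_ex1 (J := {G : ℚ → ℚ → Prop // Gd G}) (X := fun j => (XG π j.1 : Set N))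
    (Q := fun (j : {G : ℚ → ℚ → Prop // Gd G}) (x : (ι ⊕ ι) ⊕ ι → (XG π j.1 : Set N))
      (z : (XG π j.1 : Set N)) => Rz hf (XG π j.1) φ
    (Sum.elim (FMB_w π W c (fun i => x (Sum.inl (Sum.inl i))) (fun i => x (Sum.inl (Sum.inr i)))
      fun i => x (Sum.inr i)) fun _ => z)) ?_
  have h0 : UD L (J := {G : ℚ → ℚ → Prop // Gd G}) (fun j => (XG π j.1 : Set N))
      (fun j => rs hf (XG π j.1)) (ι ⊕ Unit) (fun j x => Rz hf (XG π j.1) φ x) :=
    ⟨φ, fun j v => Iff.rfl⟩
  set f : ι ⊕ Unit → ((ι ⊕ ι) ⊕ ι) ⊕ Unit := Sum.elim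
    (fun i => Sum.inl (if Tch π false (W i) (c false) then Sum.inl (Sum.inl i)
      else if Tch π true (W i) (c true) then Sum.inl (Sum.inr i) else Sum.inr i))
    (fun _ => Sum.inr ()) with hfd
  refine AAD.UD_congr (AAD.UD_sub h0 f) fun j v => ?_
  have h1 : (fun i => v (f i)) = Sum.elim (FMB_w π W c (fun i => v (Sum.inl (Sum.inl (Sum.inl i))))
      (fun i => v (Sum.inl (Sum.inl (Sum.inr i)))) fun i => v (Sum.inl (Sum.inr i)))
      fun _ => v (Sum.inr ()) := by
    funext i
    rcases i with i | i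
    · simp only [hfd, Sum.elim_inl, FMB_w]
      split_ifs <;> rfl
    · rfl
  show Rz hf (XG π j.1) φ (fun i => v (f i)) ↔ _
  rw [h1]

open Classical in
private theorem FMB_D (hf : ∀ n, IsEmpty (L.Functions n)) (π : ℚ → Lam) {ι : Type}
    (φ : L.Formula (ι ⊕ Unit)) (W : ι → N) (c : Bool → ℚ) (G : ℚ → ℚ → Prop) (hG : Gd G)
    (hab : Abs hf N π φ) (w u y : ι → (XG π G : Set N))
    (hy : ∀ i, (∀ s, ¬ Tch π s (W i) (c s)) → (y i).1 = W i) :
    FMB_Q hf π φ W c G w u y ↔ Dw π φ W c G w u := by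
  have key : ∀ z : (XG π G : Set N),
      (fun i : ι ⊕ Unit => (Sum.elim (FMB_w π W c w u y) (fun _ : Unit => z) i).1) =
        Sum.elim (mg π W c (pr false (fun i => (w i).1) fun i => (u i).1))
          (fun _ : Unit => z.1) := by
    intro z
    funext i
    rcases i with i | i
    · simp only [Sum.elim_inl, FMB_w, mg]
      by_cases h1 : Tch π false (W i) (c false)
      · rw [if_pos h1, if_pos h1]
        rfl
      · rw [if_neg h1, if_neg h1]
        by_cases h2 : Tch π true (W i) (c true)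
        · rw [if_pos h2, if_pos h2]
          rfl
        · rw [if_neg h2, if_neg h2]
          refine hy i fun s => ?_
          cases s
          · exact h1
          · exact h2
    · rfl
  unfold FMB_Q Dw DD
  constructor
  · rintro ⟨z, hz⟩
    rw [hab G hG, key z] at hz
    exact ⟨z.1, z.2, hz⟩
  · rintro ⟨z, hz1, hz⟩
    refine ⟨⟨z, hz1⟩, ?_⟩
    rw [hab G hG, key ⟨z, hz1⟩]
    exact hz

end

/-- **FMB** -/
theorem thm_FMB (hUDE : St_UDE) (hWWC : St_WWC) (hTWT : St_TWT) : St_FMB := by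
  intro L N _ _ hf π ι φ G₀ W c a b l r g R v hS K
  have := hS.fin
  choose θ hθ using hUDE L {G : ℚ → ℚ → Prop // Gd G} (fun j => (XG π j.1 : Set N))
    (fun j => rs hf (XG π j.1)) ι (fun j => FMB_Q hf π φ W c j.1) K R (FMB_ud hf π φ W c)
  refine ⟨θ, fun G hG hW x₀ n => ?_⟩
  refine (hθ n ⟨G, hG⟩ (pt W g v G x₀)).trans ?_
  have hD : (fun w u => FMB_Q hf π φ W c G w u fun i => pt W g v G x₀ (Sum.inr i)) =
      Dw π φ W c G := by
    funext w u
    refine propext (FMB_D hf π φ W c G hG hS.mc.cr.ab w u _ fun i hi => ?_)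
    show (pt W g v G x₀ (Sum.inr i)).1 = W i
    have h1 : pt W g v G x₀ (Sum.inr i) = ⟨W i, hW i hi⟩ := by
      unfold pt
      exact dif_pos (hW i hi)
    rw [h1]
  show Bit K (fun w u => FMB_Q hf π φ W c G w u fun i => pt W g v G x₀ (Sum.inr i)) _ n ↔ _
  rw [hD]
  refine hWWC _ K R (Dw π φ W c G) _ _ (fun s ρ m hm => ?_) n
  funext i
  show tt W g v G x₀ s ρ (m % 4) i = tt W g v G x₀ s ρ m i
  rw [Nat.mod_eq_of_lt hm]

end Pool.Agent.EAE
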