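import Pool.Agent.EAE.StA

/-!
# EAE, GCO (helper23)
-/

set_option autoImplicit false
set_option linter.unusedVariables false

namespace Pool.Agent.EAE

open FirstOrder.Language Set
open scoped FirstOrder
open Pool.Agent.AAD (Gam Fx ls St su Ctx)

theorem thm_GCO : St_GCO := by
  intro L N _ _ π ι χ W h1 h2 h3 h4
  refine ⟨fun i j => ¬ (i = 0 ∧ j = 0), ?_, fun h => h ⟨rfl, rfl⟩, ?_, ?_, ?_⟩
  · intro s a b hab
    obtain ⟨i, hi1, hi2, hi0⟩ : ∃ i : ℚ, a < i ∧ i < b ∧ i ≠ 0 := by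
      obtain ⟨m, hm1, hm2⟩ := exists_between hab
      by_cases hm : m = 0
      · obtain ⟨k, hk1, hk2⟩ := exists_between hm1
        exact ⟨k, hk1, hk2.trans hm2, fun h => absurd (hm ▸ h ▸ hk2) (lt_irrefl _)⟩
      · exact ⟨m, hm1, hm2, hm⟩
    refine ⟨i, hi1, hi2, fun j => ?_⟩
    cases s
    · exact fun h => hi0 h.1
    · exact fun h => hi0 h.2
  · intro i
    refine ⟨fun s j j' hj hj' => (h1 i s j hj).trans (h1 i s j' hj').symm, ?_⟩
    rintro a b ha hb ⟨rfl, rfl⟩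
    exact h2 i ⟨ha, hb⟩
  · rintro ⟨z, hz, hr⟩
    exact hz.2 0 0 (h3 z hr false) (h3 z hr true) ⟨rfl, rfl⟩
  · obtain ⟨z, hz, hz2⟩ := h4
    refine ⟨z, ⟨fun s i i' hi hi' => (hz2 s i hi).trans (hz2 s i' hi').symm, fun i j hi hj => ?_⟩, hz⟩
    by_cases h : i = 0 ∧ j = 0
    · exact Or.inr h
    · exact Or.inl h

end Pool.Agent.EAE
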