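import Pool.Agent.EAE.StB

/-!
# EAE, [GEX]: the graph (helper21)
-/

set_option autoImplicit false

namespace Pool.Agent.EAE

private theorem GEX_inj {a b : ℚ} {R : ℕ} {v : Fin R → ℕ → ℚ} (h : Vt a b v) {ρ ρ' : Fin R}
    {m m' : ℕ} (he : v ρ m = v ρ' m') : m = m' := by
  rcases lt_trichotomy ρ ρ' with h1 | h1 | h1
  · exact absurd he (h.zo _ _ _ _ h1).ne
  · subst h1
    rcases lt_trichotomy m m' with h2 | h2 | h2
    · exact absurd he (h.mo _ _ _ h2).ne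
    · exact h2
    · exact absurd he (h.mo _ _ _ h2).ne'
  · exact absurd he (h.zo _ _ _ _ h1).ne'

/-- [GEX] the graph -/
theorem thm_GEX (hNWD : St_NWD) : St_GEX := by
  intro G₀ c a b T R v hV hT hT2 H
  obtain ⟨Vx, hVx⟩ : ∃ Vx : Bool → ℚ → Prop, ∀ s i, Vx s i ↔ ∃ ρ m, i = v s ρ m :=
    ⟨fun s i => ∃ ρ m, i = v s ρ m, fun s i => Iff.rfl⟩
  obtain ⟨nm, hnm⟩ : ∃ nm : Bool → ℚ → Prop, ∀ s i, nm s i ↔ T s i ∧ i ≠ c s :=
    ⟨fun s i => T s i ∧ i ≠ c s, fun s i => Iff.rfl⟩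
  have hdis : ∀ s i, Vx s i → nm s i → False := by
    intro s i h1 h2
    obtain ⟨ρ, m, rfl⟩ := (hVx s i).1 h1
    obtain ⟨h3, h4⟩ := (hnm s _).1 h2
    have h5 := (hV s).rg ρ m
    rcases hT2 s _ h3 h4 with h | h
    · exact absurd h5.1 (not_lt.2 h.le)
    · exact absurd h5.2 (not_lt.2 h.le)
  have hvx : ∀ s ρ m, Vx s (v s ρ m) := fun s ρ m => (hVx s _).2 ⟨ρ, m, rfl⟩
  obtain ⟨G, hG⟩ : ∃ G : ℚ → ℚ → Prop, ∀ i j, G i j ↔
      (¬ (Vx false i ∨ nm false i) ∨ ¬ (Vx true j ∨ nm true j) ∨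
      (∃ ρ m ρ' m', i = v false ρ m ∧ j = v true ρ' m' ∧ H m m') ∨
      (Vx false i ∧ nm true j ∧ G₀ (c false) j) ∨ (nm false i ∧ Vx true j ∧ G₀ i (c true)) ∨
      (nm false i ∧ nm true j ∧ G₀ i j)) := ⟨_, fun i j => Iff.rfl⟩
  refine ⟨G, ?_, ?_, ?_, ?_, ?_⟩
  · intro s p q hpq
    obtain ⟨i, h1, h2, h3, h4⟩ := hNWD (a s) (b s) R (v s) (hV s) {μ | T s μ} (hT s) p q hpq
    refine ⟨i, h1, h2, fun j => ?_⟩
    have h5 : ¬ (Vx s i ∨ nm s i) := by
      rintro (h | h)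
      · obtain ⟨ρ, m, hi⟩ := (hVx s i).1 h
        exact h4 ρ m hi
      · exact h3 ((hnm s i).1 h).1
    cases s with
    | false => exact (hG i j).2 (Or.inl h5)
    | true => exact (hG j i).2 (Or.inr (Or.inl h5))
  · intro ρ m ρ' m'
    rw [hG]
    constructor
    · rintro (h | h | ⟨ρ₁, m₁, ρ₂, m₂, h1, h2, h3⟩ | ⟨-, h, -⟩ | ⟨h, -, -⟩ | ⟨h, -, -⟩)
      · exact absurd (Or.inl (hvx false ρ m)) h
      · exact absurd (Or.inl (hvx true ρ' m')) h
      · rw [GEX_inj (hV false) h1, GEX_inj (hV true) h2]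
        exact h3
      · exact (hdis true _ (hvx true ρ' m') h).elim
      · exact (hdis false _ (hvx false ρ m) h).elim
      · exact (hdis false _ (hvx false ρ m) h).elim
    · intro h
      exact Or.inr (Or.inr (Or.inl ⟨ρ, m, ρ', m', rfl, rfl, h⟩))
  · intro s ρ m μ h1 h2
    have hn : nm (!s) μ := (hnm _ _).2 ⟨h1, h2⟩
    cases s with
    | false =>
      change G (v false ρ m) μ ↔ G₀ (c false) μ
      change nm true μ at hn
      rw [hG]
      constructor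
      · rintro (h | h | ⟨ρ₁, m₁, ρ₂, m₂, h1, h2, h3⟩ | ⟨-, -, h⟩ | ⟨h, -, -⟩ | ⟨h, -, -⟩)
        · exact absurd (Or.inl (hvx false ρ m)) h
        · exact absurd (Or.inr hn) h
        · exact (hdis true _ ((hVx _ _).2 ⟨ρ₂, m₂, h2⟩) hn).elim
        · exact h
        · exact (hdis false _ (hvx false ρ m) h).elim
        · exact (hdis false _ (hvx false ρ m) h).elim
      · intro h
        exact Or.inr (Or.inr (Or.inr (Or.inl ⟨hvx false ρ m, hn, h⟩)))
    | true =>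
      change G μ (v true ρ m) ↔ G₀ μ (c true)
      change nm false μ at hn
      rw [hG]
      constructor
      · rintro (h | h | ⟨ρ₁, m₁, ρ₂, m₂, h1, h2, h3⟩ | ⟨h, -, -⟩ | ⟨-, -, h⟩ | ⟨-, h, -⟩)
        · exact absurd (Or.inr hn) h
        · exact absurd (Or.inl (hvx true ρ m)) h
        · exact (hdis false _ ((hVx _ _).2 ⟨ρ₁, m₁, h1⟩) hn).elim
        · exact (hdis false _ h hn).elim
        · exact h
        · exact (hdis true _ (hvx true ρ m) h).elim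
      · intro h
        exact Or.inr (Or.inr (Or.inr (Or.inr (Or.inl ⟨hn, hvx true ρ m, h⟩))))
  · intro μ μ' h1 h2 h3 h4
    have hn : nm false μ := (hnm _ _).2 ⟨h1, h3⟩
    have hn' : nm true μ' := (hnm _ _).2 ⟨h2, h4⟩
    rw [hG]
    constructor
    · rintro (h | h | ⟨ρ₁, m₁, ρ₂, m₂, h1, h2, h3⟩ | ⟨h, -, -⟩ | ⟨-, h, -⟩ | ⟨-, -, h⟩)
      · exact absurd (Or.inr hn) h
      · exact absurd (Or.inr hn') h
      · exact (hdis false _ ((hVx _ _).2 ⟨ρ₁, m₁, h1⟩) hn).elim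
      · exact (hdis false _ h hn).elim
      · exact (hdis true _ h hn').elim
      · exact h
    · intro h
      exact Or.inr (Or.inr (Or.inr (Or.inr (Or.inr ⟨hn, hn', h⟩))))
  · intro s i j h
    have h1 : Vx s i ∨ nm s i := by
      by_contra hc
      apply h
      cases s with
      | false => exact (hG i j).2 (Or.inl hc)
      | true => exact (hG j i).2 (Or.inr (Or.inl hc))
    rcases h1 with h1 | h1
    · exact Or.inr ((hVx s i).1 h1)
    · exact Or.inl ((hnm s i).1 h1)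

end Pool.Agent.EAE
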