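import Pool.Agent.EAE.StB

/-!
EAE/HSF (helper96): the graph for a set of bits.
-/

set_option autoImplicit false
set_option linter.unusedVariables false

namespace Pool.Agent.EAE

private theorem HSF_f (G : ℕ → ℕ → Prop) (i j : ℕ) : ad G false i j ↔ G i j := by
  unfold ad
  simp

private theorem HSF_t (G : ℕ → ℕ → Prop) (i j : ℕ) : ad G true i j ↔ G j i := by
  unfold ad
  simp

private theorem HSF_e (t : ℕ) : sd (2 * t) = false ∧ vx (2 * t) = t + 3 ∧ cl (2 * t) = t % 2 ∧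
    sd (2 * t + 1) = true ∧ vx (2 * t + 1) = t + 3 ∧ cl (2 * t + 1) = t % 2 ∧
    vx (2 * t + 1 + 1) = t + 4 ∧ cl (2 * t + 1 + 1) = (t + 1) % 2 := by
  unfold sd vx cl
  refine ⟨?_, ?_, ?_, ?_, ?_, ?_, ?_, ?_⟩
  · rw [decide_eq_false_iff_not]
    omega
  · omega
  · omega
  · rw [decide_eq_true_iff]
    omega
  · omega
  · omega
  · omega
  · omega

/-- the rows of a flag on side `true` -/
private theorem HSF_1 (S : ℕ → Prop) (m k : ℕ) (hk : k ≤ 1) :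
    HS S m k ↔ 3 ≤ m ∧ (m - 3) % 2 = k := by
  unfold HS
  constructor
  · rintro (⟨_, h, _⟩ | ⟨h1, _, h2⟩ | ⟨_, h, _⟩ | ⟨_, h, _⟩)
    · omega
    · exact ⟨h1, h2⟩
    · omega
    · omega
  · rintro ⟨h1, h2⟩
    exact Or.inr (Or.inl ⟨h1, hk, h2⟩)

/-- the rows of a flag on side `false` -/
private theorem HSF_2 (S : ℕ → Prop) (m k : ℕ) (hk : k ≤ 1) :
    HS S k m ↔ 3 ≤ m ∧ (m - 3) % 2 = k := by
  unfold HS
  constructor
  · rintro (⟨h, _, _⟩ | ⟨h, _, _⟩ | ⟨h, _, _⟩ | ⟨_, h1, h2⟩)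
    · omega
    · omega
    · omega
    · exact ⟨h1, h2⟩
  · rintro ⟨h1, h2⟩
    exact Or.inr (Or.inr (Or.inr ⟨hk, h1, h2⟩))

/-- the path -/
private theorem HSF_3 (S : ℕ → Prop) (m k : ℕ) (hm : 3 ≤ m) (hk : 3 ≤ k) :
    HS S m k ↔ k = m ∨ m = k + 1 := by
  unfold HS
  constructor
  · rintro (⟨_, _, h⟩ | ⟨_, h, _⟩ | ⟨_, h, _⟩ | ⟨h, _, _⟩)
    · exact h
    · omega
    · omega
    · omega
  · intro h
    exact Or.inl ⟨hm, hk, h⟩

/-- **HSF** -/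
theorem thm_HSF : St_HSF := by
  intro S
  refine ⟨fun n => ?_, fun n => ?_, fun s m k hk h1 _ => ?_, fun n m hm hc h => ?_, fun t => ?_⟩
  · rcases Nat.even_or_odd' n with ⟨t, rfl | rfl⟩
    · obtain ⟨e1, e2, e3, e4, e5, e6, e7, e8⟩ := HSF_e t
      rw [e1, e2, e5, HSF_f, HSF_3 S _ _ (by omega) (by omega)]
      exact Or.inl rfl
    · obtain ⟨e1, e2, e3, e4, e5, e6, e7, e8⟩ := HSF_e t
      rw [e4, e5, e7, HSF_t, HSF_3 S _ _ (by omega) (by omega)]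
      exact Or.inr rfl
  · rcases Nat.even_or_odd' n with ⟨t, rfl | rfl⟩
    · obtain ⟨e1, e2, e3, e4, e5, e6, e7, e8⟩ := HSF_e t
      rw [e1, e2, e3, HSF_f, HSF_f, HSF_1 S _ _ (by omega), HSF_1 S _ _ (by omega)]
      omega
    · obtain ⟨e1, e2, e3, e4, e5, e6, e7, e8⟩ := HSF_e t
      rw [e4, e5, e6, HSF_t, HSF_t, HSF_2 S _ _ (by omega), HSF_2 S _ _ (by omega)]
      omega
  · cases s
    · rwa [HSF_f, HSF_1 S _ _ hk] at h1
    · rwa [HSF_t, HSF_2 S _ _ hk] at h1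
  · rcases Nat.even_or_odd' n with ⟨t, rfl | rfl⟩
    · obtain ⟨e1, e2, e3, e4, e5, e6, e7, e8⟩ := HSF_e t
      rw [e1, e2, HSF_f, HSF_3 S _ _ (by omega) hm] at h
      rw [e6] at hc
      rw [e5]
      omega
    · obtain ⟨e1, e2, e3, e4, e5, e6, e7, e8⟩ := HSF_e t
      rw [e4, e5, HSF_t, HSF_3 S _ _ hm (by omega)] at h
      rw [e8] at hc
      rw [e7]
      omega
  · obtain ⟨e1, e2, e3, e4, e5, e6, e7, e8⟩ := HSF_e t
    rw [e2]
    unfold HS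
    constructor
    · rintro (⟨_, h, _⟩ | ⟨_, h, _⟩ | ⟨_, _, h⟩ | ⟨_, h, _⟩)
      · omega
      · omega
      · rwa [Nat.add_sub_cancel] at h
      · omega
    · intro h
      refine Or.inr (Or.inr (Or.inl ⟨by omega, rfl, ?_⟩))
      rwa [Nat.add_sub_cancel]

end Pool.Agent.EAE
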