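import Pool.Agent.EAE.StC

/-!
# EAE / INF: `X_G` is infinite
-/

set_option autoImplicit false
set_option linter.unusedVariables false

namespace Pool.Agent.EAE

open FirstOrder.Language Set
open scoped FirstOrder
open Pool.Agent.AAD (Gam Fx ls St su Ctx UD)

/-- an elementary subset of an infinite structure is infinite -/
private lemma INF_elm {L : FirstOrder.Language.{0, 0}} {N : Type} [L.Structure N] [Infinite N]
    {B : Set N} (hB : Elm L B) : B.Infinite := by
  intro hfin
  have : Finite B := hfin
  obtain ⟨z, hz⟩ := hfin.exists_notMem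
  obtain ⟨y, hy, hr⟩ := hB B (Formula.iInf fun a : B =>
    (((Term.var (Sum.inr ()) : L.Term (B ⊕ Unit)).equal (Term.var (Sum.inl a))).not : L.Formula (B ⊕ Unit)))
    (fun a => a.1) (fun a => a.2) ⟨z, by
      rw [Formula.realize_iInf]
      intro a
      rw [Formula.realize_not, Formula.realize_equal]
      simp only [Term.realize_var, Sum.elim_inr, Sum.elim_inl]
      rintro rfl
      exact hz a.2⟩
  rw [Formula.realize_iInf] at hr
  have h1 := hr ⟨y, hy⟩
  rw [Formula.realize_not, Formula.realize_equal] at h1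
  simp at h1

theorem thm_INF (hX0E : St_X0E) (hELB : St_ELB) : St_INF := by
  intro L N _ _ _ hC π hπ G
  obtain ⟨x₀, hx₀⟩ := hX0E L N hC π hπ
  have h1 := INF_elm (hELB L N hC π hπ x₀ fun s i i' hi => absurd hi (hx₀ s i))
  have h2 : {z : N | ∀ s i, Tch π s z i → Tch π s x₀ i} ⊆ XG π G := by
    intro z hz
    refine ⟨fun s i i' hi => absurd (hz s i hi) (hx₀ s i), fun i j hi => absurd (hz _ _ hi) (hx₀ _ _)⟩
  exact (h1.mono h2).to_subtype

end Pool.Agent.EAE
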