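import Pool.Agent.EAE.StA
import Pool.Agent.UNS.Base

/-!
# EAE / LCL: locality: `D (W)` depends only on the graph induced on the blocks touched by `W`
-/

set_option autoImplicit false
set_option linter.unusedVariables false

namespace Pool.Agent.EAE

open FirstOrder.Language Set
open scoped FirstOrder
open Pool.Agent.AAD (Gam Fx ls St su Ctx)

/-- label of side `s` -/
private def LCL_c (s : Bool) : Fin 5 := if s then 3 else 1

private lemma LCL_bk (s : Bool) (i : ℚ) : bk s i = toLex (LCL_c s, i) := rfl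

private lemma LCL_bk_inj {s s' : Bool} {i i' : ℚ} (h : bk s i = bk s' i') : s = s' ∧ i = i' := by
  have h1 := congrArg ofLex h
  simp only [bk, ofLex_toLex, Prod.mk.injEq] at h1
  refine ⟨?_, h1.2⟩
  cases s <;> cases s' <;> simp at h1 ⊢

private lemma LCL_fr_ne (c : Fin 3) (s : Bool) (i : ℚ) : fr c ≠ bk s i := by
  intro h
  have h1 := congrArg ofLex h
  simp only [bk, fr, ofLex_toLex, Prod.mk.injEq] at h1
  cases s
  · have h2 : 2 * c.1 = 1 := congrArg Fin.val h1.1
    omega
  · have h2 : 2 * c.1 = 3 := congrArg Fin.val h1.1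
    omega

/-- the map of the labels -/
private def LCL_m (t : Bool → ℚ → ℚ) (l : Lam) : Lam :=
  toLex ((ofLex l).1, if (ofLex l).1 = 1 then t false (ofLex l).2 else
    if (ofLex l).1 = 3 then t true (ofLex l).2 else (ofLex l).2)

private lemma LCL_m_bk (t : Bool → ℚ → ℚ) (s : Bool) (i : ℚ) : LCL_m t (bk s i) = bk s (t s i) := by
  cases s <;> simp [LCL_m, bk]

private lemma LCL_m_fr (t : Bool → ℚ → ℚ) (c : Fin 3) : LCL_m t (fr c) = fr c := by
  have h1 : (⟨2 * c.1, by omega⟩ : Fin 5) ≠ 1 := by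
    intro h
    have h5 : 2 * c.1 = 1 := congrArg Fin.val h
    omega
  have h2 : (⟨2 * c.1, by omega⟩ : Fin 5) ≠ 3 := by
    intro h
    have h5 : 2 * c.1 = 3 := congrArg Fin.val h
    omega
  simp only [LCL_m, fr, ofLex_toLex, h1, h2, if_false]

/-- the map of the labels is monotone where `t` is -/
private lemma LCL_m_mono (t : Bool → ℚ → ℚ) {l l' : Lam} (h : l ≤ l')
    (ht : ∀ s i i', l = bk s i → l' = bk s i' → i < i' → t s i ≤ t s i') :
    LCL_m t l ≤ LCL_m t l' := by
  rw [Prod.Lex.le_iff] at h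
  rcases h with h | ⟨h1, h2⟩
  · rw [Prod.Lex.le_iff]
    left
    exact h
  · rcases h2.eq_or_lt with h3 | h3
    · have : l = l' := by
        apply ofLex.injective
        exact Prod.ext h1 h3
      rw [this]
    · rw [Prod.Lex.le_iff]
      right
      refine ⟨h1, ?_⟩
      simp only [LCL_m, ofLex_toLex]
      rw [← h1]
      by_cases c1 : (ofLex l).1 = 1
      · rw [if_pos c1, if_pos c1]
        refine ht false _ _ ?_ ?_ h3
        · apply ofLex.injective
          exact Prod.ext c1 rfl
        · apply ofLex.injective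
          exact Prod.ext (h1.symm.trans c1) rfl
      · rw [if_neg c1, if_neg c1]
        by_cases c3 : (ofLex l).1 = 3
        · rw [if_pos c3, if_pos c3]
          refine ht true _ _ ?_ ?_ h3
          · apply ofLex.injective
            exact Prod.ext c3 rfl
          · apply ofLex.injective
            exact Prod.ext (h1.symm.trans c3) rfl
        · rw [if_neg c3, if_neg c3]
          exact h3.le

/-- a filler between two finite sets -/
private lemma LCL_fill {G : ℚ → ℚ → Prop} (hG : Gd G) (s : Bool) (lo hi : Finset ℚ)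
    (h : ∀ x ∈ lo, ∀ y ∈ hi, x < y) :
    ∃ k, (∀ x ∈ lo, x < k) ∧ (∀ y ∈ hi, k < y) ∧ ∀ j, ad G s k j := by
  obtain ⟨m, hm1, hm2⟩ := Order.exists_between_finsets lo hi h
  obtain ⟨m', hm1', hm2'⟩ := Order.exists_between_finsets (insert m lo) hi (by
    intro x hx y hy
    rcases Finset.mem_insert.1 hx with rfl | hx
    · exact hm2 y hy
    · exact h x hx y hy)
  obtain ⟨k, hk1, hk2, hk3⟩ := hG s m m' (hm1' m (Finset.mem_insert_self _ _))
  exact ⟨k, fun x hx => (hm1 x hx).trans hk1, fun y hy => hk2.trans (hm2' y hy), hk3⟩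

theorem thm_LCL (hMVP : St_MVP) : St_LCL := by
  classical
  intro L N _ _ hC π hπ ι _ W G G' g σ hG' h1 h2 h3 h4
  have := Fintype.ofFinite ι
  have main : ∀ z ∈ (XG π G : Set N), ∃ h : Gam, (∀ r, h • W r = g • W r) ∧
      h • z ∈ (XG π G' : Set N) := by
    intro z hz
    obtain ⟨hz1, hz2⟩ := hz
    set F : Finset ℚ := Finset.univ.biUnion fun r => su (W r) with hF
    have hFm : ∀ a, a ∈ F ↔ ∃ r, a ∈ su (W r) := by
      intro a
      simp [hF]
    -- the blocks touched by `W`
    set T : Bool → ℚ → Prop := fun s i => ∃ r, Tch π s (W r) i with hT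
    have hTfin : ∀ s, {i | T s i}.Finite := by
      intro s
      have e1 : ((F : Set ℚ).image π).Finite := F.finite_toSet.image π
      refine (e1.preimage (f := bk s) fun i _ i' _ h => (LCL_bk_inj h).2).subset ?_
      rintro i ⟨r, a, ha, hai⟩
      exact ⟨a, (hFm a).2 ⟨r, ha⟩, hai⟩
    -- the target blocks
    have hk : ∀ s, ∃ k : ℚ, ∀ i, Tch π s z i → (T s i → k = σ s i) ∧
        (∀ i', T s i' → i' < i → σ s i' < k) ∧ (∀ i', T s i' → i < i' → k < σ s i') ∧
        (¬ T s i → ∀ j, ad G' s k j) := by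
      intro s
      by_cases hi : ∃ i, Tch π s z i
      · obtain ⟨i, hi⟩ := hi
        by_cases hTi : T s i
        · refine ⟨σ s i, fun i' hi' => ?_⟩
          rw [hz1 s i' i hi' hi]
          obtain ⟨r, hr⟩ := hTi
          exact ⟨fun _ => rfl, fun i' ⟨r', hr'⟩ hlt => h3 s r' r i' i hr' hr hlt,
            fun i' ⟨r', hr'⟩ hlt => h3 s r r' i i' hr hr' hlt, fun h => absurd ⟨r, hr⟩ h⟩
        · obtain ⟨k, hk1, hk2, hk3⟩ := LCL_fill hG' s
            (((hTfin s).toFinset.filter (· < i)).image (σ s))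
            (((hTfin s).toFinset.filter (i < ·)).image (σ s)) (by
              intro x hx y hy
              obtain ⟨i1, hi1, rfl⟩ := Finset.mem_image.1 hx
              obtain ⟨i2, hi2, rfl⟩ := Finset.mem_image.1 hy
              rw [Finset.mem_filter, Set.Finite.mem_toFinset] at hi1 hi2
              obtain ⟨⟨r1, hr1⟩, hl1⟩ := hi1
              obtain ⟨⟨r2, hr2⟩, hl2⟩ := hi2
              exact h3 s r1 r2 i1 i2 hr1 hr2 (hl1.trans hl2))
          refine ⟨k, fun i' hi' => ?_⟩
          rw [hz1 s i' i hi' hi]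
          refine ⟨fun h => absurd h hTi, fun i' ht hlt => hk1 _ ?_, fun i' ht hlt => hk2 _ ?_,
            fun _ => hk3⟩
          · exact Finset.mem_image_of_mem _ (Finset.mem_filter.2 ⟨(hTfin s).mem_toFinset.2 ht, hlt⟩)
          · exact Finset.mem_image_of_mem _ (Finset.mem_filter.2 ⟨(hTfin s).mem_toFinset.2 ht, hlt⟩)
      · exact ⟨0, fun i hi' => absurd ⟨i, hi'⟩ hi⟩
    choose k hk using hk
    set t : Bool → ℚ → ℚ := fun s i => if T s i then σ s i else k s with ht
    have htT : ∀ s i, T s i → t s i = σ s i := fun s i h => if_pos h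
    have htz : ∀ s i, Tch π s z i → t s i = k s := by
      intro s i hi
      by_cases h : T s i
      · rw [htT s i h, (hk s i hi).1 h]
      · exact if_neg h
    obtain ⟨h, hh1, hh2⟩ := hMVP π hπ F (su z) g (fun a => LCL_m t (π a)) (by
        intro a ha b hb hab
        refine LCL_m_mono t (hπ.mono hab) fun s i i' hi hi' hlt => ?_
        have touch : ∀ x ∈ F ∪ su z, ∀ i, π x = bk s i → T s i ∨ Tch π s z i := by
          intro x hx i hxi
          rcases Finset.mem_union.1 hx with hx | hx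
          · obtain ⟨r, hr⟩ := (hFm x).1 hx
            exact Or.inl ⟨r, x, hr, hxi⟩
          · exact Or.inr ⟨x, hx, hxi⟩
        by_cases c1 : T s i
        · by_cases c2 : T s i'
          · rw [htT s i c1, htT s i' c2]
            obtain ⟨r, hr⟩ := c1
            obtain ⟨r', hr'⟩ := c2
            exact (h3 s r r' i i' hr hr' hlt).le
          · have c3 := (touch b hb i' hi').resolve_left c2
            rw [htT s i c1, htz s i' c3]
            exact ((hk s i' c3).2.1 i c1 hlt).le
        · have c3 := (touch a ha i hi).resolve_left c1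
          by_cases c2 : T s i'
          · rw [htz s i c3, htT s i' c2]
            exact ((hk s i c3).2.2.1 i' c2 hlt).le
          · have c4 := (touch b hb i' hi').resolve_left c2
            exact absurd (hz1 s i i' c3 c4) hlt.ne) (by
        intro a ha
        obtain ⟨r, hr⟩ := (hFm a).1 ha
        rcases hπ.cov a with ⟨c, hc⟩ | ⟨s, i, hi⟩
        · rw [h1 r a hr c hc, hc, LCL_m_fr]
        · rw [h2 r a hr s i hi, hi, LCL_m_bk, htT s i ⟨r, a, hr, hi⟩]) (by
        intro a ha
        rcases hπ.cov a with ⟨c, hc⟩ | ⟨s, i, hi⟩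
        · rw [hc, LCL_m_fr]
          exact hπ.nef c
        · rw [hi, LCL_m_bk]
          exact hπ.neb s _)
    refine ⟨h, fun r => UNS.su_eq hC fun a ha => hh1 a ((hFm a).2 ⟨r, ha⟩), ?_⟩
    have key : ∀ s i, Tch π s (h • z) i → ∃ j, Tch π s z j ∧ i = k s := by
      rintro s i ⟨b, hb, hbi⟩
      rw [UNS.su_act hC] at hb
      obtain ⟨a, ha, rfl⟩ := Finset.mem_image.1 hb
      rw [hh2 a ha] at hbi
      rcases hπ.cov a with ⟨c, hc⟩ | ⟨s', j, hj⟩
      · rw [hc, LCL_m_fr] at hbi
        exact absurd hbi (LCL_fr_ne c s i)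
      · rw [hj, LCL_m_bk] at hbi
        obtain ⟨rfl, hi⟩ := LCL_bk_inj hbi
        exact ⟨j, ⟨a, ha, hj⟩, by rw [← hi, htz s' j ⟨a, ha, hj⟩]⟩
    refine ⟨fun s i i' hi hi' => ?_, fun i j hi hj => ?_⟩
    · obtain ⟨_, _, e1⟩ := key s i hi
      obtain ⟨_, _, e2⟩ := key s i' hi'
      rw [e1, e2]
    · obtain ⟨j1, hj1, e1⟩ := key false i hi
      obtain ⟨j2, hj2, e2⟩ := key true j hj
      rw [e1, e2]
      by_cases c1 : T false j1
      · by_cases c2 : T true j2
        · rw [(hk false j1 hj1).1 c1, (hk true j2 hj2).1 c2]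
          obtain ⟨r, hr⟩ := c1
          obtain ⟨r', hr'⟩ := c2
          exact h4 r r' j1 j2 hr hr' (hz2 j1 j2 hj1 hj2)
        · have := (hk true j2 hj2).2.2.2 c2 (k false)
          simpa [ad] using this
      · have := (hk false j1 hj1).2.2.2 c1 (k true)
        simpa [ad] using this
  refine ⟨main, fun φ hφ => ?_⟩
  obtain ⟨z, hz, hr⟩ := hφ
  obtain ⟨h, hh1, hh2⟩ := main z hz
  refine ⟨h • z, hh2, ?_⟩
  have e := (UNS.inv2 hC φ h W fun _ => z).2 hr
  have e1 : (fun i => h • W i) = fun r => g • W r := funext hh1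
  rwa [e1] at e

end Pool.Agent.EAE
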