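import Pool.Agent.EAE.TSX
import Pool.Agent.MNO.HYC
import Pool.Agent.UNS.SHT
import Pool.Agent.UNS.ARR3
import Pool.Agent.UNS.ITU3
import Pool.Agent.UNS.RED
import Pool.Agent.UNS.VIS

/-!
EAE, module SYS (helper45): a structure with a formula with the independence property, or with exact arrays of all
sizes, is elementarily equivalent to a structure with an action of `Aut(ℚ, <)` with finite supports and an element with at least two
visible points.
-/

set_option autoImplicit false
set_option linter.unusedVariables false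
set_option linter.unusedSectionVars false

namespace Pool.Agent.EAE

open FirstOrder.Language Set Filter
open scoped FirstOrder
open Pool.Agent.MNO (Dp Exa dp_form)
open Pool.Agent.AAD (Gam Fx ls St su Ctx Sha ITU_S ITU_V ITU_Dep ITU_el ITU_el_eq ITU_losS ITU_smul ITU_ctx
  ITU_ne)
open Pool.Agent.UNS (Tr vs ShT ArT ARR3_P ARR3_u ARR3_real ARR3_ev ARR3_sh inv inv2 su_fix su_min su_act
  ext)

namespace SYSx

/-- elementary equivalence -/
def Eq' (L : FirstOrder.Language.{0, 0}) (M N : Type) [L.Structure M] [L.Structure N] : Prop :=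
  ∀ σ : L.Sentence, M ⊨ σ ↔ N ⊨ σ

/-- the ultrapower with an infinite array -/
theorem arr (L : FirstOrder.Language.{0, 0}) (M : Type) [L.Structure M] [hM : Nonempty M] (m N : ℕ)
    (φ : L.Formula (Fin m ⊕ Fin N)) (t k : ℕ) (hex : ∀ n, ShT M φ t n) :
    ∃ (M' : Type) (_ : L.Structure M') (x : ℕ → Fin m → M') (y : (Fin k → ℕ) → Fin N → M'),
      Nonempty M' ∧ Eq' L M' M ∧ (∀ k', ShT M' φ (t + 1) k' → ShT M φ (t + 1) k') ∧
      (∀ r b, φ.Realize (Sum.elim (x r) (y b)) ↔ ∃ j, b j = r) ∧
      ∀ b b' (j : Fin N), j.1 < t → y b j = y b' j := by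
  classical
  choose X Y hXY hco using hex
  obtain ⟨m0⟩ := id hM
  -- the coordinates
  let X' : ℕ → Fin m → ℕ → M := fun i j n => if h : i < n then X n ⟨i, h⟩ j else m0
  let Y' : (Fin k → ℕ) → Fin N → ℕ → M := fun b j n =>
    Y n {i : Fin n | ∃ t, b t = (i : ℕ)} j
  refine ⟨ARR3_P M, inferInstance, fun i j => (X' i j : ARR3_P M), fun b j => (Y' b j : ARR3_P M),
    ⟨((fun _ => m0 : ℕ → M) : ARR3_P M)⟩, ?_, fun k' => ARR3_sh L M φ (t + 1) k',
    fun r b => ?_, fun b b' j hj => ?_⟩
  · intro σ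
    have h := FirstOrder.Language.Ultraproduct.sentence_realize (u := ARR3_u)
      (M := fun _ : ℕ => M) σ
    refine h.trans ?_
    rw [eventually_const]
  · let W : Fin m ⊕ Fin N → ℕ → M := Sum.elim (X' r) (Y' b)
    have h1 := ARR3_real L M φ W
      (Sum.elim (fun q => (X' r q : ARR3_P M)) (fun q => (Y' b q : ARR3_P M))) (by
        intro q
        rcases q with q | q <;> rfl)
    refine h1.trans ?_
    have h2 : ∀ᶠ n in (ARR3_u : Filter ℕ), ((φ.Realize fun q => W q n) ↔ ∃ j, b j = r) := by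
      filter_upwards [ARR3_ev (r + 1)] with n hn
      have hr : r < n := by omega
      have h3 : (fun q => W q n) =
          Sum.elim (X n ⟨r, hr⟩) (Y n {i : Fin n | ∃ t, b t = (i : ℕ)}) := by
        funext q
        rcases q with q | q
        · show X' r q n = X n ⟨r, hr⟩ q
          exact dif_pos hr
        · rfl
      rw [h3]
      exact hXY n ⟨r, hr⟩ _
    constructor
    · intro h
      obtain ⟨n, hk1, hk2⟩ := (h.and h2).exists
      exact hk2.1 hk1
    · intro h
      filter_upwards [h2] with n hn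
      exact hn.2 h
  · have h1 : Y' b j = Y' b' j := funext fun n => hco n _ _ j hj
    show (Y' b j : ARR3_P M) = (Y' b' j : ARR3_P M)
    rw [h1]

/-- the iterated ultrapower is elementarily equivalent -/
theorem itu_eq {L : FirstOrder.Language.{0, 0}} (hL : ∀ n, IsEmpty (L.Functions n)) (M : Type)
    [L.Structure M] [Nonempty M] : Eq' L (ITU_S L hL M) M := by
  intro σ
  have h := ITU_losS (hL := hL) (M := M) (α := Empty) σ (fun i => i.elim) (fun i => i.elim)
  have h1 : (fun i : Empty => (ITU_el (i.elim : (ℚ → ℕ) → M) (i.elim) : ITU_S L hL M)) =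
      (default : Empty → ITU_S L hL M) := Subsingleton.elim _ _
  rw [h1] at h
  refine Iff.trans (b := FirstOrder.Language.Formula.Realize σ (default : Empty → ITU_S L hL M))
    Iff.rfl (h.trans ?_)
  have h2 : ∀ v : ℚ → ℕ, (FirstOrder.Language.Formula.Realize σ
      (fun i : Empty => (i.elim : (ℚ → ℕ) → M) v)) ↔ M ⊨ σ := by
    intro v
    have h3 : (fun i : Empty => (i.elim : (ℚ → ℕ) → M) v) = (default : Empty → M) :=
      Subsingleton.elim _ _
    rw [h3]
    exact Iff.rfl
  rw [eventually_congr (Eventually.of_forall h2), eventually_const]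

/-- the case of the independence property -/
theorem ip (L : FirstOrder.Language.{0, 0}) (hL : ∀ n, IsEmpty (L.Functions n)) (M : Type)
    [L.Structure M] [Nonempty M] (m N : ℕ) (φ : L.Formula (Fin m ⊕ Fin N))
    (hφ : ∀ k, Sha (fun (x : Fin m → M) (y : Fin N → M) => φ.Realize (Sum.elim x y)) k) :
    ∃ (C : Type) (_ : L.Structure C) (_ : MulAction Gam C),
      Ctx L C ∧ Eq' L C M ∧ ∃ c : C, 2 ≤ (vs L c).card := by
  have h0 : ∀ k, ShT M φ 0 k := fun k => by
    obtain ⟨x, y, h⟩ := hφ k
    exact ⟨x, y, h, fun s s' j hj => absurd hj (Nat.not_lt_zero _)⟩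
  obtain ⟨t, ht, hk, k', hk'⟩ := Pool.Agent.UNS.thm_SHT L M m N φ h0
  obtain ⟨M', i1, x, y, hne, hpcs, hdown, hex, hco⟩ := arr L M m N φ t (2 * k' + 1) hk
  obtain ⟨ar⟩ := Pool.Agent.UNS.ITU3_arr (hL := hL) (M := M') m N φ t (2 * k' + 1) x y hex hco
  exact ⟨ITU_S L hL M', inferInstance, inferInstance, ITU_ctx,
    fun σ => (itu_eq hL M' σ).trans (hpcs σ),
    Pool.Agent.UNS.thm_RED Pool.Agent.UNS.thm_VIS L _ ITU_ctx m N φ t k' ht ar fun h =>
      hk' (hdown k' (Pool.Agent.UNS.ITU3_sht φ (t + 1) k' h))⟩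

/-- the case of an infinite exact array -/
theorem cod (L : FirstOrder.Language.{0, 0}) (hL : ∀ n, IsEmpty (L.Functions n)) (M : Type)
    [L.Structure M] [Nonempty M] (m n : ℕ) (φ : L.Formula ((Fin m ⊕ Fin n) ⊕ Unit))
    (x : ℕ → Fin m → M) (y : ℕ → Fin n → M) (z : ℕ → ℕ → M)
    (h : ∀ i j a b, φ.Realize (Sum.elim (Sum.elim (x i) (y j)) fun _ => z a b) ↔ i = a ∧ j = b) :
    ∃ (C : Type) (_ : L.Structure C) (_ : MulAction Gam C),
      Ctx L C ∧ Eq' L C M ∧ ∃ c : C, 2 ≤ (vs L c).card := by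
  classical
  have dx : ∀ (q : ℚ) (i : Fin m), ∃ s : Finset ℚ, ITU_Dep s fun v : ℚ → ℕ => x (v q) i :=
    fun q i => ⟨{q}, fun v w h => by
      have := h q (by simp)
      simp only [this]⟩
  have dy : ∀ (q : ℚ) (i : Fin n), ∃ s : Finset ℚ, ITU_Dep s fun v : ℚ → ℕ => y (v q) i :=
    fun q i => ⟨{q}, fun v w h => by
      have := h q (by simp)
      simp only [this]⟩
  have dz : ∀ (p q : ℚ), ∃ s : Finset ℚ, ITU_Dep s fun v : ℚ → ℕ => z (v p) (v q) :=
    fun p q => ⟨{p, q}, fun v w h => by
      have h1 := h p (by simp)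
      have h2 := h q (by simp)
      simp only [h1, h2]⟩
  let X : ℚ → Fin m → ITU_S L hL M := fun q i => ITU_el _ (dx q i)
  let Y : ℚ → Fin n → ITU_S L hL M := fun q i => ITU_el _ (dy q i)
  let Z : ℚ → ℚ → ITU_S L hL M := fun p q => ITU_el _ (dz p q)
  have aX : ∀ (g : Gam) q i, g • X q i = X (g q) i := by
    intro g q i
    show g • (ITU_el _ (dx q i) : ITU_S L hL M) = _
    rw [ITU_smul]
    rfl
  have aY : ∀ (g : Gam) q i, g • Y q i = Y (g q) i := by
    intro g q i
    show g • (ITU_el _ (dy q i) : ITU_S L hL M) = _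
    rw [ITU_smul]
    rfl
  have aZ : ∀ (g : Gam) p q, g • Z p q = Z (g p) (g q) := by
    intro g p q
    show g • (ITU_el _ (dz p q) : ITU_S L hL M) = _
    rw [ITU_smul]
    rfl
  have hC : Ctx L (ITU_S L hL M) := ITU_ctx
  have key : ∀ p q a b : ℚ, φ.Realize (Sum.elim (Sum.elim (X p) (Y q)) fun _ => Z a b) ↔
      p = a ∧ q = b := by
    intro p q a b
    have hh : ∀ i, ∃ s : Finset ℚ, ITU_Dep s ((Sum.elim (Sum.elim (fun i v => x (v p) i)
        (fun i v => y (v q) i)) (fun _ v => z (v a) (v b)) :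
          (Fin m ⊕ Fin n) ⊕ Unit → (ℚ → ℕ) → M) i) := by
      rintro ((i | i) | i)
      · exact dx p i
      · exact dy q i
      · exact dz a b
    have e1 : (Sum.elim (Sum.elim (X p) (Y q)) (fun _ => Z a b) :
        (Fin m ⊕ Fin n) ⊕ Unit → ITU_S L hL M) = fun i => ITU_el _ (hh i) := by
      funext i
      rcases i with (i | i) | i <;> rfl
    rw [e1, ITU_losS]
    have e2 : ∀ v : ℚ → ℕ, (φ.Realize fun i => (Sum.elim (Sum.elim (fun i v => x (v p) i)
        (fun i v => y (v q) i)) (fun _ v => z (v a) (v b)) :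
          (Fin m ⊕ Fin n) ⊕ Unit → (ℚ → ℕ) → M) i v) ↔ v p = v a ∧ v q = v b := by
      intro v
      rw [← h (v p) (v q) (v a) (v b)]
      have e3 : (fun i => (Sum.elim (Sum.elim (fun i v => x (v p) i)
          (fun i v => y (v q) i)) (fun _ v => z (v a) (v b)) :
            (Fin m ⊕ Fin n) ⊕ Unit → (ℚ → ℕ) → M) i v) =
          Sum.elim (Sum.elim (x (v p)) (y (v q))) (fun _ => z (v a) (v b)) := by
        funext i
        rcases i with (i | i) | i <;> rfl
      rw [e3]
    rw [eventually_congr (Eventually.of_forall e2)]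
    constructor
    · intro h
      constructor
      · by_contra hb
        obtain ⟨v, hv1, hv2⟩ := (h.and (ITU_ne hb)).exists
        exact hv2 hv1.1
      · by_contra hb
        obtain ⟨v, hv1, hv2⟩ := (h.and (ITU_ne hb)).exists
        exact hv2 hv1.2
    · rintro ⟨rfl, rfl⟩
      exact Eventually.of_forall fun v => ⟨rfl, rfl⟩
  -- supports
  have sX : ∀ q i, (su (X q i)).card ≤ 1 := fun q i => by
    have h1 : su (X q i) ⊆ {q} := su_min hC fun g hg => by
      rw [aX, hg q (by simp)]
    exact (Finset.card_le_card h1).trans (by simp)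
  have sY : ∀ q i, (su (Y q i)).card ≤ 1 := fun q i => by
    have h1 : su (Y q i) ⊆ {q} := su_min hC fun g hg => by
      rw [aY, hg q (by simp)]
    exact (Finset.card_le_card h1).trans (by simp)
  have sZ : su (Z 0 1) ⊆ {0, 1} := su_min hC fun g hg => by
    rw [aZ, hg 0 (by simp), hg 1 (by simp)]
  obtain ⟨hv1, hv2, -⟩ := Pool.Agent.UNS.thm_VIS L _ hC (Z 0 1)
  have hH : ∀ g : Gam, Tr L (g • Z 0 1) (Z 0 1) → g 0 = 0 ∧ g 1 = 1 := by
    intro g hg
    have h1 := hg (Fin m ⊕ Fin n) φ (Sum.elim (X 0) (Y 1)) (by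
      rintro (i | i)
      · exact sX 0 i
      · exact sY 1 i)
    have h2 := h1.2 ((key 0 1 0 1).2 ⟨rfl, rfl⟩)
    rw [aZ, key] at h2
    exact ⟨h2.1.symm, h2.2.symm⟩
  have m0 : (0 : ℚ) ∈ vs L (Z 0 1) := by
    by_contra h0
    obtain ⟨g, hg⟩ := ext {0, 1} (fun a => if a = 0 then -1 else a) (by
      intro a ha b hb hab
      simp only [Finset.mem_insert, Finset.mem_singleton] at ha hb
      rcases ha with rfl | rfl <;> rcases hb with rfl | rfl <;>
        first | (norm_num at hab; done) | norm_num)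
    have h1 := hH g (hv2 g fun a ha => by
      have h2 := sZ (hv1 ha)
      simp only [Finset.mem_insert, Finset.mem_singleton] at h2
      rcases h2 with rfl | rfl
      · exact absurd ha h0
      · rw [hg 1 (by simp)]
        norm_num)
    have h3 := hg 0 (by simp)
    rw [h1.1] at h3
    norm_num at h3
  have m1 : (1 : ℚ) ∈ vs L (Z 0 1) := by
    by_contra h0
    obtain ⟨g, hg⟩ := ext {0, 1} (fun a => if a = 0 then 0 else 2) (by
      intro a ha b hb hab
      simp only [Finset.mem_insert, Finset.mem_singleton] at ha hb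
      rcases ha with rfl | rfl <;> rcases hb with rfl | rfl <;>
        first | (norm_num at hab; done) | norm_num)
    have h1 := hH g (hv2 g fun a ha => by
      have h2 := sZ (hv1 ha)
      simp only [Finset.mem_insert, Finset.mem_singleton] at h2
      rcases h2 with rfl | rfl
      · rw [hg 0 (by simp)]
        norm_num
      · exact absurd ha h0)
    have h3 := hg 1 (by simp)
    rw [h1.2] at h3
    norm_num at h3
  refine ⟨ITU_S L hL M, inferInstance, inferInstance, hC, itu_eq hL M, Z 0 1, ?_⟩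
  have h2 : ({0, 1} : Finset ℚ) ⊆ vs L (Z 0 1) := by
    intro a ha
    simp only [Finset.mem_insert, Finset.mem_singleton] at ha
    rcases ha with rfl | rfl
    · exact m0
    · exact m1
  exact (show 2 = ({0, 1} : Finset ℚ).card by simp).le.trans (Finset.card_le_card h2)

end SYSx

/-- [SYS] the system: a structure elementarily equivalent to `V` with an action of `Aut(ℚ, <)` with finite supports
and an element with two visible points -/
theorem thm_SYS (L : FirstOrder.Language.{0, 0}) (hL : Countable L.Symbols)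
    (hF : ∀ n, IsEmpty (L.Functions n)) (V : Type) [L.Structure V] (hV : Infinite V)
    (h : ¬ (Nip L V ∧ Cod L V)) :
    ∃ (C : Type) (_ : L.Structure C) (_ : MulAction Gam C),
      Ctx L C ∧ (∀ σ : L.Sentence, C ⊨ σ ↔ V ⊨ σ) ∧ ∃ c : C, 2 ≤ (vs L c).card := by
  classical
  by_cases hn : Nip L V
  · have hc : ¬ Cod L V := fun hc => h ⟨hn, hc⟩
    unfold Cod at hc
    push Not at hc
    obtain ⟨m, n, P, hP, hk⟩ := hc
    obtain ⟨ψ, hψ⟩ := dp_form hP
    let φ : L.Formula ((Fin m ⊕ Fin n) ⊕ Unit) :=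
      ψ.relabel (Sum.elim (fun a => absurd a.2 (notMem_empty _)) (fun i => i))
    have hφ : ∀ (x : Fin m → V) (y : Fin n → V) (z : V), P x y z ↔
        φ.Realize (Sum.elim (Sum.elim x y) fun _ => z) := by
      intro x y z
      have h1 := hψ (Sum.elim (Sum.elim x y) fun _ => z)
      refine h1.trans ?_
      show _ ↔ (ψ.relabel _).Realize _
      rw [FirstOrder.Language.Formula.realize_relabel]
      apply iff_of_eq
      congr 1
      funext i
      rcases i with i | i
      · exact absurd i.2 (notMem_empty _)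
      · rfl
    obtain ⟨S, hmod, x, y, z, hxyz⟩ := Pool.Agent.MNO.thm_INA L hL V hV m n φ (fun k => by
      obtain ⟨x, y, z, h⟩ := hk k
      exact ⟨x, y, z, fun i j a b => (hφ _ _ _).symm.trans (h i j a b)⟩)
    obtain ⟨C, i1, i2, h1, h2, h3⟩ := @SYSx.cod L hF ℕ S _ m n φ x y z hxyz
    refine ⟨C, i1, i2, h1, fun σ => (h2 σ).trans ?_, h3⟩
    have h4 : ∀ τ : L.Sentence, V ⊨ τ → @FirstOrder.Language.Sentence.Realize L ℕ S τ :=
      fun τ hτ => @FirstOrder.Language.Theory.realize_sentence_of_mem L ℕ S _ hmod τ hτ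
    constructor
    · intro h5
      by_contra h6
      have h7 : V ⊨ σ.not := (FirstOrder.Language.Sentence.realize_not V).2 h6
      exact (@FirstOrder.Language.Sentence.realize_not L ℕ S σ).1 (h4 _ h7) h5
    · exact h4 σ
  · unfold Nip at hn
    push Not at hn
    obtain ⟨m, n, P, hP, hk⟩ := hn
    obtain ⟨ψ, hψ⟩ := dp_form hP
    let φ : L.Formula (Fin m ⊕ Fin n) :=
      ψ.relabel (Sum.elim (fun a => absurd a.2 (notMem_empty _)) (fun i => i))
    have hφ : ∀ (x : Fin m → V) (y : Fin n → V), P (Sum.elim x y) ↔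
        φ.Realize (Sum.elim x y) := by
      intro x y
      have h1 := hψ (Sum.elim x y)
      refine h1.trans ?_
      show _ ↔ (ψ.relabel _).Realize _
      rw [FirstOrder.Language.Formula.realize_relabel]
      apply iff_of_eq
      congr 1
      funext i
      rcases i with i | i
      · exact absurd i.2 (notMem_empty _)
      · rfl
    have : Nonempty V := inferInstance
    exact SYSx.ip L hF V m n φ fun k => by
      obtain ⟨x, y, h⟩ := hk k
      exact ⟨x, y, fun i s => (hφ _ _).symm.trans (h i s)⟩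

end Pool.Agent.EAE
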