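import Pool.Agent.TPY.ALL3

/-!
EAE, module TSX (helper45): Vaught's conjecture for theories all of whose infinite models have no formula with
the independence property and no formula (in one variable and two tuples) with exact arrays of all sizes.  The proof is that of
`TPY.T6_of`, which uses monadic NIP only through `nip_of`, `cod_of`.
-/

set_option autoImplicit false
set_option linter.unusedVariables false

namespace Pool.Agent.EAE

open FirstOrder.Language Set
open scoped FirstOrder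
open Pool.Agent.MNO
open Pool.Agent.TPY (Sh Cz Emb)
open Pool.Agent.WOM (tp Mon IsEl IsoM CtU Fx Orb Isd CtT PerfT ThS)

/-- no formula has the independence property (the field `nip` of `TPY.Cz`) -/
def Nip (L : FirstOrder.Language.{0, 0}) (U : Type) [L.Structure U] : Prop :=
  ∀ (m n : ℕ) (P : (Fin m ⊕ Fin n → U) → Prop), Dp L (∅ : Set U) P →
    ∃ k, ¬ Sh (fun (x : Fin m → U) (y : Fin n → U) => P (Sum.elim x y)) k

/-- no formula has exact arrays of arbitrary size (the field `cod` of `TPY.Cz`) -/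
def Cod (L : FirstOrder.Language.{0, 0}) (U : Type) [L.Structure U] : Prop :=
  ∀ (m n : ℕ) (P : (Fin m → U) → (Fin n → U) → U → Prop),
    Dp L (∅ : Set U) (fun v : (Fin m ⊕ Fin n) ⊕ Unit → U =>
      P (fun i => v (Sum.inl (Sum.inl i))) (fun i => v (Sum.inl (Sum.inr i))) (v (Sum.inr ()))) →
    ∃ k, ¬ Exa P k

/-- [TSX] Vaught's conjecture if all infinite models satisfy `Nip` and `Cod` -/
theorem thm_TSX (L : FirstOrder.Language.{0, 0}) (hL : Countable L.Symbols) (T : L.Theory)
    (hT : ∀ (V : Type) [L.Structure V], V ⊨ T → Infinite V → Nip L V ∧ Cod L V) :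
    CtT L T ∨ PerfT L T := by
  have hDEF1 := Pool.Agent.WOM.thm_DEF1 Pool.Agent.WOM.thm_DEFF
  have hREAL := Pool.Agent.WOM.thm_REAL Pool.Agent.WOM.thm_MEAS
  refine (Pool.Agent.WOM.thm_INC Pool.Agent.WOM.thm_MEAS hREAL) L hL T fun S hS => ?_
  by_cases hp : PerfT L (ThS L S)
  · exact Or.inr hp
  · have hsm : Pool.Agent.WOM.Small L (ThS L S) := by
      by_contra h
      exact hp ((Pool.Agent.WOM.thm_NSM Pool.Agent.WOM.thm_MEAS hREAL) L hL _ h)
    obtain ⟨W, _, _, hW, hsW⟩ := (Pool.Agent.WOM.thm_ULT hDEF1) L hL S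
    obtain ⟨U, _, hc, hi, hU, hsU⟩ := (Pool.Agent.WOM.thm_SUBM hDEF1) L hL S hsm W hW hsW
    have hM : Mon L U := (Pool.Agent.WOM.thm_HOMG hDEF1) L U hc hi hsU
    have hN := (thm_NPG Pool.Agent.PMC.thm_NPU) L hL U hM S hU hp
    obtain ⟨V, _, hV, ⟨j⟩⟩ := Pool.Agent.MST.thm_SAW L hL U inferInstance
    have hUT : U ⊨ T := Pool.Agent.WOM.TOP_mono L T S hS U hU
    have hVT : V ⊨ T := (j.theory_model_iff T).1 hUT
    have hj : Emb L j := Pool.Agent.TPY.emb_ele j
    have hVi : Infinite V := Infinite.of_injective j hj.inj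
    have hne : Nonempty V := inferInstance
    have hsml := Pool.Agent.TPY.sml_of hj hM
    have hC : Cz L V := ⟨hL, hne, hV, hsml, (hT V hVT hVi).1, (hT V hVT hVi).2⟩
    exact Or.inl ((Pool.Agent.WOM.thm_TRC (Pool.Agent.WOM.thm_EMB hDEF1)) L U hM
      (Pool.Agent.TPY.ct_of' Pool.Agent.TPY.m_RNB hC hj hM hN) S hU)

end Pool.Agent.EAE
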