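import Pool.Agent.EAE.StC
import Pool.Agent.EAE.SYS
import Pool.Agent.EAE.TSX

/-!
# EAE, module MAI (helper97)
-/

set_option autoImplicit false
set_option linter.unusedVariables false

namespace Pool.Agent.EAE

open FirstOrder.Language Set
open scoped FirstOrder
open Pool.Agent.AAD (Gam Fx ls St su Ctx)
open Pool.Agent.WOM (tp Small CtT PerfT)
open VPF (Pre)

/-- a structure with the same sentences as an infinite one is infinite -/
theorem MAI_inf {L : FirstOrder.Language.{0, 0}} {V C : Type} [L.Structure V] [L.Structure C] [Infinite V]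
    (h : ∀ σ : L.Sentence, C ⊨ σ ↔ V ⊨ σ) : Infinite C := by
  have h1 : V ⊨ L.infiniteTheory := (FirstOrder.Language.model_infiniteTheory_iff (L := L)).2 inferInstance
  refine (FirstOrder.Language.model_infiniteTheory_iff (L := L)).1 ?_
  refine ⟨fun {φ} hφ => (h φ).2 (h1.realize_of_mem φ hφ)⟩

/-- [PPP] a model with an IP formula or exact arrays of all sizes gives perfectly many models -/
theorem thm_PPP (hTYP : St_TYP) (L : FirstOrder.Language.{0, 0}) (hL : Countable L.Symbols)
    (hf : ∀ n, IsEmpty (L.Functions n)) (T : L.Theory) (hT : ∀ φ ∈ T, ∃ w, EAEA w ∧ Pre w φ)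
    (V : Type) [L.Structure V] (hVT : V ⊨ T) (hV : Infinite V) (hn : ¬ (Nip L V ∧ Cod L V)) : PerfT L T := by
  obtain ⟨C, iC, iA, hC, hs, hc⟩ := thm_SYS L hL hf V hV hn
  have hCi : Infinite C := MAI_inf hs
  refine hTYP L hL hf T hT C hC ?_ hc
  exact ⟨fun {φ} hφ => (hs φ).2 (hVT.realize_of_mem φ hφ)⟩

/-- [MAI] -/
theorem thm_MAI (hTYP : St_TYP) : St_MAI := by
  intro L hL hf T hT
  by_cases h : ∀ (V : Type) [L.Structure V], V ⊨ T → Infinite V → Nip L V ∧ Cod L V
  · exact thm_TSX L hL T h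
  · push Not at h
    obtain ⟨V, iV, hVT, hV, hn⟩ := h
    refine Or.inr (thm_PPP hTYP L hL hf T hT V hVT hV ?_)
    rintro ⟨h1, h2⟩
    exact hn h1 h2

end Pool.Agent.EAE
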