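import Pool.Agent.EAE.StA

/-!
# EAE, module MCX: minimal critical instances
-/

set_option autoImplicit false
set_option linter.unusedVariables false

namespace Pool.Agent.EAE

open FirstOrder.Language Set
open scoped FirstOrder
open Pool.Agent.AAD (Gam Fx ls St su Ctx)

theorem thm_MCX (hLCL : St_LCL) : St_MCX := by
  classical
  intro L N _ _ hf hctx π hπ ι _ φ hex
  have hex' : ∃ n : ℕ, ∃ (G : ℚ → ℚ → Prop) (W : ι → N) (c : Bool → ℚ), Crit hf π φ G W c ∧
      cnt π W false (c false) + cnt π W true (c true) = n := by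
    obtain ⟨G, W, c, h⟩ := hex
    exact ⟨_, G, W, c, h, rfl⟩
  obtain ⟨G, W, c, hcr, hn⟩ := Nat.find_spec hex'
  refine ⟨G, W, c, hcr, ?_, ?_⟩
  · intro s
    by_contra hno
    have hT : ∀ r, ¬ Tch π s (W r) (c s) := fun r hr => hno ⟨r, hr⟩
    have h := (hLCL L N hctx π hπ ι W (adE G c) G 1 (fun _ i => i) hcr.gd
      (fun r a _ c' hc' => hc') (fun r a _ s' i hi => hi)
      (fun s' r r' i i' _ _ hii => hii)
      (by
        intro r r' i j hi hj hG
        rcases hG with hG | ⟨h1, h2⟩
        · exact hG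
        · exfalso
          cases s with
          | false => exact hT r (h1 ▸ hi)
          | true => exact hT r' (h2 ▸ hj))).2 φ hcr.d1
    apply hcr.d0
    have e : (fun r => (1 : Gam) • W r) = W := funext fun r => one_smul _ _
    rwa [e] at h
  · intro G' W' c' hcr'
    rw [hn]
    exact Nat.find_min' hex' ⟨G', W', c', hcr', rfl⟩

end Pool.Agent.EAE
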