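import Pool.Agent.EAE.StB

/-!
# EAE, module MV2 (helper78): moving a vertex
-/

set_option autoImplicit false
set_option linter.unusedVariables false

namespace Pool.Agent.EAE

open FirstOrder.Language Set
open scoped FirstOrder
open Pool.Agent.AAD (Gam Fx ls St su Ctx)
open Pool.Agent.UNS (ext su_fix su_min su_act su_eq)

/-! ### The order of the parts -/

theorem MV2_bk_lt (s : Bool) (i i' : ℚ) : bk s i < bk s i' ↔ i < i' := by
  unfold bk
  rw [Prod.Lex.toLex_lt_toLex]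
  simp

theorem MV2_bk_le (s : Bool) (i i' : ℚ) : bk s i ≤ bk s i' ↔ i ≤ i' := by
  rw [← not_lt, MV2_bk_lt, not_lt]

theorem MV2_bk_inj {s s' : Bool} {i i' : ℚ} (h : bk s i = bk s' i') : s = s' ∧ i = i' := by
  have h1 := congrArg (fun x : Lam => (ofLex x).1) h
  have h2 := congrArg (fun x : Lam => (ofLex x).2) h
  simp only [bk, ofLex_toLex] at h1 h2
  refine ⟨?_, h2⟩
  cases s <;> cases s' <;> first | rfl | exact absurd h1 (by decide)

theorem MV2_bk_fr (s : Bool) (i : ℚ) (c : Fin 3) : bk s i ≠ fr c := by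
  intro h
  have h1 := congrArg (fun x : Lam => (ofLex x).1) h
  simp only [bk, fr, ofLex_toLex] at h1
  have h2 := congrArg Fin.val h1
  simp only at h2
  cases s
  · simp at h2
    omega
  · simp at h2
    omega

/-- a part which is not a block of side `s` is on the same side of all blocks of side `s` -/
theorem MV2_side (s : Bool) (x : Lam) (h : (∃ c, x = fr c) ∨ ∃ s i, x = bk s i)
    (hn : ∀ i, x ≠ bk s i) (i i' : ℚ) : (bk s i < x ∧ bk s i' < x) ∨ (x < bk s i ∧ x < bk s i') := by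
  rcases h with ⟨c, rfl⟩ | ⟨s', k, rfl⟩
  · have : ∀ i : ℚ, (2 * c.1 < (if s then 3 else 1 : Fin 5).1 → fr c < bk s i) ∧
        ((if s then 3 else 1 : Fin 5).1 < 2 * c.1 → bk s i < fr c) := by
      intro i
      unfold fr bk
      rw [Prod.Lex.toLex_lt_toLex, Prod.Lex.toLex_lt_toLex]
      exact ⟨fun h => Or.inl h, fun h => Or.inl h⟩
    by_cases hc : 2 * c.1 < (if s then 3 else 1 : Fin 5).1
    · exact Or.inr ⟨(this i).1 hc, (this i').1 hc⟩
    · have h2 : (if s then 3 else 1 : Fin 5).1 < 2 * c.1 := by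
        cases s
        · simp at hc ⊢
          omega
        · simp at hc ⊢
          omega
      exact Or.inl ⟨(this i).2 h2, (this i').2 h2⟩
  · have hs : s' ≠ s := by
      rintro rfl
      exact hn k rfl
    unfold bk
    rw [Prod.Lex.toLex_lt_toLex, Prod.Lex.toLex_lt_toLex, Prod.Lex.toLex_lt_toLex, Prod.Lex.toLex_lt_toLex]
    have d : (1 : Fin 5) < 3 := by decide
    cases s <;> cases s'
    · exact absurd rfl hs
    · left
      exact ⟨Or.inl d, Or.inl d⟩
    · right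
      exact ⟨Or.inl d, Or.inl d⟩
    · exact absurd rfl hs

section

variable {L : FirstOrder.Language.{0, 0}} {N : Type} [L.Structure N] [MulAction Gam N]
  {hf : ∀ n, IsEmpty (L.Functions n)} {π : ℚ → Lam} {ι : Type} {φ : L.Formula (ι ⊕ Unit)}
  {G₀ : ℚ → ℚ → Prop} {W : ι → N} {c a b l r : Bool → ℚ} {g : Bool → ℚ → Gam} {R : ℕ}
  {v : Bool → Fin R → ℕ → ℚ}

/-- the points of the moving interval of side `s` -/
theorem MV2_in (h : Sys hf π φ G₀ W c a b l r g v) (s : Bool) {x : ℚ} (hx : x ∈ Ioo (l s) (r s)) :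
    ∃ i, π x = bk s i ∧ a s ≤ i ∧ i ≤ b s := by
  have h1 : bk s (a s) ≤ π x := by
    rw [← h.lo s]
    exact h.blk.mono hx.1.le
  have h2 : π x ≤ bk s (b s) := by
    rw [← h.hi s]
    exact h.blk.mono hx.2.le
  by_contra hc
  have h3 : ∀ i, π x ≠ bk s i := by
    intro i hi
    rw [hi, MV2_bk_le] at h1 h2
    exact hc ⟨i, hi, h1, h2⟩
  rcases MV2_side s (π x) (h.blk.cov x) h3 (a s) (b s) with h4 | h4
  · exact absurd h2 (not_le.2 h4.2)
  · exact absurd h1 (not_le.2 h4.1)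

/-- the points of `su (W r')` in the moving interval -/
theorem MV2_pt (h : Sys hf π φ G₀ W c a b l r g v) (s : Bool) (r' : ι) {x : ℚ} (hx : x ∈ su (W r')) :
    x ∈ Ioo (l s) (r s) ↔ π x = bk s (c s) := by
  constructor
  · intro h1
    obtain ⟨i, hi, h2, h3⟩ := MV2_in h s h1
    have h4 : i = c s := by
      by_contra hne
      rcases h.fa s r' i ⟨x, hx, hi⟩ hne with h5 | h5
      · exact absurd h2 (not_le.2 h5)
      · exact absurd h3 (not_le.2 h5)
    rw [hi, h4]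
  · intro h1
    constructor
    · by_contra hc
      have h2 := h.blk.mono (not_lt.1 hc)
      rw [h1, h.lo s, MV2_bk_le] at h2
      exact absurd (h.ab s).1 (not_lt.2 h2)
    · by_contra hc
      have h2 := h.blk.mono (not_lt.1 hc)
      rw [h1, h.hi s, MV2_bk_le] at h2
      exact absurd (h.ab s).2 (not_lt.2 h2)

/-- points of `su (W r')` in block `c s` are moved to block `i` -/
theorem MV2_mv (h : Sys hf π φ G₀ W c a b l r g v) (s : Bool) (r' : ι) {x : ℚ} (hx : x ∈ su (W r'))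
    (h1 : π x = bk s (c s)) (ρ : Fin R) (m : ℕ) : π (g s (v s ρ m) x) = bk s (v s ρ m) :=
  h.mv s _ ((h.vt s).rg ρ m).1 ((h.vt s).rg ρ m).2 r' x hx h1

/-- the other points of `su (W r')` are fixed -/
theorem MV2_fx (h : Sys hf π φ G₀ W c a b l r g v) (s : Bool) (r' : ι) {x : ℚ} (hx : x ∈ su (W r'))
    (h1 : π x ≠ bk s (c s)) (i : ℚ) : g s i x = x :=
  h.ou s i x fun h2 => h1 ((MV2_pt h s r' hx).1 h2)

/-- the entries of `mg` -/
theorem MV2_mg (h : Sys hf π φ G₀ W c a b l r g v)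
    (h4 : ∀ r', ¬ (Tch π false (W r') (c false) ∧ Tch π true (W r') (c true))) (u : Bool → ι → N) (r' : ι) :
    (∀ s, Tch π s (W r') (c s) → mg π W c u r' = u s r') ∧
    ((∀ s, ¬ Tch π s (W r') (c s)) → mg π W c u r' = W r') := by
  constructor
  · intro s hs
    unfold mg
    cases s
    · rw [if_pos hs]
    · rw [if_neg (fun h5 => h4 r' ⟨h5, hs⟩), if_pos hs]
  · intro h5
    unfold mg
    rw [if_neg (h5 false), if_neg (h5 true)]

theorem MV2_pr1 {α : Type} (s : Bool) (w u : α) : pr s w u s = w := if_pos rfl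

theorem MV2_pr2 {α : Type} (s : Bool) (w u : α) : pr s w u (!s) = u := by
  unfold pr
  cases s <;> simp

theorem MV2_both (h4 : ∀ r', ¬ (Tch π false (W r') (c false) ∧ Tch π true (W r') (c true))) (s : Bool) (r' : ι)
    (h1 : Tch π s (W r') (c s)) : ¬ Tch π (!s) (W r') (c (!s)) := by
  intro h2
  cases s
  · exact h4 r' ⟨h1, h2⟩
  · exact h4 r' ⟨h2, h1⟩

end

theorem thm_MV2 (hTWT : St_TWT) : St_MV2 := by
  classical
  intro L N _ _ hf π ι φ G₀ W c a b l r g R v h s w ρ m m' hsep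
  have hfin := h.fin
  have := Fintype.ofFinite ι
  obtain ⟨-, -, -, h4⟩ := hTWT L N hf π ι φ G₀ W c a b l r g R v h
  -- entries
  set Y := mg π W c (pr s w (tw W g v (!s) ρ m)) with hY
  set Y' := mg π W c (pr s w (tw W g v (!s) ρ m')) with hY'
  have hs1 : ∀ r', Tch π s (W r') (c s) → Y r' = w r' ∧ Y' r' = w r' := by
    intro r' h1
    exact ⟨((MV2_mg h h4 _ r').1 s h1).trans (by rw [MV2_pr1]), ((MV2_mg h h4 _ r').1 s h1).trans (by rw [MV2_pr1])⟩
  have hs2 : ∀ r', Tch π (!s) (W r') (c (!s)) →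
      Y r' = g (!s) (v (!s) ρ m) • W r' ∧ Y' r' = g (!s) (v (!s) ρ m') • W r' := by
    intro r' h1
    refine ⟨((MV2_mg h h4 _ r').1 (!s) h1).trans ?_, ((MV2_mg h h4 _ r').1 (!s) h1).trans ?_⟩
    · rw [MV2_pr2]; rfl
    · rw [MV2_pr2]; rfl
  have hs3 : ∀ r', ¬ Tch π s (W r') (c s) → ¬ Tch π (!s) (W r') (c (!s)) → Y r' = W r' ∧ Y' r' = W r' := by
    intro r' h1 h2
    have h3 : ∀ s', ¬ Tch π s' (W r') (c s') := by
      intro s'
      cases s <;> cases s' <;> first | exact h1 | exact h2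
    exact ⟨(MV2_mg h h4 _ r').2 h3, (MV2_mg h h4 _ r').2 h3⟩
  have hbo := fun r' => MV2_both (π := π) (W := W) (c := c) h4 s r'
  clear_value Y Y'
  clear hY hY'
  -- the side
  obtain ⟨S, hS⟩ : ∃ S, (!s) = S := ⟨_, rfl⟩
  rw [hS] at hsep hs2 hs3 hbo ⊢
  have rg := ((h.vt S).rg ρ m)
  have rg' := ((h.vt S).rg ρ m')
  -- blocks touched by some `W r'`, not `c S`
  have fa' : ∀ r' x, x ∈ su (W r') → π x ≠ bk S (c S) →
      (bk S (v S ρ m) < π x ∧ bk S (v S ρ m') < π x) ∨ (π x < bk S (v S ρ m) ∧ π x < bk S (v S ρ m')) := by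
    intro r' x hx hne
    by_cases h5 : ∃ μ, π x = bk S μ
    · obtain ⟨μ, hμ⟩ := h5
      have h6 : μ ≠ c S := by
        rintro rfl
        exact hne hμ
      rw [hμ, MV2_bk_lt, MV2_bk_lt, MV2_bk_lt, MV2_bk_lt]
      rcases h.fa S r' μ ⟨x, hx, hμ⟩ h6 with h7 | h7
      · exact Or.inr ⟨h7.trans rg.1, h7.trans rg'.1⟩
      · exact Or.inl ⟨rg.2.trans h7, rg'.2.trans h7⟩
    · push Not at h5
      exact MV2_side S (π x) (h.blk.cov x) h5 _ _
  -- the points
  have key : ∀ r' x, x ∈ su (Y r') →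
      (∃ y ∈ su (W r'), Tch π S (W r') (c S) ∧ π y = bk S (c S) ∧ x = g S (v S ρ m) y) ∨
      (bk S (v S ρ m) < π x ∧ bk S (v S ρ m') < π x) ∨ (π x < bk S (v S ρ m) ∧ π x < bk S (v S ρ m')) := by
    intro r' x hx
    by_cases h1 : Tch π s (W r') (c s)
    · right
      rw [(hs1 r' h1).1] at hx
      by_cases h5 : ∃ μ, π x = bk S μ
      · obtain ⟨μ, hμ⟩ := h5
        rw [hμ, MV2_bk_lt, MV2_bk_lt, MV2_bk_lt, MV2_bk_lt]
        rcases hsep r' μ h1 ⟨x, hx, hμ⟩ with h6 | h6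
        · exact Or.inr h6
        · exact Or.inl h6
      · push Not at h5
        exact MV2_side S (π x) (h.blk.cov x) h5 _ _
    · by_cases h2 : Tch π S (W r') (c S)
      · rw [(hs2 r' h2).1, su_act h.ctx] at hx
        obtain ⟨y, hy, rfl⟩ := Finset.mem_image.1 hx
        by_cases h3 : π y = bk S (c S)
        · exact Or.inl ⟨y, hy, h2, h3, rfl⟩
        · right
          rw [MV2_fx h S r' hy h3]
          exact fa' r' y hy h3
      · right
        rw [(hs3 r' h1 h2).1] at hx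
        exact fa' r' x hx fun h3 => h2 ⟨x, hx, h3⟩
  -- the map
  let t : ℚ → ℚ := fun x => if π x = bk S (v S ρ m) then g S (v S ρ m') ((g S (v S ρ m)).symm x) else x
  have ht1 : ∀ r' y, y ∈ su (W r') → π y = bk S (c S) → t (g S (v S ρ m) y) = g S (v S ρ m') y := by
    intro r' y hy h3
    have h5 := MV2_mv h S r' hy h3 ρ m
    simp only [t]
    rw [if_pos h5, OrderIso.symm_apply_apply]
  have ht2 : ∀ x, π x ≠ bk S (v S ρ m) → t x = x := fun x hx => if_neg hx
  have hne : ∀ x, ((bk S (v S ρ m) < π x ∧ bk S (v S ρ m') < π x) ∨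
      (π x < bk S (v S ρ m) ∧ π x < bk S (v S ρ m'))) → π x ≠ bk S (v S ρ m) := by
    rintro x (h5 | h5)
    · exact h5.1.ne'
    · exact h5.1.ne
  have hmono : ∀ x y : ℚ, π x < π y → x < y := by
    intro x y hxy
    by_contra hc
    exact absurd (h.blk.mono (not_lt.1 hc)) (not_le.2 hxy)
  obtain ⟨γ, hγ⟩ := ext (Finset.univ.biUnion fun r' => su (Y r')) t (by
    intro x hx y hy hxy
    obtain ⟨r₁, -, hx⟩ := Finset.mem_biUnion.1 hx
    obtain ⟨r₂, -, hy⟩ := Finset.mem_biUnion.1 hy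
    rcases key r₁ x hx with ⟨x₁, hx₁, -, hx₂, rfl⟩ | hx₁
    · rcases key r₂ y hy with ⟨y₁, hy₁, -, hy₂, rfl⟩ | hy₁
      · rw [ht1 r₁ x₁ hx₁ hx₂, ht1 r₂ y₁ hy₁ hy₂]
        exact (g S (v S ρ m')).strictMono ((g S (v S ρ m)).lt_iff_lt.1 hxy)
      · rw [ht1 r₁ x₁ hx₁ hx₂, ht2 y (hne y hy₁)]
        apply hmono
        rw [MV2_mv h S r₁ hx₁ hx₂ ρ m']
        rcases hy₁ with h5 | h5
        · exact h5.2
        · have h6 := h.blk.mono hxy.le
          rw [MV2_mv h S r₁ hx₁ hx₂ ρ m] at h6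
          exact absurd h5.1 (not_lt.2 h6)
    · rcases key r₂ y hy with ⟨y₁, hy₁, -, hy₂, rfl⟩ | hy₁
      · rw [ht1 r₂ y₁ hy₁ hy₂, ht2 x (hne x hx₁)]
        apply hmono
        rw [MV2_mv h S r₂ hy₁ hy₂ ρ m']
        rcases hx₁ with h5 | h5
        · have h6 := h.blk.mono hxy.le
          rw [MV2_mv h S r₂ hy₁ hy₂ ρ m] at h6
          exact absurd h5.1 (not_lt.2 h6)
        · exact h5.2
      · rw [ht2 x (hne x hx₁), ht2 y (hne y hy₁)]
        exact hxy)
  have hγ' : ∀ r' x, x ∈ su (Y r') → γ x = t x := fun r' x hx =>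
    hγ x (Finset.mem_biUnion.2 ⟨r', Finset.mem_univ _, hx⟩)
  refine ⟨γ, fun r' => ?_, fun r' x hx => ⟨fun h5 => ?_, fun h5 => ?_⟩⟩
  · by_cases h1 : Tch π s (W r') (c s)
    · rw [(hs1 r' h1).1, (hs1 r' h1).2]
      refine su_fix h.ctx fun x hx => ?_
      rw [hγ' r' x (by rw [(hs1 r' h1).1]; exact hx)]
      refine ht2 x (hne x ?_)
      rcases key r' x (by rw [(hs1 r' h1).1]; exact hx) with ⟨y, hy, h2, -⟩ | h5
      · exact absurd h2 (hbo r' h1)
      · exact h5
    · by_cases h2 : Tch π S (W r') (c S)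
      · rw [(hs2 r' h2).1, (hs2 r' h2).2, ← mul_smul]
        refine su_eq h.ctx fun y hy => ?_
        have hx : g S (v S ρ m) y ∈ su (Y r') := by
          rw [(hs2 r' h2).1, su_act h.ctx]
          exact Finset.mem_image_of_mem _ hy
        show γ (g S (v S ρ m) y) = g S (v S ρ m') y
        rw [hγ' r' _ hx]
        by_cases h3 : π y = bk S (c S)
        · exact ht1 r' y hy h3
        · rw [MV2_fx h S r' hy h3, MV2_fx h S r' hy h3]
          exact ht2 y (hne y (fa' r' y hy h3))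
      · rw [(hs3 r' h1 h2).1, (hs3 r' h1 h2).2]
        refine su_fix h.ctx fun x hx => ?_
        rw [hγ' r' x (by rw [(hs3 r' h1 h2).1]; exact hx)]
        exact ht2 x (hne x (fa' r' x hx fun h3 => h2 ⟨x, hx, h3⟩))
  · rcases key r' x hx with ⟨y, hy, -, h3, rfl⟩ | h6
    · rw [hγ' r' _ hx, ht1 r' y hy h3]
      exact MV2_mv h S r' hy h3 ρ m'
    · exact absurd h5 (hne x h6)
  · rw [hγ' r' x hx, ht2 x h5]

end Pool.Agent.EAE
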