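import Pool.Agent.UNS.Base

/-!
EAE, module MOV (helper45): moves which respect a monotone map of `ℚ` to a linear order, and the existence of such
maps with fibres without endpoints.
-/

set_option autoImplicit false
set_option linter.unusedVariables false

namespace Pool.Agent.EAE

open Set
open Pool.Agent.AAD (Gam)
open Pool.Agent.UNS (ext)

/-- a monotone map onto a linear order whose fibres have no least and no greatest element -/
structure Fib {Λ : Type} [LinearOrder Λ] (π : ℚ → Λ) : Prop where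
  mono : Monotone π
  surj : Function.Surjective π
  up : ∀ q, ∃ r, q < r ∧ π r = π q
  dn : ∀ q, ∃ r, r < q ∧ π r = π q

namespace MOVx

variable {Λ : Type} [LinearOrder Λ] {π : ℚ → Λ}

/-- a point in a fibre between two finite sets -/
theorem btw (hπ : Fib π) (l : Λ) (A B : Finset ℚ) (hAB : ∀ a ∈ A, ∀ b ∈ B, a < b)
    (hA : ∀ a ∈ A, π a ≤ l) (hB : ∀ b ∈ B, l ≤ π b) :
    ∃ x, π x = l ∧ (∀ a ∈ A, a < x) ∧ ∀ b ∈ B, x < b := by
  classical
  -- the points of `A`, `B` in the fibre
  let A' := A.filter (fun a => π a = l)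
  let B' := B.filter (fun b => π b = l)
  have key : ∃ x, π x = l ∧ (∀ a ∈ A', a < x) ∧ ∀ b ∈ B', x < b := by
    rcases A'.eq_empty_or_nonempty with hA' | hA'
    · rcases B'.eq_empty_or_nonempty with hB' | hB'
      · obtain ⟨x, hx⟩ := hπ.surj l
        exact ⟨x, hx, by simp [hA'], by simp [hB']⟩
      · obtain ⟨r, hr, hr2⟩ := hπ.dn (B'.min' hB')
        have h1 : π (B'.min' hB') = l := (Finset.mem_filter.1 (B'.min'_mem hB')).2
        exact ⟨r, hr2.trans h1, by simp [hA'], fun b hb => hr.trans_le (B'.min'_le b hb)⟩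
    · have h1 : π (A'.max' hA') = l := (Finset.mem_filter.1 (A'.max'_mem hA')).2
      rcases B'.eq_empty_or_nonempty with hB' | hB'
      · obtain ⟨r, hr, hr2⟩ := hπ.up (A'.max' hA')
        exact ⟨r, hr2.trans h1, fun a ha => (A'.le_max' a ha).trans_lt hr, by simp [hB']⟩
      · have h2 : π (B'.min' hB') = l := (Finset.mem_filter.1 (B'.min'_mem hB')).2
        have h3 : A'.max' hA' < B'.min' hB' := hAB _ (Finset.mem_filter.1 (A'.max'_mem hA')).1 _
          (Finset.mem_filter.1 (B'.min'_mem hB')).1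
        obtain ⟨x, hx1, hx2⟩ := exists_between h3
        refine ⟨x, le_antisymm ?_ ?_, fun a ha => (A'.le_max' a ha).trans_lt hx1,
          fun b hb => hx2.trans_le (B'.min'_le b hb)⟩
        · exact (hπ.mono hx2.le).trans h2.le
        · exact h1.ge.trans (hπ.mono hx1.le)
  obtain ⟨x, hx, hx1, hx2⟩ := key
  refine ⟨x, hx, fun a ha => ?_, fun b hb => ?_⟩
  · by_cases h : π a = l
    · exact hx1 a (Finset.mem_filter.2 ⟨ha, h⟩)
    · have h1 : π a < π x := by rw [hx]; exact lt_of_le_of_ne (hA a ha) h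
      exact lt_of_not_ge fun h2 => absurd (hπ.mono h2) (not_le.2 h1)
  · by_cases h : π b = l
    · exact hx2 b (Finset.mem_filter.2 ⟨hb, h⟩)
    · have h1 : π x < π b := by rw [hx]; exact lt_of_le_of_ne (hB b hb) (Ne.symm h)
      exact lt_of_not_ge fun h2 => absurd (hπ.mono h2) (not_le.2 h1)

end MOVx

/-- [MOV] moves with prescribed fibres -/
theorem thm_MOV {Λ : Type} [LinearOrder Λ] {π : ℚ → Λ} (hπ : Fib π) (F F' : Finset ℚ) (g : Gam)
    (f : ℚ → Λ) (hf : ∀ a ∈ F ∪ F', ∀ b ∈ F ∪ F', a ≤ b → f a ≤ f b)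
    (hg : ∀ a ∈ F, f a = π (g a)) :
    ∃ h : Gam, (∀ a ∈ F, h a = g a) ∧ ∀ a ∈ F ∪ F', π (h a) = f a := by
  classical
  induction F' using Finset.induction_on with
  | empty =>
    refine ⟨g, fun a _ => rfl, fun a ha => ?_⟩
    rw [Finset.union_empty] at ha
    exact (hg a ha).symm
  | @insert q F' hq ih =>
    have hsub : F ∪ F' ⊆ F ∪ insert q F' := Finset.union_subset_union_right (Finset.subset_insert _ _)
    obtain ⟨h, h1, h2⟩ := ih fun a ha b hb => hf a (hsub ha) b (hsub hb)
    have hqm : q ∈ F ∪ insert q F' := Finset.mem_union_right _ (Finset.mem_insert_self _ _)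
    by_cases hqF : q ∈ F
    · refine ⟨h, h1, fun a ha => ?_⟩
      by_cases haq : a = q
      · rw [haq, h1 q hqF, hg q hqF]
      · refine h2 a ?_
        rcases Finset.mem_union.1 ha with ha | ha
        · exact Finset.mem_union_left _ ha
        · exact Finset.mem_union_right _ ((Finset.mem_insert.1 ha).resolve_left haq)
    -- the new value
    obtain ⟨x, hx, hx1, hx2⟩ := MOVx.btw hπ (f q) (((F ∪ F').filter (· < q)).image h)
      (((F ∪ F').filter (q < ·)).image h) (by
        intro a₀ ha₀ b₀ hb₀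
        obtain ⟨a, ha, rfl⟩ := Finset.mem_image.1 ha₀
        obtain ⟨b, hb, rfl⟩ := Finset.mem_image.1 hb₀
        rw [Finset.mem_filter] at ha hb
        exact h.lt_iff_lt.2 (lt_trans ha.2 hb.2)) (by
        intro a₀ ha₀
        obtain ⟨a, ha, rfl⟩ := Finset.mem_image.1 ha₀
        rw [Finset.mem_filter] at ha
        rw [h2 a ha.1]
        exact hf a (hsub ha.1) q hqm ha.2.le) (by
        intro a₀ ha₀
        obtain ⟨a, ha, rfl⟩ := Finset.mem_image.1 ha₀
        rw [Finset.mem_filter] at ha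
        rw [h2 a ha.1]
        exact hf q hqm a (hsub ha.1) ha.2.le)
    have hqn : q ∉ F ∪ F' := by
      rw [Finset.mem_union, not_or]
      exact ⟨hqF, hq⟩
    obtain ⟨k, hk⟩ := ext (insert q (F ∪ F')) (fun a => if a = q then x else h a) (by
      intro a ha b hb hab
      by_cases haq : a = q
      · have hbq : b ≠ q := fun hbq => by rw [haq, hbq] at hab; exact lt_irrefl _ hab
        rw [if_pos haq, if_neg hbq]
        refine hx2 _ (Finset.mem_image_of_mem _ (Finset.mem_filter.2
          ⟨(Finset.mem_insert.1 hb).resolve_left hbq, ?_⟩))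
        rw [← haq]
        exact hab
      · rw [if_neg haq]
        have ha' := (Finset.mem_insert.1 ha).resolve_left haq
        by_cases hbq : b = q
        · rw [if_pos hbq]
          refine hx1 _ (Finset.mem_image_of_mem _ (Finset.mem_filter.2 ⟨ha', ?_⟩))
          rw [← hbq]
          exact hab
        · rw [if_neg hbq]
          exact h.lt_iff_lt.2 hab)
    have hk' : ∀ a ∈ F ∪ F', k a = h a := fun a ha => by
      rw [hk a (Finset.mem_insert_of_mem ha), if_neg]
      rintro rfl
      exact hqn ha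
    have hkq : k q = x := by
      rw [hk q (Finset.mem_insert_self _ _), if_pos rfl]
    refine ⟨k, fun a ha => ?_, fun a ha => ?_⟩
    · rw [hk' a (Finset.mem_union_left _ ha), h1 a ha]
    · by_cases haq : a = q
      · rw [haq, hkq, hx]
      · have ha' : a ∈ F ∪ F' := by
          rcases Finset.mem_union.1 ha with ha | ha
          · exact Finset.mem_union_left _ ha
          · exact Finset.mem_union_right _ ((Finset.mem_insert.1 ha).resolve_left haq)
        rw [hk' a ha', h2 a ha']

/-- [PIX] such maps exist for all countable linear orders -/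
theorem thm_PIX (Λ : Type) [LinearOrder Λ] [Countable Λ] [Nonempty Λ] : ∃ π : ℚ → Λ, Fib π := by
  classical
  have i1 : Countable (Λ ×ₗ ℚ) := inferInstanceAs (Countable (Λ × ℚ))
  have i2 : DenselyOrdered (Λ ×ₗ ℚ) := inferInstance
  have i3 : NoMinOrder (Λ ×ₗ ℚ) := inferInstance
  have i4 : NoMaxOrder (Λ ×ₗ ℚ) := inferInstance
  have i5 : Nonempty (Λ ×ₗ ℚ) := ⟨toLex (Classical.arbitrary Λ, 0)⟩
  obtain ⟨e⟩ := Order.iso_of_countable_dense ℚ (Λ ×ₗ ℚ)
  refine ⟨fun q => (ofLex (e q)).1, ?_, ?_, ?_, ?_⟩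
  · intro a b hab
    have h := e.monotone hab
    rcases (Prod.Lex.le_iff).1 h with h | h
    · exact h.le
    · exact h.1.le
  · intro l
    refine ⟨e.symm (toLex (l, 0)), ?_⟩
    simp
  · intro q
    refine ⟨e.symm (toLex ((ofLex (e q)).1, (ofLex (e q)).2 + 1)), ?_, by simp⟩
    rw [← e.lt_iff_lt, OrderIso.apply_symm_apply]
    exact (Prod.Lex.lt_iff).2 (Or.inr ⟨rfl, by simp⟩)
  · intro q
    refine ⟨e.symm (toLex ((ofLex (e q)).1, (ofLex (e q)).2 - 1)), ?_, by simp⟩
    rw [← e.lt_iff_lt, OrderIso.apply_symm_apply]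
    exact (Prod.Lex.lt_iff).2 (Or.inr ⟨rfl, by simp⟩)

end Pool.Agent.EAE
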