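import Pool.Agent.EAE.StA
import Pool.Agent.EAE.MOV

/-!
EAE, module MVP (helper45): moves with prescribed parts, from `thm_MOV`.
-/

set_option autoImplicit false
set_option linter.unusedVariables false

namespace Pool.Agent.EAE

open Set
open Pool.Agent.AAD (Gam)

/-- [MVP] -/
theorem thm_MVP : St_MVP := by
  classical
  intro π hπ F F' g f hf hg hx
  let ρ : ℚ → range π := fun x => ⟨π x, mem_range_self x⟩
  have hρ : Fib ρ := by
    refine ⟨fun a b hab => ?_, ?_, fun q => ?_, fun q => ?_⟩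
    · exact hπ.mono hab
    · rintro ⟨_, x, rfl⟩
      exact ⟨x, rfl⟩
    · obtain ⟨r, h1, h2⟩ := hπ.up q
      exact ⟨r, h1, Subtype.ext h2⟩
    · obtain ⟨r, h1, h2⟩ := hπ.dn q
      exact ⟨r, h1, Subtype.ext h2⟩
  have hr : ∀ a ∈ F ∪ F', f a ∈ range π := by
    intro a ha
    rcases Finset.mem_union.1 ha with ha | ha
    · rw [hg a ha]
      exact mem_range_self _
    · obtain ⟨x, hx⟩ := hx a ha
      exact ⟨x, hx⟩
  let f' : ℚ → range π := fun a => if h : f a ∈ range π then ⟨f a, h⟩ else ⟨π 0, mem_range_self 0⟩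
  have hf' : ∀ a ∈ F ∪ F', (f' a).1 = f a := by
    intro a ha
    show (if h : f a ∈ range π then (⟨f a, h⟩ : range π) else ⟨π 0, mem_range_self 0⟩).1 = f a
    rw [dif_pos (hr a ha)]
  obtain ⟨h, h1, h2⟩ := thm_MOV hρ F F' g f' (by
    intro a ha b hb hab
    show (f' a).1 ≤ (f' b).1
    rw [hf' a ha, hf' b hb]
    exact hf a ha b hb hab) (by
    intro a ha
    refine Subtype.ext ?_
    rw [hf' a (Finset.mem_union_left _ ha), hg a ha])
  refine ⟨h, h1, fun a ha => ?_⟩
  have h3 := congrArg Subtype.val (h2 a (Finset.mem_union_right _ ha))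
  rw [hf' a (Finset.mem_union_right _ ha)] at h3
  exact h3

end Pool.Agent.EAE
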