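import Pool.Agent.EAE.StB

/-!
# EAE, module NWD: the vertices and a finite set are nowhere dense
-/

set_option autoImplicit false

namespace Pool.Agent.EAE

/-- thin sets -/
private def NWDthin (S : Set ℚ) : Prop :=
  ∀ p q : ℚ, p < q → ∃ p' q' : ℚ, p ≤ p' ∧ p' < q' ∧ q' ≤ q ∧ ∀ x, p' < x → x < q' → x ∉ S

private theorem NWD_union {S T : Set ℚ} (hS : NWDthin S) (hT : NWDthin T) :
    NWDthin (S ∪ T) := by
  intro p q hpq
  obtain ⟨p1, q1, h1, h2, h3, h4⟩ := hS p q hpq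
  obtain ⟨p2, q2, k1, k2, k3, k4⟩ := hT p1 q1 h2
  refine ⟨p2, q2, h1.trans k1, k2, k3.trans h3, ?_⟩
  rintro x hx1 hx2 (hx | hx)
  · exact h4 x (lt_of_le_of_lt k1 hx1) (lt_of_lt_of_le hx2 k3) hx
  · exact k4 x hx1 hx2 hx

private theorem NWD_empty : NWDthin ∅ := fun p q hpq =>
  ⟨p, q, le_rfl, hpq, le_rfl, fun _ _ _ h => h⟩

private theorem NWD_point (x : ℚ) : NWDthin {x} := by
  intro p q hpq
  rcases le_or_gt x p with h | h
  · exact ⟨p, q, le_rfl, hpq, le_rfl, fun y hy _ hy' => by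
      rw [Set.mem_singleton_iff] at hy'
      rw [hy'] at hy
      exact absurd hy (not_lt.2 h)⟩
  · rcases le_or_gt q x with h' | h'
    · exact ⟨p, q, le_rfl, hpq, le_rfl, fun y _ hy hy' => by
        rw [Set.mem_singleton_iff] at hy'
        rw [hy'] at hy
        exact absurd hy (not_lt.2 h')⟩
    · exact ⟨p, x, le_rfl, h, h'.le, fun y _ hy hy' => by
        rw [Set.mem_singleton_iff] at hy'
        rw [hy'] at hy
        exact lt_irrefl _ hy⟩

private theorem NWD_seq (u : ℕ → ℚ) (hu : ∀ m m', m < m' → u m < u m') :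
    NWDthin (Set.range u) := by
  intro p q hpq
  have hm : StrictMono u := fun m m' h => hu m m' h
  by_cases h : ∃ m, p < u m ∧ u m < q
  · obtain ⟨m, h1, h2⟩ := h
    refine ⟨u m, min q (u (m + 1)), h1.le, lt_min h2 (hu m (m + 1) (Nat.lt_succ_self m)),
      min_le_left _ _, ?_⟩
    rintro x hx1 hx2 ⟨n, rfl⟩
    have h3 : m < n := hm.lt_iff_lt.1 hx1
    have h4 : n < m + 1 := hm.lt_iff_lt.1 (lt_of_lt_of_le hx2 (min_le_right _ _))
    omega
  · refine ⟨p, q, le_rfl, hpq, le_rfl, ?_⟩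
    rintro x hx1 hx2 ⟨n, rfl⟩
    exact h ⟨n, hx1, hx2⟩

theorem thm_NWD : St_NWD := by
  classical
  intro a b R v hv A hA p q hpq
  have h1 : NWDthin A := by
    refine Set.Finite.induction_on (motive := fun A _ => NWDthin A) A hA NWD_empty ?_
    intro x S _ _ hS
    rw [Set.insert_eq]
    exact NWD_union (NWD_point x) hS
  have h2 : ∀ F : Finset (Fin R), NWDthin {x | ∃ ρ ∈ F, ∃ m, x = v ρ m} := by
    intro F
    induction F using Finset.induction_on with
    | empty =>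
      have h3 : {x | ∃ ρ ∈ (∅ : Finset (Fin R)), ∃ m, x = v ρ m} = ∅ := by
        ext x
        simp
      rw [h3]
      exact NWD_empty
    | insert ρ F _ ih =>
      have h3 : {x | ∃ ρ' ∈ insert ρ F, ∃ m, x = v ρ' m} =
          Set.range (v ρ) ∪ {x | ∃ ρ' ∈ F, ∃ m, x = v ρ' m} := by
        ext x
        constructor
        · rintro ⟨ρ', hρ', m, hm⟩
          rcases Finset.mem_insert.1 hρ' with h | h
          · left
            exact ⟨m, by rw [hm, h]⟩
          · right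
            exact ⟨ρ', h, m, hm⟩
        · rintro (⟨m, hm⟩ | ⟨ρ', hρ', m, hm⟩)
          · exact ⟨ρ, Finset.mem_insert_self _ _, m, hm.symm⟩
          · exact ⟨ρ', Finset.mem_insert_of_mem hρ', m, hm⟩
      rw [h3]
      exact NWD_union (NWD_seq (v ρ) (hv.mo ρ)) ih
  obtain ⟨p', q', g1, g2, g3, g4⟩ := NWD_union h1 (h2 Finset.univ) p q hpq
  obtain ⟨i, hi1, hi2⟩ := exists_between g2
  have h5 := g4 i hi1 hi2
  refine ⟨i, lt_of_le_of_lt g1 hi1, lt_of_lt_of_le hi2 g3, fun h => h5 (Or.inl h), ?_⟩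
  intro ρ m h
  exact h5 (Or.inr ⟨ρ, Finset.mem_univ _, m, h⟩)

end Pool.Agent.EAE
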