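import Pool.Agent.EAE.TSX

/-!
EAE, module PFT (helper45): if the subsets of `ℕ` are coded by tuples in models of `T` then `T` has a perfect set of
countable models.
-/

set_option autoImplicit false
set_option linter.unusedVariables false

namespace Pool.Agent.EAE

open FirstOrder.Language Set
open scoped FirstOrder
open Pool.Agent.WOM (tp CtT PerfT Small)

/-- [PFT] uncountably many types from codes of sets of natural numbers -/
theorem thm_PFT (L : FirstOrder.Language.{0, 0}) (hL : Countable L.Symbols) (T : L.Theory) (P : ℕ)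
    (X : Set ℕ → Type) [∀ S, L.Structure (X S)] (hX : ∀ S, X S ⊨ T) (hinf : ∀ S, Infinite (X S))
    (p : ∀ S, Fin P → X S) (bit : ℕ → L.Formula (Fin P))
    (h : ∀ S t, (bit t).Realize (p S) ↔ t ∈ S) : PerfT L T := by
  classical
  have hREAL := Pool.Agent.WOM.thm_REAL Pool.Agent.WOM.thm_MEAS
  refine (Pool.Agent.WOM.thm_NSM Pool.Agent.WOM.thm_MEAS hREAL) L hL T fun hsm => ?_
  have key : ∀ S : Set ℕ, ∃ (S' : L.Structure ℕ) (q : Fin P → ℕ),
      @FirstOrder.Language.Theory.Model L ℕ S' T ∧
      ∀ t, @FirstOrder.Language.Formula.Realize L ℕ S' (Fin P) (bit t) q ↔ t ∈ S := by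
    intro S
    obtain ⟨S', i, hi, hr, hel, hmod, hreal⟩ :=
      Pool.Agent.MST.thm_CMS Pool.Agent.MST.thm_ELX L hL (X S) (hinf S) (range (p S))
        (countable_range _)
    have hq : ∀ j, ∃ u, i u = p S j := fun j => hr (mem_range_self j)
    choose q hq using hq
    refine ⟨S', q, ?_, fun t => ?_⟩
    · refine @FirstOrder.Language.Theory.Model.mk L ℕ S' _ fun χ hχ => ?_
      refine @FirstOrder.Language.Theory.realize_sentence_of_mem L ℕ S' _ hmod χ ?_
      have h2 : X S ⊨ χ := @FirstOrder.Language.Theory.realize_sentence_of_mem L (X S) _ T (hX S) χ hχ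
      exact h2
    · rw [← h S t]
      refine (hreal (Fin P) (bit t) q).trans ?_
      have e : i ∘ q = p S := funext hq
      rw [e]
  choose S' q hmod hbit using key
  have hinj : Function.Injective (fun S : Set ℕ =>
      (⟨P, @tp L ℕ (S' S) P (q S)⟩ : (n : ℕ) × Set (L.Formula (Fin n)))) := by
    intro A B hAB
    have h1 : @tp L ℕ (S' A) P (q A) = @tp L ℕ (S' B) P (q B) := by
      simpa using hAB
    ext t
    rw [← hbit A t, ← hbit B t]
    have h2 : ∀ S, @FirstOrder.Language.Formula.Realize L ℕ (S' S) (Fin P) (bit t) (q S) ↔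
        bit t ∈ @tp L ℕ (S' S) P (q S) := fun S => Iff.rfl
    rw [h2, h2, h1]
  have hc : (range (fun S : Set ℕ =>
      (⟨P, @tp L ℕ (S' S) P (q S)⟩ : (n : ℕ) × Set (L.Formula (Fin n))))).Countable := by
    refine hsm.mono ?_
    rintro _ ⟨S, rfl⟩
    exact ⟨S' S, hmod S, q S, rfl⟩
  have hc2 : Countable (Set ℕ) := by
    have := hc.to_subtype
    exact (Equiv.ofInjective _ hinj).injective.countable
  obtain ⟨f, hf⟩ := exists_surjective_nat (Set ℕ)
  exact Function.cantor_surjective f hf

end Pool.Agent.EAE
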