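import Pool.Agent.EAE.StC
import Pool.Agent.EAE.PFT

/-!
# EAE, module PFA (helper97)
-/

set_option autoImplicit false
set_option linter.unusedVariables false

namespace Pool.Agent.EAE

open FirstOrder.Language Set
open scoped FirstOrder
open Pool.Agent.WOM (tp CtT PerfT Small)

/-- [PFA] -/
theorem thm_PFA : St_PFA := by
  classical
  intro L hL T α _ θ h
  obtain ⟨q, ⟨e⟩⟩ := finite_iff_exists_equiv_fin.1 (inferInstance : Finite α)
  choose M iM p hinf hT hθ using h
  refine @thm_PFT L hL T q (fun S => M fun n => n ∈ S) (fun S => iM fun n => n ∈ S)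
    (fun S => hT _) (fun S => hinf _) (fun S k => p (fun n => n ∈ S) (e.symm k))
    (fun n => (θ n).relabel e) fun S t => ?_
  have h1 := hθ (fun n => n ∈ S) t
  rw [← h1]
  let _ := iM fun n => n ∈ S
  rw [FirstOrder.Language.Formula.realize_relabel]
  apply iff_of_eq
  congr 1
  funext i
  simp

end Pool.Agent.EAE
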