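import Pool.Agent.EAE.StC

/-!
# EAE, PRX: preservation of sentences of the form `∃* ∀ ∃* ∀*`
-/

set_option autoImplicit false

namespace Pool.Agent.EAE

open FirstOrder.Language Set
open scoped FirstOrder
open VPF (Pre)

variable {L : FirstOrder.Language.{0, 0}}

private theorem PRX_inv_nil {n : ℕ} {φ : L.BoundedFormula Empty n} (h : Pre [] φ) : φ.IsQF := by
  cases h with
  | qf h => exact h

private theorem PRX_inv_all {n : ℕ} {w : List Bool} {φ : L.BoundedFormula Empty n}
    (h : Pre (true :: w) φ) : ∃ ψ : L.BoundedFormula Empty (n + 1), φ = ψ.all ∧ Pre w ψ := by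
  cases h with
  | all h => exact ⟨_, rfl, h⟩

private theorem PRX_inv_ex {n : ℕ} {w : List Bool} {φ : L.BoundedFormula Empty n}
    (h : Pre (false :: w) φ) : ∃ ψ : L.BoundedFormula Empty (n + 1), φ = ψ.ex ∧ Pre w ψ := by
  cases h with
  | ex h => exact ⟨_, rfl, h⟩

section

variable {N : Type} [L.Structure N]

/-- witnesses in an elementary substructure -/
theorem PRX_wit {B : Set N} (hB : Elm L B) {n : ℕ} (ψ : L.BoundedFormula Empty (n + 1))
    (xs : Fin n → N) (hxs : ∀ i, xs i ∈ B)
    (h : ∃ a : N, ψ.Realize (default : Empty → N) (Fin.snoc xs a)) :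
    ∃ a ∈ B, ψ.Realize (default : Empty → N) (Fin.snoc xs a) := by
  let g : Empty ⊕ Fin (n + 1) → Fin n ⊕ Unit :=
    Sum.elim (fun e => e.elim) (Fin.snoc (α := fun _ => Fin n ⊕ Unit) Sum.inl (Sum.inr ()))
  have key : ∀ a : N, ((ψ.toFormula.relabel g : L.Formula (Fin n ⊕ Unit))).Realize
      (Sum.elim xs fun _ => a) ↔ ψ.Realize (default : Empty → N) (Fin.snoc xs a) := by
    intro a
    rw [FirstOrder.Language.Formula.realize_relabel,
      FirstOrder.Language.BoundedFormula.realize_toFormula]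
    have e1 : ((Sum.elim xs fun _ => a) ∘ g) ∘ Sum.inl = (default : Empty → N) :=
      Subsingleton.elim _ _
    have e2 : ((Sum.elim xs fun _ => a) ∘ g) ∘ Sum.inr = (Fin.snoc xs a : Fin (n + 1) → N) := by
      funext i
      refine Fin.lastCases ?_ (fun j => ?_) i
      · simp [g]
      · simp [g]
    rw [e1, e2]
  obtain ⟨a, ha⟩ := h
  obtain ⟨z, hz, hz2⟩ := hB (Fin n) (ψ.toFormula.relabel g) xs hxs ⟨a, (key a).2 ha⟩
  exact ⟨z, hz, (key z).1 hz2⟩

theorem PRX_coe {X : Set N} {n : ℕ} (xs : Fin n → X) (x : X) :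
    (fun i => ((Fin.snoc xs x : Fin (n + 1) → X) i : N)) = Fin.snoc (fun i => (xs i : N)) (x : N) := by
  funext i
  refine Fin.lastCases ?_ (fun j => ?_) i
  · simp
  · simp

/-- quantifier-free formulas -/
theorem PRX_qf (hf : ∀ n, IsEmpty (L.Functions n)) (X : Set N) {n : ℕ}
    {φ : L.BoundedFormula Empty n} (h : φ.IsQF) (xs : Fin n → X) :
    φ.Realize (default : Empty → N) (fun i => (xs i : N)) ↔
      @FirstOrder.Language.BoundedFormula.Realize L X (rs hf X) Empty n φ default xs := by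
  let _ := rs hf X
  let f : X ↪[L] N :=
    { toFun := Subtype.val
      inj' := Subtype.val_injective
      map_fun' := fun {n} g _ => (hf n).elim g
      map_rel' := fun _ _ => Iff.rfl }
  have h1 := h.realize_embedding f (v := (default : Empty → X)) (xs := xs)
  rw [← h1]
  have e1 : (f ∘ (default : Empty → X)) = (default : Empty → N) := Subsingleton.elim _ _
  rw [e1]
  rfl

/-- universal formulas -/
theorem PRX_all (hf : ∀ n, IsEmpty (L.Functions n)) (X : Set N) (k : ℕ) :
    ∀ {n : ℕ} {φ : L.BoundedFormula Empty n}, Pre (List.replicate k true) φ → ∀ xs : Fin n → X,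
      φ.Realize (default : Empty → N) (fun i => (xs i : N)) →
      @FirstOrder.Language.BoundedFormula.Realize L X (rs hf X) Empty n φ default xs := by
  induction k with
  | zero =>
    intro n φ h xs h1
    exact (PRX_qf hf X (PRX_inv_nil h) xs).1 h1
  | succ k ih =>
    intro n φ h xs h1
    rw [List.replicate_succ] at h
    obtain ⟨ψ, rfl, hψ⟩ := PRX_inv_all h
    let _ := rs hf X
    rw [FirstOrder.Language.BoundedFormula.realize_all] at h1 ⊢
    intro x
    refine ih hψ _ ?_
    rw [PRX_coe]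
    exact h1 x

/-- one more block -/
theorem PRX_exall (hf : ∀ n, IsEmpty (L.Functions n)) (X B : Set N) (hB : Elm L B) (hBX : B ⊆ X)
    (k m : ℕ) :
    ∀ {n : ℕ} {φ : L.BoundedFormula Empty n},
      Pre (List.replicate m false ++ List.replicate k true) φ → ∀ xs : Fin n → X,
      (∀ i, (xs i : N) ∈ B) → φ.Realize (default : Empty → N) (fun i => (xs i : N)) →
      @FirstOrder.Language.BoundedFormula.Realize L X (rs hf X) Empty n φ default xs := by
  induction m with
  | zero =>
    intro n φ h xs _ h1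
    exact PRX_all hf X k h xs h1
  | succ m ih =>
    intro n φ h xs hxs h1
    rw [List.replicate_succ, List.cons_append] at h
    obtain ⟨ψ, rfl, hψ⟩ := PRX_inv_ex h
    let _ := rs hf X
    rw [FirstOrder.Language.BoundedFormula.realize_ex] at h1 ⊢
    obtain ⟨a, ha, h2⟩ := PRX_wit hB ψ _ hxs h1
    refine ⟨⟨a, hBX ha⟩, ih hψ _ (fun i => ?_) ?_⟩
    · refine Fin.lastCases ?_ (fun j => ?_) i
      · simpa using ha
      · simpa using hxs j
    · rw [PRX_coe]
      exact h2

/-- the universal quantifier in front -/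
theorem PRX_e (hf : ∀ n, IsEmpty (L.Functions n)) (X B₀ : Set N) (hB₀ : Elm L B₀) (hBX : B₀ ⊆ X)
    (hX : ∀ x ∈ X, ∃ B : Set N, Elm L B ∧ B₀ ⊆ B ∧ B ⊆ X ∧ x ∈ B) (k m e : ℕ) (he : e ≤ 1)
    {n : ℕ} {φ : L.BoundedFormula Empty n}
    (h : Pre (List.replicate e true ++ (List.replicate m false ++ List.replicate k true)) φ)
    (xs : Fin n → X) (hxs : ∀ i, (xs i : N) ∈ B₀)
    (h1 : φ.Realize (default : Empty → N) (fun i => (xs i : N))) :
    @FirstOrder.Language.BoundedFormula.Realize L X (rs hf X) Empty n φ default xs := by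
  rcases Nat.le_one_iff_eq_zero_or_eq_one.1 he with rfl | rfl
  · exact PRX_exall hf X B₀ hB₀ hBX k m h xs hxs h1
  · have h' : Pre (true :: (List.replicate m false ++ List.replicate k true)) φ := h
    obtain ⟨ψ, rfl, hψ⟩ := PRX_inv_all h'
    let _ := rs hf X
    rw [FirstOrder.Language.BoundedFormula.realize_all] at h1 ⊢
    intro x
    obtain ⟨B, hB, hB0, hB1, hx⟩ := hX x.1 x.2
    refine PRX_exall hf X B hB hB1 k m hψ _ (fun i => ?_) ?_
    · refine Fin.lastCases ?_ (fun j => ?_) i
      · simpa using hx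
      · simpa using hB0 (hxs j)
    · rw [PRX_coe]
      exact h1 x

/-- the first block -/
theorem PRX_m (hf : ∀ n, IsEmpty (L.Functions n)) (X B₀ : Set N) (hB₀ : Elm L B₀) (hBX : B₀ ⊆ X)
    (hX : ∀ x ∈ X, ∃ B : Set N, Elm L B ∧ B₀ ⊆ B ∧ B ⊆ X ∧ x ∈ B) (k m e : ℕ) (he : e ≤ 1)
    (r : ℕ) : ∀ {n : ℕ} {φ : L.BoundedFormula Empty n},
      Pre (List.replicate r false ++
        (List.replicate e true ++ (List.replicate m false ++ List.replicate k true))) φ →
      ∀ xs : Fin n → X, (∀ i, (xs i : N) ∈ B₀) →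
      φ.Realize (default : Empty → N) (fun i => (xs i : N)) →
      @FirstOrder.Language.BoundedFormula.Realize L X (rs hf X) Empty n φ default xs := by
  induction r with
  | zero =>
    intro n φ h xs hxs h1
    exact PRX_e hf X B₀ hB₀ hBX hX k m e he h xs hxs h1
  | succ r ih =>
    intro n φ h xs hxs h1
    rw [List.replicate_succ, List.cons_append] at h
    obtain ⟨ψ, rfl, hψ⟩ := PRX_inv_ex h
    let _ := rs hf X
    rw [FirstOrder.Language.BoundedFormula.realize_ex] at h1 ⊢
    obtain ⟨a, ha, h2⟩ := PRX_wit hB₀ ψ _ hxs h1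
    refine ⟨⟨a, hBX ha⟩, ih hψ _ (fun i => ?_) ?_⟩
    · refine Fin.lastCases ?_ (fun j => ?_) i
      · simpa using ha
      · simpa using hxs j
    · rw [PRX_coe]
      exact h2

end

theorem thm_PRX : St_PRX := by
  intro L N _ hf X B₀ hB₀ hBX hX φ w hw hE hN
  obtain ⟨m, e, n, k, he, rfl⟩ := hE
  have h1 : FirstOrder.Language.BoundedFormula.Realize φ (default : Empty → N)
      (fun i => (((default : Fin 0 → X) i : X) : N)) := by
    have e1 : (fun i => (((default : Fin 0 → X) i : X) : N)) = (default : Fin 0 → N) :=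
      Subsingleton.elim _ _
    rw [e1]
    exact hN
  exact PRX_m hf X B₀ hB₀ hBX hX k n e he m hw default (fun i => i.elim0) h1

end Pool.Agent.EAE
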