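import Pool.Agent.EAE.StB

/-!
# EAE, TT2: the meaning of an arbitrary word (Lean: helper15)
-/

set_option autoImplicit false
set_option linter.unusedVariables false

namespace Pool.Agent.EAE

open FirstOrder.Language Set
open scoped FirstOrder
open Pool.Agent.AAD (Gam Fx ls St su Ctx UD)

/-- the vertices determine their numbers -/
theorem TT2_inj {a b : ℚ} {R : ℕ} {v : Fin R → ℕ → ℚ} (h : Vt a b v) {ρ ρ' : Fin R} {m m' : ℕ}
    (e : v ρ m = v ρ' m') : m = m' := by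
  have h1 : ρ = ρ' := by
    rcases lt_trichotomy ρ ρ' with h1 | h1 | h1
    · exact absurd e (h.zo ρ ρ' m m' h1).ne
    · exact h1
    · exact absurd e.symm (h.zo ρ' ρ m' m h1).ne
  subst h1
  rcases lt_trichotomy m m' with h1 | h1 | h1
  · exact absurd e (h.mo ρ m m' h1).ne
  · exact h1
  · exact absurd e.symm (h.mo ρ m' m h1).ne

/-- **TT2** -/
theorem thm_TT2 (hAB2 : St_AB2) (hBAD : St_BAD) : St_TT2 := by
  intro L N _ _ hf π ι φ G₀ W c a b l r g R v hS H G hG s w hw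
  have hfin := hS.fin
  obtain ⟨B, hB, hB2⟩ := hBAD N π G ι a b R v hS.vt s w hw
  obtain ⟨r₀, hr₀⟩ := hS.mc.po s
  refine ⟨B, hB, ?_⟩
  by_cases hex : ∃ (ρ₁ : Fin R) (m₁ : ℕ), Tch π s (w r₀) (v s ρ₁ m₁)
  · obtain ⟨ρ₁, m₁, h1⟩ := hex
    refine ⟨m₁, fun ρ hρ m m' hD hD' => ?_⟩
    obtain ⟨ρ₂, m₂, h2, h3⟩ := hAB2 L N hf π ι φ G₀ W c a b l r g R v hS H G hG s w hw ρ m m'
      (fun r' μ _ h => hB2 ρ hρ m m' r' μ h) hD hD'
    have h4 := (hw r₀).1 s _ _ h1 (h2 r₀ hr₀)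
    have h5 := TT2_inj (hS.vt s) h4
    rw [h5]
    exact h3
  · refine ⟨0, fun ρ hρ m m' hD hD' => ?_⟩
    obtain ⟨ρ₂, m₂, h2, h3⟩ := hAB2 L N hf π ι φ G₀ W c a b l r g R v hS H G hG s w hw ρ m m'
      (fun r' μ _ h => hB2 ρ hρ m m' r' μ h) hD hD'
    exact absurd ⟨ρ₂, m₂, h2 r₀ hr₀⟩ hex

end Pool.Agent.EAE
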