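import Pool.Agent.EAE.StB
import Pool.Agent.UNS.Base

/-!
# EAE, module TWT: the blocks touched by the true words
-/

set_option autoImplicit false
set_option linter.unusedVariables false

namespace Pool.Agent.EAE

open FirstOrder.Language Set
open scoped FirstOrder
open Pool.Agent.AAD (Gam Fx ls St su Ctx UD)

theorem TWT_inj {s s' : Bool} {i i' : ℚ} (h : bk s i = bk s' i') : s = s' ∧ i = i' := by
  unfold bk at h
  have h1 := toLex.injective h
  rw [Prod.mk.injEq] at h1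
  refine ⟨?_, h1.2⟩
  revert h1
  cases s <;> cases s' <;> simp

theorem TWT_btw {π : ℚ → Lam} (hb : Blk π) {s : Bool} {a b l r x : ℚ} (hl : π l = bk s a)
    (hr : π r = bk s b) (h1 : l < x) (h2 : x < r) : ∃ i, π x = bk s i ∧ a ≤ i ∧ i ≤ b := by
  have m1 : bk s a ≤ π x := by
    rw [← hl]
    exact hb.mono h1.le
  have m2 : π x ≤ bk s b := by
    rw [← hr]
    exact hb.mono h2.le
  rcases hb.cov x with ⟨c, hc⟩ | ⟨s', i, hi⟩
  · exfalso
    rw [hc] at m1 m2
    unfold bk fr at m1 m2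
    rw [Prod.Lex.toLex_le_toLex] at m1 m2
    cases s
    · fin_cases c <;> simp [Fin.lt_def, Fin.ext_iff] at m1 m2
    · fin_cases c <;> simp [Fin.lt_def, Fin.ext_iff] at m1 m2
  · rw [hi] at m1 m2
    unfold bk at m1 m2
    rw [Prod.Lex.toLex_le_toLex] at m1 m2
    refine ⟨i, ?_⟩
    cases s <;> cases s'
    · simp at m1 m2
      exact ⟨hi, m1, m2⟩
    · simp [Fin.lt_def, Fin.ext_iff] at m1 m2
    · simp [Fin.lt_def, Fin.ext_iff] at m1 m2
    · simp at m1 m2
      exact ⟨hi, m1, m2⟩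

section

variable {L : FirstOrder.Language.{0, 0}} {N : Type} [L.Structure N] [MulAction Gam N]
  {hf : ∀ n, IsEmpty (L.Functions n)} {π : ℚ → Lam} {ι : Type} {φ : L.Formula (ι ⊕ Unit)}
  {G₀ : ℚ → ℚ → Prop} {W : ι → N} {c a b l r : Bool → ℚ} {g : Bool → ℚ → Gam} {R : ℕ}
  {v : Bool → Fin R → ℕ → ℚ}

theorem TWT_in (S : Sys hf π φ G₀ W c a b l r g v) {s : Bool} {r' : ι} {x : ℚ}
    (hx : x ∈ su (W r')) (h : x ∈ Ioo (l s) (r s)) : π x = bk s (c s) := by
  obtain ⟨i, hi, h1, h2⟩ := TWT_btw S.blk (S.lo s) (S.hi s) h.1 h.2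
  by_cases hc : i = c s
  · rw [← hc]
    exact hi
  · exfalso
    rcases S.fa s r' i ⟨x, hx, hi⟩ hc with h3 | h3
    · linarith
    · linarith

theorem TWT_out (S : Sys hf π φ G₀ W c a b l r g v) {s : Bool} {r' : ι} {x i : ℚ}
    (hx : x ∈ su (W r')) (h : π x ≠ bk s (c s)) : g s i x = x := by
  refine S.ou s i x fun h1 => h ?_
  exact TWT_in S hx h1

theorem TWT_tch (S : Sys hf π φ G₀ W c a b l r g v) (s s' : Bool) (i j : ℚ) (r' : ι) :
    Tch π s' (g s i • W r') j ↔ ∃ x ∈ su (W r'), π (g s i x) = bk s' j := by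
  unfold Tch
  rw [Pool.Agent.UNS.su_act S.ctx]
  constructor
  · rintro ⟨y, hy, h⟩
    obtain ⟨x, hx, rfl⟩ := Finset.mem_image.1 hy
    exact ⟨x, hx, h⟩
  · rintro ⟨x, hx, h⟩
    exact ⟨_, Finset.mem_image_of_mem _ hx, h⟩

end

theorem thm_TWT : St_TWT := by
  intro L N _ _ hf π ι φ G₀ W c a b l r g R v S
  have hmv : ∀ s ρ m r', ∀ x ∈ su (W r'), π x = bk s (c s) →
      π (g s (v s ρ m) x) = bk s (v s ρ m) := fun s ρ m r' x hx h =>
    S.mv s _ ((S.vt s).rg ρ m).1 ((S.vt s).rg ρ m).2 r' x hx h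
  refine ⟨?_, ?_, ?_, ?_⟩
  · intro s ρ m r' h
    refine Pool.Agent.UNS.su_fix S.ctx fun x hx => ?_
    exact TWT_out S hx fun h1 => h ⟨x, hx, h1⟩
  · intro s ρ m r' h j
    unfold tw
    rw [TWT_tch S]
    constructor
    · rintro ⟨x, hx, h1⟩
      by_cases h2 : π x = bk s (c s)
      · rw [hmv s ρ m r' x hx h2] at h1
        exact (TWT_inj h1).2.symm
      · exfalso
        rw [TWT_out S hx h2] at h1
        apply h2
        rw [h1, (S.mc.cr.mem r').1 s j (c s) ⟨x, hx, h1⟩ h]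
    · rintro rfl
      obtain ⟨x, hx, h1⟩ := h
      exact ⟨x, hx, hmv s ρ m r' x hx h1⟩
  · intro s ρ m r' j
    unfold tw
    rw [TWT_tch S]
    have key : ∀ x ∈ su (W r'), (π (g s (v s ρ m) x) = bk (!s) j ↔ π x = bk (!s) j) := by
      intro x hx
      by_cases h2 : π x = bk s (c s)
      · rw [hmv s ρ m r' x hx h2, h2]
        constructor
        · intro h3
          have := (TWT_inj h3).1
          cases s <;> simp at this
        · intro h3
          have := (TWT_inj h3).1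
          cases s <;> simp at this
      · rw [TWT_out S hx h2]
    constructor
    · rintro ⟨x, hx, h1⟩
      exact ⟨x, hx, (key x hx).1 h1⟩
    · rintro ⟨x, hx, h1⟩
      exact ⟨x, hx, (key x hx).2 h1⟩
  · rintro r' ⟨h1, h2⟩
    exact S.mc.cr.na ((S.mc.cr.mem r').2 _ _ h1 h2)

end Pool.Agent.EAE
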