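import Pool.Agent.EAE.StC

/-!
# EAE, module TYP (helper97)
-/

set_option autoImplicit false
set_option linter.unusedVariables false

namespace Pool.Agent.EAE

open FirstOrder.Language Set
open scoped FirstOrder
open Pool.Agent.AAD (Gam Fx ls St su Ctx)
open Pool.Agent.WOM (tp Small CtT PerfT)
open VPF (Pre)

/-- the touched blocks are finitely many -/
theorem TYP_fin {N : Type} [MulAction Gam N] (π : ℚ → Lam) {ι : Type} [Finite ι] (W : ι → N) (s : Bool) :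
    {μ | Nm π W s μ}.Finite := by
  classical
  refine Set.Finite.subset (Set.finite_iUnion (fun r : ι =>
    ((su (W r)).finite_toSet.image fun q => (ofLex (π q)).2))) ?_
  rintro μ ⟨r, q, hq, h⟩
  refine mem_iUnion.2 ⟨r, q, hq, ?_⟩
  show (ofLex (π q)).2 = μ
  rw [h]
  rfl

/-- [TYP] -/
theorem thm_TYP (hBLX : St_BLX) (hCRX : St_CRX) (hMCX : St_MCX) (hSYX : St_SYX) (hGEX : St_GEX) (hAB0 : St_AB0)
    (hBTS : St_BTS) (hFMB : St_FMB) (hX0E : St_X0E) (hMDL : St_MDL) (hINF : St_INF) (hPFA : St_PFA) : St_TYP := by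
  intro L hL hf T hT N _ _ _ hC hNT hz
  obtain ⟨π, hπ⟩ := hBLX
  obtain ⟨ι, _, φ, G1, W1, c1, hcr⟩ := hCRX L N hf hC π hπ hz
  obtain ⟨G₀, W, c, hmc⟩ := hMCX L N hf hC π hπ ι φ ⟨G1, W1, c1, hcr⟩
  obtain ⟨a, b, l, r, g, v, hS⟩ := hSYX L N hf hC π hπ ι φ G₀ W c hmc (Nat.card ι * (Nat.card ι + 2) + 1)
  obtain ⟨θ, hθ⟩ := hFMB L N hf π ι φ G₀ W c a b l r g _ v hS (Nat.card ι)
  obtain ⟨x₀, hx₀⟩ := hX0E L N hC π hπ
  refine hPFA L hL T _ θ fun S => ?_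
  obtain ⟨G, hG⟩ := hGEX G₀ c a b (Nm π W) _ v hS.vt (TYP_fin π W)
    (fun s μ hμ hne => by
      obtain ⟨r', hr'⟩ := hμ
      exact hS.fa s r' μ hr' hne) (HS S)
  have hx : x₀ ∈ (XG π G : Set N) :=
    ⟨fun s i i' h _ => absurd h (hx₀ s i), fun i j h _ => absurd h (hx₀ false i)⟩
  refine ⟨(XG π G : Set N), rs hf _, pt W g v G ⟨x₀, hx⟩, hINF L N hC π hπ G,
    hMDL L N hf hC π hπ T hT hNT G, fun n => ?_⟩
  have h1 := hθ G hG.gd (hAB0 L N hf π ι φ G₀ W c a b l r g _ v hS (HS S) G hG).2 ⟨x₀, hx⟩ n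
  have h2 := hBTS L N hf π ι φ G₀ W c a b l r g _ v hS (Nat.lt_succ_self _) S G hG ⟨x₀, hx⟩ n
  exact h1.trans h2

end Pool.Agent.EAE
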