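import Pool.Agent.EAE.StC

/-!
# EAE UDE: the bits are definable
-/

set_option autoImplicit false
set_option linter.unusedVariables false

namespace Pool.Agent.EAE

open FirstOrder.Language Set
open scoped FirstOrder
open Pool.Agent.AAD (Gam Fx ls St su Ctx UD UD_congr UD_sub UD_eq UD_not UD_imp UD_and UD_iff UD_const
  UD_all UD_fin UD_fex)

section

variable {B : FirstOrder.Language.{0, 0}} {J : Type} {X : J → Type} {S : ∀ j, B.Structure (X j)}
  {ι : Type} {R : ℕ}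

/-- the relation given by the parameters -/
private def UDE_D (Q : ∀ j, (ι → X j) → (ι → X j) → (ι → X j) → Prop) (j : J)
    (x : (Bool × Fin R × Fin 4 × ι) ⊕ ι → X j) (w u : ι → X j) : Prop :=
  Q j w u fun i => x (Sum.inr i)

/-- the true words given by the parameters -/
private def UDE_t (j : J) (x : (Bool × Fin R × Fin 4 × ι) ⊕ ι → X j) (s : Bool) (ρ : Fin R) (m : ℕ) :
    ι → X j := fun i => x (Sum.inl (s, ρ, (⟨m % 4, Nat.mod_lt _ (by decide)⟩ : Fin 4), i))

private theorem UDE_adj (K : ℕ) {β : Type} {E : Fin R → Fin R → ∀ j, (β → X j) → Prop}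
    (h : ∀ ρ σ, UD B X S β (E ρ σ)) : UD B X S β fun j y => Adj K fun ρ σ => E ρ σ j y := by
  refine UD_congr (UD_fex (I := {A : Fin R → Fin R → Prop // Adj K A}) fun A =>
    UD_fin fun ρ => UD_fin fun σ => UD_iff (h ρ σ) (UD_const (A.1 ρ σ))) fun j y => ?_
  constructor
  · rintro ⟨A, hA⟩
    have e : (fun ρ σ => E ρ σ j y) = A.1 := by
      funext ρ σ
      exact propext (hA ρ σ)
    rw [e]
    exact A.2
  · intro hA
    exact ⟨⟨_, hA⟩, fun ρ σ => Iff.rfl⟩

variable (Q : ∀ j, (ι → X j) → (ι → X j) → (ι → X j) → Prop)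

private theorem UDE_ad
    (hQ : UD B X S ((ι ⊕ ι) ⊕ ι) (fun j x => Q j (fun i => x (Sum.inl (Sum.inl i)))
      (fun i => x (Sum.inl (Sum.inr i))) fun i => x (Sum.inr i)))
    {β : Type} (pv : (Bool × Fin R × Fin 4 × ι) ⊕ ι → β) (wv uv : ι → β) (s : Bool) :
    UD B X S β fun j y => ad (UDE_D Q j fun p => y (pv p)) s (fun i => y (wv i)) fun i => y (uv i) := by
  cases s
  · exact UD_sub hQ (Sum.elim (Sum.elim wv uv) fun i => pv (Sum.inr i))
  · exact UD_sub hQ (Sum.elim (Sum.elim uv wv) fun i => pv (Sum.inr i))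

private theorem UDE_WW [Finite ι] (K : ℕ)
    (hQ : UD B X S ((ι ⊕ ι) ⊕ ι) (fun j x => Q j (fun i => x (Sum.inl (Sum.inl i)))
      (fun i => x (Sum.inl (Sum.inr i))) fun i => x (Sum.inr i))) (n : ℕ) :
    ∀ (β : Type) (pv : (Bool × Fin R × Fin 4 × ι) ⊕ ι → β) (wv : Fin R × ι → β),
    UD B X S β fun j y => (fun ρ i => y (wv (ρ, i))) ∈
      WW K (UDE_D Q j fun p => y (pv p)) (UDE_t j fun p => y (pv p)) n := by
  induction n with
  | zero =>
    intro β pv wv
    refine UD_congr (UD_fin fun ρ : Fin R => UD_fin fun i : ι => UD_eq (wv (ρ, i))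
      (pv (Sum.inl (false, ρ, (⟨3 % 4, Nat.mod_lt _ (by decide)⟩ : Fin 4), i)))) fun j y => ?_
    constructor
    · intro h ρ
      funext i
      exact h ρ i
    · intro h ρ i
      exact congrFun (h ρ) i
  | succ n ih =>
    intro β pv wv
    have h1 : UD B X S β fun j y => ∀ ρ σ : Fin R,
        ad (UDE_D Q j fun p => y (pv p)) (sd (n + 1)) (fun i => y (wv (ρ, i)))
          (fun i => y (pv (Sum.inl (!sd (n + 1), σ,
            (⟨cl (n + 1) % 4, Nat.mod_lt _ (by decide)⟩ : Fin 4), i)))) ∧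
        ¬ ad (UDE_D Q j fun p => y (pv p)) (sd (n + 1)) (fun i => y (wv (ρ, i)))
          (fun i => y (pv (Sum.inl (!sd (n + 1), σ,
            (⟨(1 - cl (n + 1)) % 4, Nat.mod_lt _ (by decide)⟩ : Fin 4), i)))) :=
      UD_fin fun ρ => UD_fin fun σ => UD_and
        (UDE_ad Q hQ pv (fun i => wv (ρ, i)) _ _) (UD_not (UDE_ad Q hQ pv (fun i => wv (ρ, i)) _ _))
    have h2 : UD B X S (β ⊕ (Fin R × ι)) fun j z =>
        ((fun ρ i => z (Sum.inr (ρ, i))) ∈
          WW K (UDE_D Q j fun p => z (Sum.inl (pv p))) (UDE_t j fun p => z (Sum.inl (pv p))) n) →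
        Adj K fun ρ σ => ad (UDE_D Q j fun p => z (Sum.inl (pv p))) (sd n)
          (fun i => z (Sum.inr (ρ, i))) fun i => z (Sum.inl (wv (σ, i))) :=
      UD_imp (ih _ (fun p => Sum.inl (pv p)) Sum.inr)
        (UDE_adj K fun ρ σ => UDE_ad Q hQ (fun p => Sum.inl (pv p)) (fun i => Sum.inr (ρ, i))
          (fun i => Sum.inl (wv (σ, i))) (sd n))
    refine UD_congr (UD_and h1 (UD_all h2)) fun j y => ?_
    constructor
    · rintro ⟨g1, g2⟩
      exact ⟨g1, fun w hw => g2 (fun p => w p.1 p.2) hw⟩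
    · rintro ⟨g1, g2⟩
      exact ⟨g1, fun w hw => g2 (fun ρ i => w (ρ, i)) hw⟩

end

theorem thm_UDE : St_UDE := by
  intro B J X S ι _ Q K R hQ n
  have h2 : UD B X S (((Bool × Fin R × Fin 4 × ι) ⊕ ι) ⊕ (Fin R × ι)) fun j z =>
      ((fun ρ i => z (Sum.inr (ρ, i))) ∈
        WW K (UDE_D Q j fun p => z (Sum.inl p)) (UDE_t j fun p => z (Sum.inl p)) (2 * n)) →
      Adj K fun ρ σ => ad (UDE_D Q j fun p => z (Sum.inl p)) false
        (fun i => z (Sum.inr (ρ, i)))
        fun i => z (Sum.inl (Sum.inl (true, σ, (⟨2 % 4, Nat.mod_lt _ (by decide)⟩ : Fin 4), i))) :=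
    UD_imp (UDE_WW Q K hQ (2 * n) _ (fun p => Sum.inl p) Sum.inr)
      (UDE_adj K fun ρ σ => UDE_ad Q hQ (fun p => Sum.inl p) (fun i => Sum.inr (ρ, i)) _ false)
  refine UD_congr (UD_all h2) fun j y => ?_
  constructor
  · intro g w hw
    exact g (fun p => w p.1 p.2) hw
  · intro g w hw
    exact g (fun ρ i => w (ρ, i)) hw

end Pool.Agent.EAE
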