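import Pool.Agent.EAE.StA

/-!
# EAE, VCR (helper23)
-/

set_option autoImplicit false
set_option linter.unusedVariables false

namespace Pool.Agent.EAE

open FirstOrder.Language Set
open scoped FirstOrder
open Pool.Agent.AAD (Gam Fx ls St su Ctx)

theorem thm_VCR (hXFR : St_XFR) (hVPC : St_VPC) (hGCO : St_GCO) : St_VCR := by
  intro L N _ _ hf hC π hπ α β _ _ φ ψ d e z l r l' r' h h' hVP hφ hψ
  obtain ⟨W, w1, w2, w3, w4⟩ := hVPC L N hC π hπ α β φ ψ d e z l r l' r' h h' hVP (fun _ => 0)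
  obtain ⟨G, g1, g2, g3, g4, g5⟩ := hGCO L N π _ (xf φ ψ) W w1 w2 w3 w4
  exact ⟨_, inferInstance, xf φ ψ, G, W, fun _ => 0, ⟨g1, (hXFR L α β φ ψ).2 N hf π hφ hψ, g3, g2, g4, g5⟩⟩

end Pool.Agent.EAE
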