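import Pool.Agent.EAE.StA
import Pool.Agent.UNS.VIS
import Pool.Agent.UNS.LOC
import Pool.Agent.UNS.EMB

/-!
EAE, module VIP (helper45): two visible points give a visible pair.
-/

set_option autoImplicit false
set_option linter.unusedVariables false

namespace Pool.Agent.EAE

open FirstOrder.Language Set
open scoped FirstOrder
open Pool.Agent.AAD (Gam Fx ls St su Ctx)
open Pool.Agent.UNS (Tr vs ext su_fix su_min su_act su_eq inv2)

section

variable {L : FirstOrder.Language.{0, 0}} {N : Type} [L.Structure N] [MulAction Gam N]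

/-- the data for one visible point: the move is in an interval contained in `Ioo a b` -/
theorem VIP_one (hC : Ctx L N) (z : N) (p : ℚ) (hp : p ∈ vs L z) (a b : ℚ) (ha : a < p)
    (hb : p < b) : ∃ (H : Type) (_ : Finite H) (θ : L.Formula (H ⊕ Unit)) (d : H → N) (l r : ℚ)
      (h : Gam), a ≤ l ∧ r ≤ b ∧ (∀ i, (su (d i)).card ≤ 1) ∧ (∀ x, x ∉ Ioo l r → h x = x) ∧
      ¬ (θ.Realize (Sum.elim d fun _ => z) ↔ θ.Realize (Sum.elim d fun _ => h • z)) := by
  classical
  obtain ⟨hv1, -, hv3⟩ := Pool.Agent.UNS.thm_VIS L N hC z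
  obtain ⟨g, hg, hT⟩ := hv3 p hp
  have hpz : p ∈ su z := hv1 hp
  -- the formula
  have hT' : ∃ (H : Type) (_ : Finite H) (θ : L.Formula (H ⊕ Unit)) (d : H → N),
      (∀ i, (su (d i)).card ≤ 1) ∧
      ¬ (θ.Realize (Sum.elim d fun _ => g • z) ↔ θ.Realize (Sum.elim d fun _ => z)) := by
    by_contra hcon
    refine hT fun H iH θ d hd => ?_
    by_contra h1
    exact hcon ⟨H, iH, θ, d, hd, h1⟩
  obtain ⟨H, iH, θ, d, hd, hθ⟩ := hT'
  have hgp : g p ≠ p := by
    intro h1
    have h2 : g • z = z := su_fix hC fun x hx => by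
      by_cases hxp : x = p
      · rw [hxp, h1]
      · exact hg x hx hxp
    rw [h2] at hθ
    exact hθ Iff.rfl
  -- the new interval and the new position
  have key : ∃ (l r q : ℚ) (τ : Gam), a ≤ l ∧ r ≤ b ∧ p ∈ Ioo l r ∧ q ∈ Ioo l r ∧
      (∀ x ∈ su z, x ∈ Ioo l r → x = p) ∧ (∀ x ∈ su z, τ x = x) ∧ τ (g p) = q := by
    rcases lt_or_gt_of_ne hgp with h1 | h1
    · -- `g p < p`
      have hno : ∀ x ∈ su z, x < p → x < g p := by
        intro x hx hxp
        have h2 := g.lt_iff_lt.2 hxp
        rwa [hg x hx hxp.ne] at h2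
      obtain ⟨q, hq1, hq2⟩ := exists_between (max_lt ha h1)
      obtain ⟨τ, hτ⟩ := ext (insert (g p) (su z)) (fun x => if x = g p then q else x) (by
        intro x hx y hy hxy
        by_cases hxg : x = g p
        · have hyg : y ≠ g p := fun h => by rw [hxg, h] at hxy; exact lt_irrefl _ hxy
          rw [if_pos hxg, if_neg hyg]
          have hys := (Finset.mem_insert.1 hy).resolve_left hyg
          have h2 : p ≤ y := by
            by_contra h3
            have := hno y hys (not_le.1 h3)
            rw [hxg] at hxy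
            exact absurd (hxy.trans this) (lt_irrefl _)
          exact hq2.trans_le h2
        · rw [if_neg hxg]
          by_cases hyg : y = g p
          · rw [if_pos hyg]
            rw [hyg] at hxy
            exact hxy.trans ((le_max_right _ _).trans_lt hq1)
          · rw [if_neg hyg]
            exact hxy)
      have hgz : g p ∉ su z := fun h2 => absurd (hno _ h2 h1) (lt_irrefl _)
      refine ⟨max a (g p), (insert b ((su z).filter (p < ·))).min' (Finset.insert_nonempty _ _),
        q, τ, le_max_left _ _, Finset.min'_le _ _ (Finset.mem_insert_self _ _), ⟨max_lt ha h1, ?_⟩,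
        ⟨hq1, hq2.trans ?_⟩, ?_, ?_, ?_⟩
      · refine (Finset.lt_min'_iff _ _).2 fun x hx => ?_
        rcases Finset.mem_insert.1 hx with rfl | hx
        · exact hb
        · exact (Finset.mem_filter.1 hx).2
      · refine (Finset.lt_min'_iff _ _).2 fun x hx => ?_
        rcases Finset.mem_insert.1 hx with rfl | hx
        · exact hb
        · exact (Finset.mem_filter.1 hx).2
      · intro x hx hx2
        rcases lt_trichotomy x p with h2 | h2 | h2
        · exact absurd ((hno x hx h2).trans_le (le_max_right a _)) (not_lt.2 hx2.1.le)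
        · exact h2
        · exact absurd (Finset.min'_le _ x (Finset.mem_insert_of_mem (Finset.mem_filter.2 ⟨hx, h2⟩)))
            (not_le.2 hx2.2)
      · intro x hx
        rw [hτ x (Finset.mem_insert_of_mem hx), if_neg]
        rintro rfl
        exact hgz hx
      · rw [hτ _ (Finset.mem_insert_self _ _), if_pos rfl]
    · -- `p < g p`
      have hno : ∀ x ∈ su z, p < x → g p < x := by
        intro x hx hxp
        have h2 := g.lt_iff_lt.2 hxp
        rwa [hg x hx hxp.ne'] at h2
      obtain ⟨q, hq1, hq2⟩ := exists_between (lt_min hb h1)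
      obtain ⟨τ, hτ⟩ := ext (insert (g p) (su z)) (fun x => if x = g p then q else x) (by
        intro x hx y hy hxy
        by_cases hxg : x = g p
        · have hyg : y ≠ g p := fun h => by rw [hxg, h] at hxy; exact lt_irrefl _ hxy
          rw [if_pos hxg, if_neg hyg]
          rw [hxg] at hxy
          exact (hq2.trans_le (min_le_right _ _)).trans hxy
        · rw [if_neg hxg]
          by_cases hyg : y = g p
          · rw [if_pos hyg]
            have hxs := (Finset.mem_insert.1 hx).resolve_left hxg
            have h2 : x ≤ p := by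
              by_contra h3
              have := hno x hxs (not_le.1 h3)
              rw [hyg] at hxy
              exact absurd (hxy.trans this) (lt_irrefl _)
            exact h2.trans_lt hq1
          · rw [if_neg hyg]
            exact hxy)
      have hgz : g p ∉ su z := fun h2 => absurd (hno _ h2 h1) (lt_irrefl _)
      refine ⟨(insert a ((su z).filter (· < p))).max' (Finset.insert_nonempty _ _), min b (g p),
        q, τ, Finset.le_max' _ _ (Finset.mem_insert_self _ _), min_le_left _ _, ⟨?_, lt_min hb h1⟩,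
        ⟨lt_trans ?_ hq1, hq2⟩, ?_, ?_, ?_⟩
      · refine (Finset.max'_lt_iff _ _).2 fun x hx => ?_
        rcases Finset.mem_insert.1 hx with rfl | hx
        · exact ha
        · exact (Finset.mem_filter.1 hx).2
      · refine (Finset.max'_lt_iff _ _).2 fun x hx => ?_
        rcases Finset.mem_insert.1 hx with rfl | hx
        · exact ha
        · exact (Finset.mem_filter.1 hx).2
      · intro x hx hx2
        rcases lt_trichotomy x p with h2 | h2 | h2
        · exact absurd (Finset.le_max' _ x (Finset.mem_insert_of_mem (Finset.mem_filter.2 ⟨hx, h2⟩)))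
            (not_le.2 hx2.1)
        · exact h2
        · exact absurd ((min_le_right b _).trans_lt (hno x hx h2)) (not_lt.2 hx2.2.le)
      · intro x hx
        rw [hτ x (Finset.mem_insert_of_mem hx), if_neg]
        rintro rfl
        exact hgz hx
      · rw [hτ _ (Finset.mem_insert_self _ _), if_pos rfl]
  obtain ⟨l, r, q, τ, hal, hrb, hpI, hqI, hno, hτ, hτg⟩ := key
  obtain ⟨h, h1, h2⟩ := Pool.Agent.UNS.thm_LOC Pool.Agent.UNS.thm_EMB l r {p} (fun _ => q)
    (fun x hx => by rw [Finset.mem_singleton.1 hx]; exact hpI) (fun _ _ => hqI)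
    (fun x hx y hy hxy => by
      rw [Finset.mem_singleton.1 hx, Finset.mem_singleton.1 hy] at hxy
      exact absurd hxy (lt_irrefl _))
  have e1 : τ • z = z := su_fix hC hτ
  have e2 : h • z = τ • g • z := by
    rw [← mul_smul]
    refine su_eq hC fun x hx => ?_
    by_cases hxp : x = p
    · rw [hxp, h1 p (Finset.mem_singleton_self _)]
      exact hτg.symm
    · rw [h2 x fun h3 => hxp (hno x hx h3)]
      show x = τ (g x)
      rw [hg x hx hxp, hτ x hx]
  refine ⟨H, iH, θ, fun i => τ • d i, l, r, h, hal, hrb, fun i => ?_, h2, ?_⟩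
  · rw [su_act hC]
    exact Finset.card_image_le.trans (hd i)
  · intro h3
    apply hθ
    have h4 := inv2 hC θ τ d (fun _ => z)
    have h5 := inv2 hC θ τ d (fun _ => g • z)
    rw [e1] at h4
    rw [← e2] at h5
    exact (h5.symm.trans h3.symm).trans h4

end

/-- [VIP] -/
theorem thm_VIP : St_VIP := by
  classical
  intro L N _ _ hC z hz
  have hpp : ∃ p ∈ vs L z, ∃ p' ∈ vs L z, p < p' := by
    obtain ⟨p, hp, p', hp', hne⟩ := Finset.one_lt_card.1 (show 1 < (vs L z).card from hz)
    rcases lt_or_gt_of_ne hne with h | h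
    · exact ⟨p, hp, p', hp', h⟩
    · exact ⟨p', hp', p, hp, h⟩
  obtain ⟨p, hp, p', hp', hpp'⟩ := hpp
  obtain ⟨m, hm1, hm2⟩ := exists_between hpp'
  obtain ⟨α, iα, φ, d, l, r, h, h1, h2, h3, h4, h5⟩ :=
    VIP_one hC z p hp (p - 1) m (by linarith) hm1
  obtain ⟨β, iβ, ψ, e, l', r', h', h1', h2', h3', h4', h5'⟩ :=
    VIP_one hC z p' hp' m (p' + 1) hm2 (by linarith)
  have hone : ∀ {x : N}, (su x).card ≤ 1 → (∃ a ∈ su x, a ∈ Ioo l r) → ¬ ∃ a ∈ su x, a ∈ Ioo l' r' := by
    rintro x hx ⟨a, ha, hal⟩ ⟨b, hb, hbl⟩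
    have hab : a = b := Finset.card_le_one.1 hx a ha b hb
    rw [hab] at hal
    exact absurd (hal.2.trans_le (h2.trans h1')) (not_lt.2 hbl.1.le)
  exact ⟨α, β, iα, iβ, φ, ψ, d, e, l, r, l', r', h, h',
    ⟨h2.trans h1', h4, h4', h5, h5', fun i => hone (h3 i), fun i => hone (h3' i)⟩⟩

end Pool.Agent.EAE
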