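import Pool.Agent.EAE.StA
import Pool.Agent.UNS.Base

/-!
# EAE, module VPC: the words of a visible pair
-/

set_option autoImplicit false
set_option linter.unusedVariables false

namespace Pool.Agent.EAE

open FirstOrder.Language Set
open scoped FirstOrder
open Pool.Agent.AAD (Gam Fx ls St su Ctx)
open Pool.Agent.UNS (ext su_fix su_act su_eq inv2)

theorem VPC_bk {s s' : Bool} {i j : ℚ} (h : bk s i = bk s' j) : s = s' ∧ i = j := by
  unfold bk at h
  rw [toLex_inj, Prod.mk.injEq] at h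
  refine ⟨?_, h.2⟩
  rcases s with _ | _ <;> rcases s' with _ | _ <;> first | rfl | (exact absurd h.1 (by decide))

theorem VPC_fr {c : Fin 3} {s : Bool} {i : ℚ} (h : fr c = bk s i) : False := by
  unfold fr bk at h
  rw [toLex_inj, Prod.mk.injEq] at h
  have h1 := h.1
  have h2 := congrArg Fin.val h1
  rcases s with _ | _
  · simp only [Bool.false_eq_true, if_false] at h2
    have : ((1 : Fin 5) : ℕ) = 1 := rfl
    omega
  · simp only [if_true] at h2
    have : ((3 : Fin 5) : ℕ) = 3 := rfl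
    omega

/-- the target part of a point -/
noncomputable def VPC_f (l r l' r' : ℚ) (c : Bool → ℚ) (a : ℚ) : Lam :=
  if a ≤ l then fr 0 else if a < r then bk false (c false) else if a ≤ l' then fr 1 else
    if a < r' then bk true (c true) else fr 2

theorem VPC_mono {l r l' r' : ℚ} (h1 : l < r) (h2 : r ≤ l') (h3 : l' < r') (c : Bool → ℚ) :
    Monotone (VPC_f l r l' r' c) := by
  have e0 : ∀ i, fr 0 < bk false i := fun i => by
    unfold fr bk
    rw [Prod.Lex.toLex_lt_toLex]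
    left
    show (0 : Fin 5) < 1
    decide
  have e1 : ∀ i, bk false i < fr 1 := fun i => by
    unfold fr bk
    rw [Prod.Lex.toLex_lt_toLex]
    left
    show (1 : Fin 5) < 2
    decide
  have e2 : ∀ i, fr 1 < bk true i := fun i => by
    unfold fr bk
    rw [Prod.Lex.toLex_lt_toLex]
    left
    show (2 : Fin 5) < 3
    decide
  have e3 : ∀ i, bk true i < fr 2 := fun i => by
    unfold fr bk
    rw [Prod.Lex.toLex_lt_toLex]
    left
    show (3 : Fin 5) < 4
    decide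
  have a0 := e0 (c false)
  have a1 := e1 (c false)
  have a2 := e2 (c true)
  have a3 := e3 (c true)
  intro a b hab
  unfold VPC_f
  split_ifs <;> first
    | exact le_rfl
    | (exfalso; linarith)
    | exact a0.le
    | exact (a0.trans a1).le
    | exact (a0.trans (a1.trans a2)).le
    | exact (a0.trans (a1.trans (a2.trans a3))).le
    | exact a1.le
    | exact (a1.trans a2).le
    | exact (a1.trans (a2.trans a3)).le
    | exact a2.le
    | exact (a2.trans a3).le
    | exact a3.le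

theorem VPC_f_ex {l r l' r' : ℚ} {c : Bool → ℚ} {π : ℚ → Lam} (hπ : Blk π) (a : ℚ) :
    ∃ x, π x = VPC_f l r l' r' c a := by
  unfold VPC_f
  split_ifs
  · exact hπ.nef 0
  · exact hπ.neb _ _
  · exact hπ.nef 1
  · exact hπ.neb _ _
  · exact hπ.nef 2

theorem VPC_f_bk {l r l' r' : ℚ} {c : Bool → ℚ} {a : ℚ} {s : Bool} {j : ℚ}
    (h : VPC_f l r l' r' c a = bk s j) : j = c s := by
  unfold VPC_f at h
  split_ifs at h
  · exact (VPC_fr h).elim
  · obtain ⟨rfl, h2⟩ := VPC_bk h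
    exact h2.symm
  · exact (VPC_fr h).elim
  · obtain ⟨rfl, h2⟩ := VPC_bk h
    exact h2.symm
  · exact (VPC_fr h).elim

theorem VPC_f_false {l r l' r' : ℚ} (h1 : l < r) (h2 : r ≤ l') (h3 : l' < r') {c : Bool → ℚ} {a : ℚ} :
    VPC_f l r l' r' c a = bk false (c false) ↔ a ∈ Ioo l r := by
  constructor
  · intro h
    unfold VPC_f at h
    split_ifs at h with g1 g2 g3 g4
    · exact (VPC_fr h).elim
    · exact ⟨not_le.1 g1, g2⟩
    · exact (VPC_fr h).elim
    · exact absurd (VPC_bk h).1 (by decide)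
    · exact (VPC_fr h).elim
  · rintro ⟨g1, g2⟩
    unfold VPC_f
    rw [if_neg (not_le.2 g1), if_pos g2]

theorem VPC_f_true {l r l' r' : ℚ} (h1 : l < r) (h2 : r ≤ l') (h3 : l' < r') {c : Bool → ℚ} {a : ℚ} :
    VPC_f l r l' r' c a = bk true (c true) ↔ a ∈ Ioo l' r' := by
  constructor
  · intro h
    unfold VPC_f at h
    split_ifs at h with g1 g2 g3 g4
    · exact (VPC_fr h).elim
    · exact absurd (VPC_bk h).1 (by decide)
    · exact (VPC_fr h).elim
    · exact ⟨not_le.1 g3, g4⟩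
    · exact (VPC_fr h).elim
  · rintro ⟨g1, g2⟩
    unfold VPC_f
    rw [if_neg (not_le.2 (by linarith)), if_neg (not_lt.2 (by linarith)), if_neg (not_le.2 g1), if_pos g2]

/-- `h` preserves the interval outside which it is the identity -/
theorem VPC_in {I : Set ℚ} {h : Gam} (hI : ∀ x, x ∉ I → h x = x) {x : ℚ} (hx : x ∈ I) : h x ∈ I := by
  by_contra hc
  have h1 := hI _ hc
  have h2 := h.injective h1
  rw [h2] at hc
  exact hc hx

theorem VPC_inv_out {I : Set ℚ} {h : Gam} (hI : ∀ x, x ∉ I → h x = x) : ∀ x, x ∉ I → (h⁻¹ : Gam) x = x := by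
  intro x hx
  have h1 := hI x hx
  have h2 : (h⁻¹ : Gam) (h x) = x := h.symm_apply_apply x
  rwa [h1] at h2

section

variable {L : FirstOrder.Language.{0, 0}} {N : Type} [L.Structure N] [MulAction Gam N]

/-- moving the points of the part `P` of the parameters only -/
theorem VPC_mv (hC : Ctx L N) {π : ℚ → Lam} (hm : Monotone π) {α : Type} [Finite α]
    (φ : L.Formula (α ⊕ Unit)) (d : α → N) (h g : Gam) (I : Set ℚ) (P : Lam) (z' : N)
    (hI : ∀ x, x ∉ I → h x = x) (hP : ∀ i, ∀ a ∈ su (d i), π (g a) = P ↔ a ∈ I)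
    (hP2 : ∀ i, ∀ a ∈ su (d i), a ∈ I → π (g ((h⁻¹ : Gam) a)) = P) (hz : ∀ x ∈ su z', π x ≠ P) :
    φ.Realize (Sum.elim (fun i => g • d i) fun _ => z') ↔
      φ.Realize (Sum.elim (fun i => g • (h⁻¹ : Gam) • d i) fun _ => z') := by
  classical
  have := Fintype.ofFinite α
  obtain ⟨A, hA⟩ : ∃ A : Finset ℚ, A = su z' ∪ Finset.univ.biUnion fun i => su (g • d i) := ⟨_, rfl⟩
  obtain ⟨m, hmd⟩ : ∃ m : ℚ → ℚ, m = fun x => if π x = P then (g * h⁻¹ * g⁻¹ : Gam) x else x := ⟨_, rfl⟩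
  have m1 : ∀ x, π x = P → m x = (g * h⁻¹ * g⁻¹ : Gam) x := fun x hx => by rw [hmd]; exact if_pos hx
  have m2 : ∀ x, π x ≠ P → m x = x := fun x hx => by rw [hmd]; exact if_neg hx
  have key : ∀ a, (g * h⁻¹ * g⁻¹ : Gam) (g a) = g ((h⁻¹ : Gam) a) := by
    intro a
    show g ((h⁻¹ : Gam) ((g⁻¹ : Gam) (g a))) = _
    have : (g⁻¹ : Gam) (g a) = a := g.symm_apply_apply a
    rw [this]
  have m3 : ∀ x ∈ A, π x = P → π (m x) = P := by
    intro x hx hxP
    rw [hA, Finset.mem_union] at hx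
    rcases hx with hx | hx
    · exact absurd hxP (hz x hx)
    · obtain ⟨i, -, hi⟩ := Finset.mem_biUnion.1 hx
      rw [su_act hC] at hi
      obtain ⟨a, ha, rfl⟩ := Finset.mem_image.1 hi
      rw [m1 _ hxP, key]
      exact hP2 i a ha ((hP i a ha).1 hxP)
  obtain ⟨γ, hγ⟩ := ext A m (by
    intro x hx y hy hxy
    by_cases hxP : π x = P
    · by_cases hyP : π y = P
      · rw [m1 _ hxP, m1 _ hyP]
        exact (g * h⁻¹ * g⁻¹ : Gam).lt_iff_lt.2 hxy
      · rw [m2 _ hyP]
        by_contra hc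
        have h1 : π y ≤ P := by
          rw [← m3 x hx hxP]
          exact hm (not_lt.1 hc)
        have h2 : P ≤ π y := by
          rw [← hxP]
          exact hm hxy.le
        exact hyP (le_antisymm h1 h2)
    · by_cases hyP : π y = P
      · rw [m2 _ hxP]
        by_contra hc
        have h1 : P ≤ π x := by
          rw [← m3 y hy hyP]
          exact hm (not_lt.1 hc)
        have h2 : π x ≤ P := by
          rw [← hyP]
          exact hm hxy.le
        exact hxP (le_antisymm h2 h1)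
      · rw [m2 _ hxP, m2 _ hyP]
        exact hxy)
  have g1 : γ • z' = z' := by
    refine su_fix hC fun a ha => ?_
    rw [hγ a (by rw [hA]; exact Finset.mem_union_left _ ha), m2 a (hz a ha)]
  have g2 : ∀ i, γ • (g • d i) = g • (h⁻¹ : Gam) • d i := by
    intro i
    have e : g • (h⁻¹ : Gam) • d i = (g * h⁻¹ * g⁻¹ : Gam) • (g • d i) := by
      rw [smul_smul, smul_smul]
      congr 1
      group
    rw [e]
    refine su_eq hC fun x hx => ?_
    rw [hγ x (by rw [hA]; exact Finset.mem_union_right _ (Finset.mem_biUnion.2 ⟨i, Finset.mem_univ i, hx⟩))]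
    rw [su_act hC] at hx
    obtain ⟨a, ha, rfl⟩ := Finset.mem_image.1 hx
    by_cases hxP : π (g a) = P
    · exact m1 _ hxP
    · rw [m2 _ hxP, key, VPC_inv_out hI a fun hc => hxP ((hP i a ha).2 hc)]
  have h1 := inv2 hC φ γ (fun i => g • d i) fun _ => z'
  have e1 : (fun i => γ • (g • d i)) = fun i => g • (h⁻¹ : Gam) • d i := funext g2
  have e2 : (fun _ : Unit => γ • z') = fun _ => z' := funext fun _ => g1
  rw [e1, e2] at h1
  exact h1.symm

end

theorem thm_VPC (hMVP : St_MVP) (hXFR : St_XFR) : St_VPC := by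
  classical
  intro L N _ _ hC π hπ α β _ _ φ ψ d e z l r l' r' h h' hV c
  have := Fintype.ofFinite α
  have := Fintype.ofFinite β
  have hl : l < r := by
    by_contra hc
    have h1 : h • z = z := su_fix hC fun a _ => hV.ou a fun ha => hc (ha.1.trans ha.2)
    apply hV.df
    rw [h1]
  have hl' : l' < r' := by
    by_contra hc
    have h1 : h' • z = z := su_fix hC fun a _ => hV.ou' a fun ha => hc (ha.1.trans ha.2)
    apply hV.df'
    rw [h1]
  obtain ⟨F, hF⟩ : ∃ F : Finset ℚ, F = su z ∪ (Finset.univ.biUnion fun i => su (d i)) ∪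
      (Finset.univ.biUnion fun i => su ((h⁻¹ : Gam) • d i)) ∪ (Finset.univ.biUnion fun i => su (e i)) ∪
      (Finset.univ.biUnion fun i => su ((h'⁻¹ : Gam) • e i)) := ⟨_, rfl⟩
  have hmono := VPC_mono hl hV.rl hl' c
  obtain ⟨g, -, hg⟩ := hMVP π hπ ∅ F 1 (VPC_f l r l' r' c) (fun a _ b _ hab => hmono hab)
    (fun a ha => absurd ha (Finset.notMem_empty a)) fun a _ => VPC_f_ex hπ a
  have Fz : ∀ a ∈ su z, a ∈ F := fun a ha => by
    rw [hF]; simp only [Finset.mem_union]; left; left; left; left; exact ha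
  have Fd : ∀ i, ∀ a ∈ su (d i), a ∈ F := fun i a ha => by
    rw [hF]; simp only [Finset.mem_union]; left; left; left; right
    exact Finset.mem_biUnion.2 ⟨i, Finset.mem_univ i, ha⟩
  have Fd2 : ∀ i, ∀ a ∈ su ((h⁻¹ : Gam) • d i), a ∈ F := fun i a ha => by
    rw [hF]; simp only [Finset.mem_union]; left; left; right
    exact Finset.mem_biUnion.2 ⟨i, Finset.mem_univ i, ha⟩
  have Fe : ∀ i, ∀ a ∈ su (e i), a ∈ F := fun i a ha => by
    rw [hF]; simp only [Finset.mem_union]; left; right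
    exact Finset.mem_biUnion.2 ⟨i, Finset.mem_univ i, ha⟩
  have Fe2 : ∀ i, ∀ a ∈ su ((h'⁻¹ : Gam) • e i), a ∈ F := fun i a ha => by
    rw [hF]; simp only [Finset.mem_union]; right
    exact Finset.mem_biUnion.2 ⟨i, Finset.mem_univ i, ha⟩
  -- touching
  have tch : ∀ x : N, (∀ a ∈ su x, a ∈ F) → ∀ s j, Tch π s (g • x) j → j = c s := by
    rintro x hx s j ⟨b, hb, hbj⟩
    rw [su_act hC] at hb
    obtain ⟨a, ha, rfl⟩ := Finset.mem_image.1 hb
    rw [hg a (hx a ha)] at hbj
    exact VPC_f_bk hbj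
  have tch0 : ∀ x : N, (∀ a ∈ su x, a ∈ F) → Tch π false (g • x) (c false) →
      ∃ a ∈ su x, a ∈ Ioo l r := by
    rintro x hx ⟨b, hb, hbj⟩
    rw [su_act hC] at hb
    obtain ⟨a, ha, rfl⟩ := Finset.mem_image.1 hb
    rw [hg a (hx a ha)] at hbj
    exact ⟨a, ha, (VPC_f_false hl hV.rl hl').1 hbj⟩
  have tch1 : ∀ x : N, (∀ a ∈ su x, a ∈ F) → Tch π true (g • x) (c true) →
      ∃ a ∈ su x, a ∈ Ioo l' r' := by
    rintro x hx ⟨b, hb, hbj⟩
    rw [su_act hC] at hb
    obtain ⟨a, ha, rfl⟩ := Finset.mem_image.1 hb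
    rw [hg a (hx a ha)] at hbj
    exact ⟨a, ha, (VPC_f_true hl hV.rl hl').1 hbj⟩
  have disj : ∀ a, a ∈ Ioo l r → a ∉ Ioo l' r' := fun a ha hc => by
    have h1 := ha.2
    have h2 := hc.1
    have h3 := hV.rl
    linarith
  -- points of the supports of the moved words
  have pre : ∀ (k : Gam) (x : N), ∀ a ∈ su ((k⁻¹ : Gam) • x), k a ∈ su x := by
    intro k x a ha
    rw [su_act hC] at ha
    obtain ⟨b, hb, rfl⟩ := Finset.mem_image.1 ha
    have : k ((k⁻¹ : Gam) b) = b := k.apply_symm_apply b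
    rwa [this]
  refine ⟨Sum.elim (Sum.elim (fun i => g • d i) fun i => g • (h⁻¹ : Gam) • d i)
    (Sum.elim (fun i => g • e i) fun i => g • (h'⁻¹ : Gam) • e i), ?_, ?_, ?_, ?_⟩
  · rintro ((i | i) | (i | i)) s j ht
    · exact tch _ (Fd i) s j ht
    · exact tch _ (Fd2 i) s j ht
    · exact tch _ (Fe i) s j ht
    · exact tch _ (Fe2 i) s j ht
  · rintro ((i | i) | (i | i)) ⟨t0, t1⟩
    · exact hV.sp i (tch0 _ (Fd i) t0) (tch1 _ (Fd i) t1)
    · obtain ⟨a, ha, ha'⟩ := tch0 _ (Fd2 i) t0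
      obtain ⟨b, hb, hb'⟩ := tch1 _ (Fd2 i) t1
      refine hV.sp i ⟨h a, pre h _ a ha, VPC_in hV.ou ha'⟩ ⟨h b, pre h _ b hb, ?_⟩
      rw [hV.ou b fun hc => disj b hc hb']
      exact hb'
    · exact hV.sp' i (tch0 _ (Fe i) t0) (tch1 _ (Fe i) t1)
    · obtain ⟨a, ha, ha'⟩ := tch0 _ (Fe2 i) t0
      obtain ⟨b, hb, hb'⟩ := tch1 _ (Fe2 i) t1
      refine hV.sp' i ⟨h' a, pre h' _ a ha, ?_⟩ ⟨h' b, pre h' _ b hb, VPC_in hV.ou' hb'⟩
      rw [hV.ou' a (disj a ha')]
      exact ha'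
  · intro z' hz' s
    obtain ⟨n1, n2⟩ := ((hXFR L α β φ ψ).1 N _ _ _ _ z').1 hz'
    by_contra hs
    rcases s with _ | _
    · apply n1
      refine VPC_mv hC hπ.mono φ d h g (Ioo l r) (bk false (c false)) z' hV.ou (fun i a ha => ?_)
        (fun i a ha ha' => ?_) fun x hx hc => hs ⟨x, hx, hc⟩
      · rw [hg a (Fd i a ha)]
        exact VPC_f_false hl hV.rl hl'
      · have h1 : (h⁻¹ : Gam) a ∈ Ioo l r := VPC_in (VPC_inv_out hV.ou) ha'
        have h2 : (h⁻¹ : Gam) a ∈ F := Fd2 i _ (by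
          rw [su_act hC]
          exact Finset.mem_image_of_mem _ ha)
        rw [hg _ h2]
        exact (VPC_f_false hl hV.rl hl').2 h1
    · apply n2
      refine VPC_mv hC hπ.mono ψ e h' g (Ioo l' r') (bk true (c true)) z' hV.ou' (fun i a ha => ?_)
        (fun i a ha ha' => ?_) fun x hx hc => hs ⟨x, hx, hc⟩
      · rw [hg a (Fe i a ha)]
        exact VPC_f_true hl hV.rl hl'
      · have h1 : (h'⁻¹ : Gam) a ∈ Ioo l' r' := VPC_in (VPC_inv_out hV.ou') ha'
        have h2 : (h'⁻¹ : Gam) a ∈ F := Fe2 i _ (by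
          rw [su_act hC]
          exact Finset.mem_image_of_mem _ ha)
        rw [hg _ h2]
        exact (VPC_f_true hl hV.rl hl').2 h1
  · refine ⟨g • z, ((hXFR L α β φ ψ).1 N _ _ _ _ (g • z)).2 ⟨?_, ?_⟩, tch z Fz⟩
    · have h1 := inv2 hC φ g d fun _ => z
      have h2 := inv2 hC φ g (fun i => (h⁻¹ : Gam) • d i) fun _ => z
      have h3 := inv2 hC φ h (fun i => (h⁻¹ : Gam) • d i) fun _ => z
      have e1 : (fun i => h • (h⁻¹ : Gam) • d i) = d := funext fun i => smul_inv_smul h (d i)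
      rw [e1] at h3
      rw [h1, h2, ← h3]
      exact hV.df
    · have h1 := inv2 hC ψ g e fun _ => z
      have h2 := inv2 hC ψ g (fun i => (h'⁻¹ : Gam) • e i) fun _ => z
      have h3 := inv2 hC ψ h' (fun i => (h'⁻¹ : Gam) • e i) fun _ => z
      have e1 : (fun i => h' • (h'⁻¹ : Gam) • e i) = e := funext fun i => smul_inv_smul h' (e i)
      rw [e1] at h3
      rw [h1, h2, ← h3]
      exact hV.df'

end Pool.Agent.EAE
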