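import Pool.Agent.EAE.StB

/-!
# EAE: positions of the vertices (helper18)
-/

set_option autoImplicit false

namespace Pool.Agent.EAE

private theorem VTX_frac (m : ℕ) : 0 < (1 : ℚ) / (m + 2) ∧ (1 : ℚ) / (m + 2) < 1 := by
  have h : (0 : ℚ) < m + 2 := by positivity
  refine ⟨by positivity, ?_⟩
  rw [div_lt_one h]
  have : (0 : ℚ) ≤ m := Nat.cast_nonneg m
  linarith

private theorem VTX_lt {a b c x y : ℚ} (hab : a < b) (hc : 0 < c) (h : x < y) :
    a + (b - a) * x / c < a + (b - a) * y / c := by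
  have h1 : (b - a) * x / c < (b - a) * y / c :=
    div_lt_div_of_pos_right (mul_lt_mul_of_pos_left h (by linarith)) hc
  linarith

theorem thm_VTX : St_VTX := by
  intro a b hab R
  rcases Nat.eq_zero_or_pos R with h0 | h0
  · subst h0
    refine ⟨fun ρ => ρ.elim0, ⟨fun ρ => ρ.elim0, fun ρ => ρ.elim0, fun ρ => ρ.elim0⟩⟩
  · have hR : (0 : ℚ) < R := by exact_mod_cast h0
    refine ⟨fun ρ m => a + (b - a) * ((ρ.1 : ℚ) + 1 - 1 / (m + 2)) / R, ⟨?_, ?_, ?_⟩⟩
    · intro ρ m
      obtain ⟨f0, f1⟩ := VTX_frac m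
      have hρ : (0 : ℚ) ≤ ρ.1 := Nat.cast_nonneg _
      have hρ' : ((ρ.1 : ℚ)) + 1 ≤ R := by exact_mod_cast ρ.2
      constructor
      · have h1 : 0 < (b - a) * ((ρ.1 : ℚ) + 1 - 1 / (m + 2)) / R := by
          refine div_pos (mul_pos (by linarith) (by linarith)) hR
        linarith
      · have h1 := VTX_lt (a := a) (b := b) (c := (R : ℚ))
          (x := (ρ.1 : ℚ) + 1 - 1 / (m + 2)) (y := R) hab hR (by linarith)
        have h2 : (b - a) * (R : ℚ) / R = b - a := by
          rw [mul_div_assoc, div_self hR.ne', mul_one]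
        rw [h2] at h1
        linarith
    · intro ρ ρ' m m' h
      refine VTX_lt hab hR ?_
      obtain ⟨f0, f1⟩ := VTX_frac m
      obtain ⟨g0, g1⟩ := VTX_frac m'
      have hρ : ((ρ.1 : ℚ)) + 1 ≤ ρ'.1 := by
        have : ρ.1 + 1 ≤ ρ'.1 := h
        exact_mod_cast this
      linarith
    · intro ρ m m' h
      refine VTX_lt hab hR ?_
      have h1 : (1 : ℚ) / (m' + 2) < 1 / (m + 2) := by
        have hm : (m : ℚ) < m' := by exact_mod_cast h
        exact one_div_lt_one_div_of_lt (by positivity) (by linarith)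
      linarith

end Pool.Agent.EAE
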