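import Pool.Agent.EAE.StC

/-!
# EAE, WRD: words without the subword `∀ ∀ ∃` (Lean: helper15)
-/

set_option autoImplicit false
set_option linter.unusedVariables false

namespace Pool.Agent.EAE

theorem WRD_0 : ∀ w : List Bool, ¬ List.Sublist [false] w → w = List.replicate w.length true := by
  intro w
  induction w with
  | nil => intro _; rfl
  | cons a w ih =>
    intro h
    have h1 : ¬ List.Sublist [false] w := fun hc => h (hc.trans (List.sublist_cons_self a w))
    have h2 := ih h1
    cases a with
    | false => exact absurd ((List.nil_sublist w).cons_cons false) h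
    | true =>
      show true :: w = true :: List.replicate w.length true
      rw [← h2]

theorem WRD_1 : ∀ w : List Bool, ¬ List.Sublist [true, false] w →
    ∃ n k : ℕ, w = List.replicate n false ++ List.replicate k true := by
  intro w
  induction w with
  | nil => intro _; exact ⟨0, 0, rfl⟩
  | cons a w ih =>
    intro h
    cases a with
    | false =>
      obtain ⟨n, k, hw⟩ := ih fun hc => h (hc.trans (List.sublist_cons_self false w))
      exact ⟨n + 1, k, by rw [hw]; rfl⟩
    | true =>
      have h1 := WRD_0 w fun hc => h (hc.cons_cons true)
      refine ⟨0, w.length + 1, ?_⟩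
      show true :: w = true :: List.replicate w.length true
      rw [← h1]

/-- **WRD** -/
theorem thm_WRD : St_WRD := by
  intro w
  induction w with
  | nil => intro _; exact ⟨0, 0, 0, 0, Nat.zero_le _, rfl⟩
  | cons a w ih =>
    intro h
    cases a with
    | false =>
      obtain ⟨m, e, n, k, he, hw⟩ := ih fun hc => h (hc.trans (List.sublist_cons_self false w))
      exact ⟨m + 1, e, n, k, he, by rw [hw]; rfl⟩
    | true =>
      obtain ⟨n, k, hw⟩ := WRD_1 w fun hc => h (hc.cons_cons true)
      exact ⟨0, 1, n, k, le_rfl, by rw [hw]; rfl⟩

end Pool.Agent.EAE
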