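import Pool.Agent.EAE.StC

/-!
EAE, module WWC (helper45): `WW` and `Bit` use only the vertices `0, 1, 2, 3` of `t`.
-/

set_option autoImplicit false
set_option linter.unusedVariables false

namespace Pool.Agent.EAE

/-- [WWC] -/
theorem thm_WWC : St_WWC := by
  intro X K R D t t' h n
  have hc : ∀ n, cl n < 4 := fun n => by unfold cl; omega
  have hc' : ∀ n, 1 - cl n < 4 := fun n => by omega
  have key : ∀ n, WW K D t n = WW K D t' n := by
    intro n
    induction n with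
    | zero =>
      ext u
      show (∀ ρ, u ρ = t false ρ 3) ↔ ∀ ρ, u ρ = t' false ρ 3
      simp only [h false _ 3 (by norm_num)]
    | succ n ih =>
      ext u
      show ((∀ ρ σ, ad D (sd (n + 1)) (u ρ) (t (!sd (n + 1)) σ (cl (n + 1))) ∧
          ¬ ad D (sd (n + 1)) (u ρ) (t (!sd (n + 1)) σ (1 - cl (n + 1)))) ∧
          ∀ w ∈ WW K D t n, Adj K fun ρ σ => ad D (sd n) (w ρ) (u σ)) ↔
        ((∀ ρ σ, ad D (sd (n + 1)) (u ρ) (t' (!sd (n + 1)) σ (cl (n + 1))) ∧
          ¬ ad D (sd (n + 1)) (u ρ) (t' (!sd (n + 1)) σ (1 - cl (n + 1)))) ∧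
          ∀ w ∈ WW K D t' n, Adj K fun ρ σ => ad D (sd n) (w ρ) (u σ))
      rw [ih]
      simp only [h _ _ _ (hc (n + 1)), h _ _ _ (hc' (n + 1))]
  show (∀ w ∈ WW K D t (2 * n), Adj K fun ρ σ => D (w ρ) (t true σ 2)) ↔
    ∀ w ∈ WW K D t' (2 * n), Adj K fun ρ σ => D (w ρ) (t' true σ 2)
  rw [key]
  simp only [h true _ 2 (by norm_num)]

end Pool.Agent.EAE
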