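import Pool.Agent.EAE.StC

/-!
EAE, module X0E: an element which touches no block.
-/

set_option autoImplicit false
set_option linter.unusedVariables false

namespace Pool.Agent.EAE

open FirstOrder.Language Set
open scoped FirstOrder
open Pool.Agent.AAD (Gam Fx ls St su Ctx)

lemma X0E_ne (c : Fin 3) (s : Bool) (i : ℚ) : fr c ≠ bk s i := by
  intro h
  have h1 : ((⟨2 * c.1, by omega⟩ : Fin 5), (0 : ℚ)) = ((if s then 3 else 1 : Fin 5), i) := h
  have h2 := congrArg Prod.fst h1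
  have h3 := congrArg Fin.val h2
  cases s
  · have h4 : 2 * c.1 = 1 := h3
    omega
  · have h4 : 2 * c.1 = 3 := h3
    omega

/-- [X0E] -/
theorem thm_X0E (hM : St_MVP) : St_X0E := by
  intro L N _ _ _ hC π hπ
  obtain ⟨z⟩ := (inferInstance : Nonempty N)
  obtain ⟨h, -, h2⟩ := hM π hπ ∅ (su z) 1 (fun _ => fr 0) (fun _ _ _ _ _ => le_rfl)
    (fun a ha => absurd ha (Finset.notMem_empty a)) (fun a _ => hπ.nef 0)
  refine ⟨h • z, fun s i hT => ?_⟩
  obtain ⟨a, ha, hai⟩ := hT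
  rw [Pool.Agent.UNS.su_act hC h z, Finset.mem_image] at ha
  obtain ⟨b, hb, rfl⟩ := ha
  rw [h2 b hb] at hai
  exact X0E_ne 0 s i hai

end Pool.Agent.EAE
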