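import Pool.Agent.EAE.StA

/-!
# EAE, XFR (helper23)
-/

set_option autoImplicit false
set_option linter.unusedVariables false

namespace Pool.Agent.EAE

open FirstOrder.Language Set
open scoped FirstOrder
open Pool.Agent.AAD (Gam Fx ls St su Ctx)

theorem XFR_one {L : FirstOrder.Language.{0, 0}} {α β : Type} (φ : L.Formula (α ⊕ Unit)) (ψ : L.Formula (β ⊕ Unit))
    (M : Type) [L.Structure M] (v : ((α ⊕ α) ⊕ (β ⊕ β)) ⊕ Unit → M) :
    (xf φ ψ).Realize v ↔
      ¬ (φ.Realize (Sum.elim (fun i => v (Sum.inl (Sum.inl (Sum.inl i)))) fun i => v (Sum.inr i)) ↔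
        φ.Realize (Sum.elim (fun i => v (Sum.inl (Sum.inl (Sum.inr i)))) fun i => v (Sum.inr i))) ∧
      ¬ (ψ.Realize (Sum.elim (fun i => v (Sum.inl (Sum.inr (Sum.inl i)))) fun i => v (Sum.inr i)) ↔
        ψ.Realize (Sum.elim (fun i => v (Sum.inl (Sum.inr (Sum.inr i)))) fun i => v (Sum.inr i))) := by
  unfold xf
  rw [Formula.realize_inf, Formula.realize_not, Formula.realize_not, Formula.realize_iff, Formula.realize_iff,
    Formula.realize_relabel, Formula.realize_relabel, Formula.realize_relabel, Formula.realize_relabel]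
  have e1 : ∀ {γ : Type} (g : γ → (α ⊕ α) ⊕ (β ⊕ β)),
      v ∘ Sum.map g id = Sum.elim (fun i => v (Sum.inl (g i))) fun i => v (Sum.inr i) := by
    intro γ g
    funext i
    cases i <;> rfl
  rw [e1, e1, e1, e1]

theorem thm_XFR : St_XFR := by
  intro L α β φ ψ
  refine ⟨fun M _ d₁ d₂ e₁ e₂ z => XFR_one φ ψ M _, ?_⟩
  intro N _ _ hf π hφ hψ G hG v
  have h1 := @XFR_one L α β φ ψ (XG π G) (rs hf (XG π G)) v
  have h2 := XFR_one φ ψ N fun i => (v i).1
  have key : ∀ {γ : Type} (χ : L.Formula (γ ⊕ Unit)), Abs hf N π χ → ∀ d : γ → (XG π G : Set N),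
      (@Formula.Realize L (XG π G) (rs hf (XG π G)) _ χ (Sum.elim d fun i => v (Sum.inr i)) ↔
        χ.Realize (Sum.elim (fun i => (d i).1) fun i => (v (Sum.inr i)).1)) := by
    intro γ χ hχ d
    have h3 := hχ G hG (Sum.elim d fun i => v (Sum.inr i))
    have e2 : (fun i => (Sum.elim d (fun i => v (Sum.inr i)) i).1) =
        Sum.elim (fun i => (d i).1) fun i => (v (Sum.inr i)).1 := by
      funext i
      cases i <;> rfl
    rw [e2] at h3
    exact h3
  rw [key φ hφ, key φ hφ, key ψ hψ, key ψ hψ] at h1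
  exact h1.trans h2.symm

end Pool.Agent.EAE
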