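import Pool.Agent.EAE.BLX
import Pool.Agent.EAE.MVP
import Pool.Agent.EAE.LCL
import Pool.Agent.EAE.EDG
import Pool.Agent.EAE.XFR
import Pool.Agent.EAE.VPC
import Pool.Agent.EAE.GCO
import Pool.Agent.EAE.VCR
import Pool.Agent.EAE.VIP
import Pool.Agent.EAE.AIF
import Pool.Agent.EAE.FAI
import Pool.Agent.EAE.CLM
import Pool.Agent.EAE.CRX
import Pool.Agent.EAE.MCX
import Pool.Agent.EAE.VTX
import Pool.Agent.EAE.NWD
import Pool.Agent.EAE.GEX
import Pool.Agent.EAE.SYX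
import Pool.Agent.EAE.TWT
import Pool.Agent.EAE.AB0
import Pool.Agent.EAE.AB1
import Pool.Agent.EAE.MV2
import Pool.Agent.EAE.AB2
import Pool.Agent.EAE.BAD
import Pool.Agent.EAE.TT2
import Pool.Agent.EAE.HSF
import Pool.Agent.EAE.CNT
import Pool.Agent.EAE.DEC
import Pool.Agent.EAE.BTS
import Pool.Agent.EAE.UDE
import Pool.Agent.EAE.WWC
import Pool.Agent.EAE.FMB
import Pool.Agent.EAE.X0E
import Pool.Agent.EAE.ELB
import Pool.Agent.EAE.PRX
import Pool.Agent.EAE.MDL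
import Pool.Agent.EAE.INF
import Pool.Agent.EAE.PFA
import Pool.Agent.EAE.TYP
import Pool.Agent.EAE.MAI
import Pool.Agent.EAE.WRD

/-!
# EAE/All (helper97): the modules put together; unconditional
-/

set_option autoImplicit false

namespace Pool.Agent.EAE

theorem a_BLX : St_BLX := thm_BLX
theorem a_MVP : St_MVP := thm_MVP
theorem a_LCL : St_LCL := thm_LCL a_MVP
theorem a_EDG : St_EDG := thm_EDG a_LCL
theorem a_XFR : St_XFR := thm_XFR
theorem a_VPC : St_VPC := thm_VPC a_MVP a_XFR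
theorem a_GCO : St_GCO := thm_GCO
theorem a_VCR : St_VCR := thm_VCR a_XFR a_VPC a_GCO
theorem a_VIP : St_VIP := thm_VIP
theorem a_AIF : St_AIF := thm_AIF
theorem a_FAI : St_FAI := thm_FAI a_XFR a_VPC a_GCO a_VIP a_AIF
theorem a_CLM : St_CLM := thm_CLM
theorem a_CRX : St_CRX := thm_CRX a_EDG a_VCR a_FAI a_CLM
theorem a_MCX : St_MCX := thm_MCX a_LCL
theorem a_VTX : St_VTX := thm_VTX
theorem a_NWD : St_NWD := thm_NWD
theorem a_GEX : St_GEX := thm_GEX a_NWD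
theorem a_SYX : St_SYX := thm_SYX a_VTX a_MVP
theorem a_TWT : St_TWT := thm_TWT
theorem a_AB0 : St_AB0 := thm_AB0 a_TWT
theorem a_AB1 : St_AB1 := thm_AB1 a_LCL a_TWT
theorem a_MV2 : St_MV2 := thm_MV2 a_TWT
theorem a_AB2 : St_AB2 := thm_AB2 a_LCL a_EDG a_TWT a_AB0 a_MV2
theorem a_BAD : St_BAD := thm_BAD
theorem a_TT2 : St_TT2 := thm_TT2 a_AB2 a_BAD
theorem a_HSF : St_HSF := thm_HSF
theorem a_CNT : St_CNT := thm_CNT
theorem a_DEC : St_DEC := thm_DEC a_HSF a_CNT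
theorem a_BTS : St_BTS := thm_BTS a_TWT a_AB0 a_AB1 a_TT2 a_DEC
theorem a_UDE : St_UDE := thm_UDE
theorem a_WWC : St_WWC := thm_WWC
theorem a_FMB : St_FMB := thm_FMB a_UDE a_WWC a_TWT
theorem a_X0E : St_X0E := thm_X0E a_MVP
theorem a_ELB : St_ELB := thm_ELB a_MVP
theorem a_PRX : St_PRX := thm_PRX
theorem a_MDL : St_MDL := thm_MDL a_X0E a_ELB a_PRX
theorem a_INF : St_INF := thm_INF a_X0E a_ELB
theorem a_PFA : St_PFA := thm_PFA
theorem a_TYP : St_TYP := thm_TYP a_BLX a_CRX a_MCX a_SYX a_GEX a_AB0 a_BTS a_FMB a_X0E a_MDL a_INF a_PFA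
theorem a_MAI : St_MAI := thm_MAI a_TYP
theorem a_WRD : St_WRD := thm_WRD

/-- Vaught's conjecture for all theories with axioms of the form `∃* ∀ ∃* ∀*` (relational languages) -/
theorem thm_MAI_all : St_MAI := a_MAI

end Pool.Agent.EAE
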