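import Pool.Agent.EAE.StA
import Pool.Agent.EAE.MOV

/-!
# EAE, module BLX: block maps exist
-/

set_option autoImplicit false

namespace Pool.Agent.EAE

theorem thm_BLX : St_BLX := by
  let A : Type := {l : Lam // (∃ c, l = fr c) ∨ ∃ s i, l = bk s i}
  have i1 : Countable Lam := inferInstanceAs (Countable (Fin 5 × ℚ))
  have i2 : Countable A := Subtype.countable
  have i3 : Nonempty A := ⟨⟨fr 0, Or.inl ⟨0, rfl⟩⟩⟩
  obtain ⟨π, hπ⟩ := thm_PIX A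
  refine ⟨fun x => (π x).1, ?_, ?_, ?_, ?_, ?_, ?_⟩
  · intro x y hxy
    exact hπ.mono hxy
  · intro x
    obtain ⟨y, hy, h⟩ := hπ.up x
    exact ⟨y, hy, congrArg Subtype.val h⟩
  · intro x
    obtain ⟨y, hy, h⟩ := hπ.dn x
    exact ⟨y, hy, congrArg Subtype.val h⟩
  · intro x
    exact (π x).2
  · intro c
    obtain ⟨x, hx⟩ := hπ.surj ⟨fr c, Or.inl ⟨c, rfl⟩⟩
    exact ⟨x, congrArg Subtype.val hx⟩
  · intro s i
    obtain ⟨x, hx⟩ := hπ.surj ⟨bk s i, Or.inr ⟨s, i, rfl⟩⟩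
    exact ⟨x, congrArg Subtype.val hx⟩

end Pool.Agent.EAE
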