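import Pool.Agent.UNS.StA

/-!
# EAE: Vaught's conjecture for theories with axioms of the form `∃* ∀ ∃* ∀*` (helper97)

Definitions.  The paper proof is `GC_EAE_helper97.md` in the team store.  `Γ = Gam = Aut(ℚ, <)` acts on the structure `N` with
finite supports `su x` (`AAD.Ctx`; facts in `UNS/Base.lean`: `ext`, `su_fix`, `su_min`, `su_act`, `su_eq`, `su_stab`, `inv`, `inv2`, `aut`).
-/

set_option autoImplicit false
set_option linter.unusedVariables false

namespace Pool.Agent.EAE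

open FirstOrder.Language Set
open scoped FirstOrder
open Pool.Agent.AAD (Gam Fx ls St su Ctx)

/-! ### Blocks -/

/-- the order of the parts of `ℚ`: a free part, the blocks of side `false`, a free part, the blocks of side `true`,
a free part -/
abbrev Lam : Type := Fin 5 ×ₗ ℚ

/-- the free parts -/
def fr (c : Fin 3) : Lam := toLex ((⟨2 * c.1, by omega⟩ : Fin 5), (0 : ℚ))

/-- block `i` of side `s` -/
def bk (s : Bool) (i : ℚ) : Lam := toLex ((if s then 3 else 1 : Fin 5), i)

/-- `π` divides `ℚ` into parts: three free parts and blocks; the parts are convex, without endpoints -/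
structure Blk (π : ℚ → Lam) : Prop where
  mono : Monotone π
  up : ∀ x, ∃ y, x < y ∧ π y = π x
  dn : ∀ x, ∃ y, y < x ∧ π y = π x
  cov : ∀ x, (∃ c, π x = fr c) ∨ ∃ s i, π x = bk s i
  nef : ∀ c, ∃ x, π x = fr c
  neb : ∀ s i, ∃ x, π x = bk s i

/-- the relation with the first argument on side `s` -/
def ad {α : Type} (G : α → α → Prop) (s : Bool) (i j : α) : Prop := if s then G j i else G i j

/-- good graphs: the fillers (blocks adjacent to all blocks of the other side) are dense on both sides -/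
def Gd (G : ℚ → ℚ → Prop) : Prop := ∀ (s : Bool) (a b : ℚ), a < b → ∃ i, a < i ∧ i < b ∧ ∀ j, ad G s i j

/-- one more edge -/
def adE (G : ℚ → ℚ → Prop) (c : Bool → ℚ) : ℚ → ℚ → Prop := fun i j => G i j ∨ (i = c false ∧ j = c true)

section touch

variable {N : Type} [MulAction Gam N] (π : ℚ → Lam)

/-- `x` touches block `i` of side `s` -/
def Tch (s : Bool) (x : N) (i : ℚ) : Prop := ∃ a ∈ su x, π a = bk s i

/-- `X_G`: the elements which touch at most one block of each side, adjacent if there are two -/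
def XG (G : ℚ → ℚ → Prop) : Set N :=
  {x | (∀ s i i', Tch π s x i → Tch π s x i' → i = i') ∧ ∀ i j, Tch π false x i → Tch π true x j → G i j}

/-- the number of entries of `W` which touch block `i` of side `s` -/
noncomputable def cnt {ι : Type} (W : ι → N) (s : Bool) (i : ℚ) : ℕ := Nat.card {r : ι // Tch π s (W r) i}

open Classical in
/-- `u false` at the entries where `W` touches `c false`, `u true` at the entries where `W` touches `c true`, `W` at the others -/
noncomputable def mg {ι : Type} (W : ι → N) (c : Bool → ℚ) (u : Bool → ι → N) : ι → N := fun r =>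
  if Tch π false (W r) (c false) then u false r else if Tch π true (W r) (c true) then u true r else W r

end touch

/-- the pair with `w` on side `s` and `u` on the other side -/
def pr {α : Type} (s : Bool) (w u : α) : Bool → α := fun s' => if s' = s then w else u

/-! ### Substructures and absolute formulas -/

/-- the structure on a subset (relational languages) -/
@[instance_reducible]
def rs {L : FirstOrder.Language.{0, 0}} {N : Type} [L.Structure N] (hf : ∀ n, IsEmpty (L.Functions n))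
    (X : Set N) : L.Structure X where
  funMap := fun {n} f _ => (hf n).elim f
  RelMap := fun {n} R v => Structure.RelMap R fun i => (v i).1

section

variable {L : FirstOrder.Language.{0, 0}} {N : Type} [L.Structure N]

/-- truth in the substructure `X` -/
def Rz (hf : ∀ n, IsEmpty (L.Functions n)) (X : Set N) {α : Type} (φ : L.Formula α) (v : α → X) : Prop :=
  @Formula.Realize L X (rs hf X) α φ v

/-- `B` is an elementary substructure (Tarski, Vaught) -/
def Elm (L : FirstOrder.Language.{0, 0}) {N : Type} [L.Structure N] (B : Set N) : Prop :=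
  ∀ (α : Type) [Finite α] (φ : L.Formula (α ⊕ Unit)) (v : α → N), (∀ i, v i ∈ B) →
    (∃ z, φ.Realize (Sum.elim v fun _ => z)) → ∃ z ∈ B, φ.Realize (Sum.elim v fun _ => z)

variable [MulAction Gam N]

/-- `φ` is absolute: it has the same truth values in `N` and in all `X_G`, `G` good -/
def Abs (hf : ∀ n, IsEmpty (L.Functions n)) (N : Type) [L.Structure N] [MulAction Gam N] (π : ℚ → Lam) {α : Type}
    (φ : L.Formula α) : Prop :=
  ∀ G, Gd G → ∀ v : α → (XG π G : Set N), (Rz hf (XG π G) φ v ↔ φ.Realize fun i => (v i).1)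

/-- some `z` in `X_G` satisfies `φ (W; z)` in `N` -/
def DD (π : ℚ → Lam) {ι : Type} (φ : L.Formula (ι ⊕ Unit)) (G : ℚ → ℚ → Prop) (W : ι → N) : Prop :=
  ∃ z ∈ (XG π G : Set N), φ.Realize (Sum.elim W fun _ => z)

/-- A visible pair: moving `z` in one of two disjoint intervals changes the truth value of `φ (d; z)`, moving it in the other
one that of `ψ (e; z)`; no entry of `d` or `e` has points of its support in both intervals. -/
structure VP {α β : Type} (φ : L.Formula (α ⊕ Unit)) (ψ : L.Formula (β ⊕ Unit)) (d : α → N) (e : β → N) (z : N)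
    (l r l' r' : ℚ) (h h' : Gam) : Prop where
  rl : r ≤ l'
  ou : ∀ x, x ∉ Ioo l r → h x = x
  ou' : ∀ x, x ∉ Ioo l' r' → h' x = x
  df : ¬ (φ.Realize (Sum.elim d fun _ => z) ↔ φ.Realize (Sum.elim d fun _ => h • z))
  df' : ¬ (ψ.Realize (Sum.elim e fun _ => z) ↔ ψ.Realize (Sum.elim e fun _ => h' • z))
  sp : ∀ i, (∃ a ∈ su (d i), a ∈ Ioo l r) → ¬ ∃ a ∈ su (d i), a ∈ Ioo l' r'
  sp' : ∀ i, (∃ a ∈ su (e i), a ∈ Ioo l r) → ¬ ∃ a ∈ su (e i), a ∈ Ioo l' r'

/-- `not (φ (d₁; z) ↔ φ (d₂; z))` and `not (ψ (e₁; z) ↔ ψ (e₂; z))` -/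
def xf {α β : Type} (φ : L.Formula (α ⊕ Unit)) (ψ : L.Formula (β ⊕ Unit)) :
    L.Formula (((α ⊕ α) ⊕ (β ⊕ β)) ⊕ Unit) :=
  (((φ.relabel (Sum.map (fun i => Sum.inl (Sum.inl i)) id)).iff
      (φ.relabel (Sum.map (fun i => Sum.inl (Sum.inr i)) id))).not) ⊓
    (((ψ.relabel (Sum.map (fun i => Sum.inr (Sum.inl i)) id)).iff
      (ψ.relabel (Sum.map (fun i => Sum.inr (Sum.inr i)) id))).not)

/-- A critical instance: adding the edge `c` changes the truth value of `D (W)` from false to true. -/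
structure Crit (hf : ∀ n, IsEmpty (L.Functions n)) (π : ℚ → Lam) {ι : Type} (φ : L.Formula (ι ⊕ Unit))
    (G : ℚ → ℚ → Prop) (W : ι → N) (c : Bool → ℚ) : Prop where
  gd : Gd G
  ab : Abs hf N π φ
  mem : ∀ r, W r ∈ (XG π G : Set N)
  na : ¬ G (c false) (c true)
  d0 : ¬ DD π φ G W
  d1 : DD π φ (adE G c) W

/-- a critical instance with the least number of entries touching the two blocks (for fixed `φ`) -/
structure MCr (hf : ∀ n, IsEmpty (L.Functions n)) (π : ℚ → Lam) {ι : Type} (φ : L.Formula (ι ⊕ Unit))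
    (G : ℚ → ℚ → Prop) (W : ι → N) (c : Bool → ℚ) : Prop where
  cr : Crit hf π φ G W c
  po : ∀ s, ∃ r, Tch π s (W r) (c s)
  mn : ∀ (G' : ℚ → ℚ → Prop) (W' : ι → N) (c' : Bool → ℚ), Crit hf π φ G' W' c' →
    cnt π W false (c false) + cnt π W true (c true) ≤ cnt π W' false (c' false) + cnt π W' true (c' true)

end

/-! ### The graphs -/

/-- vertices `v ρ m` (zone `ρ`, number `m`) in the interval `(a, b)` -/
structure Vt (a b : ℚ) {R : ℕ} (v : Fin R → ℕ → ℚ) : Prop where
  rg : ∀ ρ m, a < v ρ m ∧ v ρ m < b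
  zo : ∀ ρ ρ' m m', ρ < ρ' → v ρ m < v ρ' m'
  mo : ∀ ρ m m', m < m' → v ρ m < v ρ m'

/-- The graph `G` given by `H`: `T s μ` means that `μ` is a named block of side `s`, `c s` the special one. -/
structure CdG (G₀ : ℚ → ℚ → Prop) (c : Bool → ℚ) (T : Bool → ℚ → Prop) {R : ℕ} (v : Bool → Fin R → ℕ → ℚ)
    (H : ℕ → ℕ → Prop) (G : ℚ → ℚ → Prop) : Prop where
  gd : Gd G
  vv : ∀ ρ m ρ' m', G (v false ρ m) (v true ρ' m') ↔ H m m'
  va : ∀ s ρ m μ, T (!s) μ → μ ≠ c (!s) → (ad G s (v s ρ m) μ ↔ ad G₀ s (c s) μ)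
  aa : ∀ μ μ', T false μ → T true μ' → μ ≠ c false → μ' ≠ c true → (G μ μ' ↔ G₀ μ μ')
  nf : ∀ s i j, ¬ ad G s i j → (T s i ∧ i ≠ c s) ∨ ∃ ρ m, i = v s ρ m

/-- The coding system: a minimal critical instance `(φ, G₀, W, c)`; intervals `(a s, b s)` of blocks around `c s` without other
named blocks; `g s i` moves block `c s` to block `i` and is the identity outside the interval `(l s, r s)`. -/
structure Sys {L : FirstOrder.Language.{0, 0}} {N : Type} [L.Structure N] [MulAction Gam N]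
    (hf : ∀ n, IsEmpty (L.Functions n)) (π : ℚ → Lam) {ι : Type} (φ : L.Formula (ι ⊕ Unit))
    (G₀ : ℚ → ℚ → Prop) (W : ι → N) (c a b l r : Bool → ℚ) (g : Bool → ℚ → Gam) {R : ℕ}
    (v : Bool → Fin R → ℕ → ℚ) : Prop where
  ctx : Ctx L N
  blk : Blk π
  fin : Finite ι
  mc : MCr hf π φ G₀ W c
  ab : ∀ s, a s < c s ∧ c s < b s
  fa : ∀ s r' i, Tch π s (W r') i → i ≠ c s → i < a s ∨ b s < i
  lo : ∀ s, π (l s) = bk s (a s)
  hi : ∀ s, π (r s) = bk s (b s)
  ou : ∀ s i x, x ∉ Ioo (l s) (r s) → g s i x = x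
  mv : ∀ s i, a s < i → i < b s → ∀ r', ∀ x ∈ su (W r'), π x = bk s (c s) → π (g s i x) = bk s i
  vt : ∀ s, Vt (a s) (b s) (v s)

/-- the true word of the vertex `m` in zone `ρ` of side `s` -/
def tw {N : Type} [MulAction Gam N] {ι : Type} (W : ι → N) (g : Bool → ℚ → Gam) {R : ℕ}
    (v : Bool → Fin R → ℕ → ℚ) (s : Bool) (ρ : Fin R) (m : ℕ) : ι → N := fun r => g s (v s ρ m) • W r

/-- the named blocks -/
def Nm {N : Type} [MulAction Gam N] {ι : Type} (π : ℚ → Lam) (W : ι → N) (s : Bool) (μ : ℚ) : Prop :=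
  ∃ r, Tch π s (W r) μ

section words

variable {L : FirstOrder.Language.{0, 0}} {N : Type} [L.Structure N] [MulAction Gam N]

/-- `D (w, u)` for words in `X_G`, `w` on side `false`, `u` on side `true` -/
def Dw (π : ℚ → Lam) {ι : Type} (φ : L.Formula (ι ⊕ Unit)) (W : ι → N) (c : Bool → ℚ) (G : ℚ → ℚ → Prop)
    (w u : ι → (XG π G : Set N)) : Prop :=
  DD π φ G (mg π W c (pr false (fun i => (w i).1) fun i => (u i).1))

open Classical in
/-- the true words as words in `X_G` (the entries which are not in `X_G` are replaced by `x₀`) -/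
noncomputable def tt {π : ℚ → Lam} {ι : Type} (W : ι → N) (g : Bool → ℚ → Gam) {R : ℕ} (v : Bool → Fin R → ℕ → ℚ)
    (G : ℚ → ℚ → Prop) (x₀ : (XG π G : Set N)) (s : Bool) (ρ : Fin R) (m : ℕ) : ι → (XG π G : Set N) := fun i =>
  if h : tw W g v s ρ m i ∈ (XG π G : Set N) then ⟨tw W g v s ρ m i, h⟩ else x₀

open Classical in
/-- the parameters: the true words of the vertices `0, 1, 2, 3`, and `W` -/
noncomputable def pt {π : ℚ → Lam} {ι : Type} (W : ι → N) (g : Bool → ℚ → Gam) {R : ℕ} (v : Bool → Fin R → ℕ → ℚ)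
    (G : ℚ → ℚ → Prop) (x₀ : (XG π G : Set N)) : (Bool × Fin R × Fin 4 × ι) ⊕ ι → (XG π G : Set N)
  | .inl (s, ρ, m, i) => tt W g v G x₀ s ρ m i
  | .inr i => if h : W i ∈ (XG π G : Set N) then ⟨W i, h⟩ else x₀

end words

/-! ### Decoding -/

/-- the graph for `S`: side `false`: `0`, `1` flags, `t + 3` the vertex `a_(2t)` of the path; side `true`: `0`, `1` flags, `2` the
vertex `d`, `t + 3` the vertex `a_(2t+1)` -/
def HS (S : ℕ → Prop) (m m' : ℕ) : Prop :=
  (3 ≤ m ∧ 3 ≤ m' ∧ (m' = m ∨ m = m' + 1)) ∨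
  (3 ≤ m ∧ m' ≤ 1 ∧ (m - 3) % 2 = m') ∨
  (3 ≤ m ∧ m' = 2 ∧ S (m - 3)) ∨
  (m ≤ 1 ∧ 3 ≤ m' ∧ (m' - 3) % 2 = m)

/-- all but at most `K` rows have at most `K` zeros -/
def Adj (K : ℕ) {R : ℕ} (E : Fin R → Fin R → Prop) : Prop :=
  Nat.card {ρ : Fin R // K < Nat.card {σ : Fin R // ¬ E ρ σ}} ≤ K

/-- the side of `a_n` -/
def sd (n : ℕ) : Bool := decide (n % 2 = 1)

/-- the colour of `a_n` -/
def cl (n : ℕ) : ℕ := (n / 2) % 2

/-- the number of the vertex `a_n` on its side -/
def vx (n : ℕ) : ℕ := n / 2 + 3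

/-- the sets `W_n` of tuples; `D w u`: `w` on side `false`, `u` on side `true`; `t s ρ m`: the true words -/
def WW {X : Type} {R : ℕ} (K : ℕ) (D : X → X → Prop) (t : Bool → Fin R → ℕ → X) : ℕ → Set (Fin R → X)
  | 0 => {u | ∀ ρ, u ρ = t false ρ 3}
  | n + 1 => {u |
      (∀ ρ σ, ad D (sd (n + 1)) (u ρ) (t (!sd (n + 1)) σ (cl (n + 1))) ∧
        ¬ ad D (sd (n + 1)) (u ρ) (t (!sd (n + 1)) σ (1 - cl (n + 1)))) ∧
      ∀ w ∈ WW K D t n, Adj K fun ρ σ => ad D (sd n) (w ρ) (u σ)}

/-- the bit `n` -/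
def Bit {X : Type} {R : ℕ} (K : ℕ) (D : X → X → Prop) (t : Bool → Fin R → ℕ → X) (n : ℕ) : Prop :=
  ∀ w ∈ WW K D t (2 * n), Adj K fun ρ σ => D (w ρ) (t true σ 2)

/-! ### Prefixes -/

/-- prefixes `∃^m ∀^e ∃^n ∀^k`, `e ≤ 1` -/
def EAEA (w : List Bool) : Prop := ∃ m e n k : ℕ, e ≤ 1 ∧
  w = List.replicate m false ++ (List.replicate e true ++ (List.replicate n false ++ List.replicate k true))

end Pool.Agent.EAE
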