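import Pool.Agent.EAE.StC

/-!
EAE, module MDL (helper45): `X_G` is a model.
-/

set_option autoImplicit false
set_option linter.unusedVariables false

namespace Pool.Agent.EAE

open FirstOrder.Language Set
open scoped FirstOrder
open Pool.Agent.AAD (Gam Fx ls St su Ctx)
open VPF (Pre)

/-- [MDL] -/
theorem thm_MDL (hX0E : St_X0E) (hELB : St_ELB) (hPRX : St_PRX) : St_MDL := by
  intro L N _ _ _ hf hC π hπ T hT hNT G
  obtain ⟨x₀, hx₀⟩ := hX0E L N hC π hπ
  refine @FirstOrder.Language.Theory.Model.mk L _ (rs hf (XG π G : Set N)) _ fun φ hφ => ?_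
  obtain ⟨w, hw, hp⟩ := hT φ hφ
  refine hPRX L N hf (XG π G) {z : N | ∀ s i, Tch π s z i → Tch π s x₀ i}
    (hELB L N hC π hπ x₀ fun s i i' h => absurd h (hx₀ s i)) ?_ ?_ φ w hp hw
    (FirstOrder.Language.Theory.realize_sentence_of_mem T hφ)
  · intro z hz
    exact ⟨fun s i i' h => absurd (hz s i h) (hx₀ s i), fun i j h => absurd (hz false i h) (hx₀ false i)⟩
  · intro x hx
    refine ⟨{z : N | ∀ s i, Tch π s z i → Tch π s x i}, hELB L N hC π hπ x hx.1, ?_, ?_, ?_⟩
    · intro z hz s i h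
      exact absurd (hz s i h) (hx₀ s i)
    · intro z hz
      exact ⟨fun s i i' h h' => hx.1 s i i' (hz s i h) (hz s i' h'),
        fun i j h h' => hx.2 i j (hz false i h) (hz true j h')⟩
    · exact fun s i h => h

end Pool.Agent.EAE
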