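import Pool.Agent.EAE.StB
import Pool.Agent.UNS.LOC
import Pool.Agent.UNS.EMB

/-!
# EAE, module SYX: coding systems exist
-/

set_option autoImplicit false
set_option linter.unusedVariables false

namespace Pool.Agent.EAE

open FirstOrder.Language Set
open scoped FirstOrder
open Pool.Agent.AAD (Gam Fx ls St su Ctx)

private theorem SYX_bk_lt (s : Bool) {i j : ℚ} (h : i < j) : bk s i < bk s j := by
  unfold bk
  rw [Prod.Lex.toLex_lt_toLex]
  exact Or.inr ⟨rfl, h⟩

private theorem SYX_bk_inj (s : Bool) {i j : ℚ} (h : bk s i = bk s j) : i = j := by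
  rcases lt_trichotomy i j with h1 | h1 | h1
  · exact absurd h (SYX_bk_lt s h1).ne
  · exact h1
  · exact absurd h (SYX_bk_lt s h1).ne'

private theorem SYX_gap (F : Finset ℚ) (c : ℚ) :
    ∃ a b : ℚ, a < c ∧ c < b ∧ ∀ i ∈ F, i ≠ c → i < a ∨ b < i := by
  induction F using Finset.induction_on with
  | empty => exact ⟨c - 1, c + 1, by linarith, by linarith, by simp⟩
  | insert x F hx ih =>
    obtain ⟨a, b, ha, hb, hF⟩ := ih
    rcases lt_trichotomy x c with h | h | h
    · refine ⟨max a ((x + c) / 2), b, max_lt ha (by linarith), hb, fun i hi hic => ?_⟩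
      rcases Finset.mem_insert.1 hi with rfl | hi
      · exact Or.inl (lt_of_lt_of_le (by linarith) (le_max_right _ _))
      · rcases hF i hi hic with h1 | h1
        · exact Or.inl (lt_of_lt_of_le h1 (le_max_left _ _))
        · exact Or.inr h1
    · refine ⟨a, b, ha, hb, fun i hi hic => ?_⟩
      rcases Finset.mem_insert.1 hi with rfl | hi
      · exact absurd h hic
      · exact hF i hi hic
    · refine ⟨a, min b ((x + c) / 2), ha, lt_min hb (by linarith), fun i hi hic => ?_⟩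
      rcases Finset.mem_insert.1 hi with rfl | hi
      · exact Or.inr (lt_of_le_of_lt (min_le_right _ _) (by linarith))
      · rcases hF i hi hic with h1 | h1
        · exact Or.inl h1
        · exact Or.inr (lt_of_le_of_lt (min_le_left _ _) h1)

private theorem SYX_move (hMVP : St_MVP) {π : ℚ → Lam} (hπ : Blk π) (s : Bool) {a b c l r : ℚ}
    (hac : a < c) (hcb : c < b) (hl : π l = bk s a) (hr : π r = bk s b) (A : Finset ℚ)
    (hA : ∀ x ∈ A, π x = bk s c) (i : ℚ) (hai : a < i) (hib : i < b) :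
    ∃ g : Gam, (∀ x, x ∉ Ioo l r → g x = x) ∧ ∀ x ∈ A, π (g x) = bk s i := by
  have hin : ∀ (j : ℚ), a < j → j < b → ∀ x, π x = bk s j → x ∈ Ioo l r := by
    intro j h1 h2 x hx
    constructor
    · by_contra hc
      have h3 := hπ.mono (not_lt.1 hc)
      rw [hx, hl] at h3
      exact absurd (SYX_bk_lt s h1) (not_lt.2 h3)
    · by_contra hc
      have h3 := hπ.mono (not_lt.1 hc)
      rw [hx, hr] at h3
      exact absurd (SYX_bk_lt s h2) (not_lt.2 h3)
  obtain ⟨h, -, hh⟩ := hMVP π hπ ∅ A 1 (fun _ => bk s i) (fun _ _ _ _ _ => le_rfl)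
    (fun x hx => absurd hx (Finset.notMem_empty x)) (fun _ _ => hπ.neb s i)
  obtain ⟨g, hg1, hg2⟩ := Pool.Agent.UNS.thm_LOC Pool.Agent.UNS.thm_EMB l r A (fun x => h x)
    (fun x hx => hin c hac hcb x (hA x hx)) (fun x hx => hin i hai hib _ (hh x hx))
    (fun x _ y _ hxy => h.strictMono hxy)
  refine ⟨g, hg2, fun x hx => ?_⟩
  rw [hg1 x hx]
  exact hh x hx

theorem thm_SYX (hVTX : St_VTX) (hMVP : St_MVP) : St_SYX := by
  classical
  intro L N _ _ hf hC π hπ ι hι φ G₀ W c hmc R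
  have : Fintype ι := Fintype.ofFinite ι
  have h1 : ∀ s, ∃ p : ℚ × ℚ, p.1 < c s ∧ c s < p.2 ∧
      ∀ r' i, Tch π s (W r') i → i ≠ c s → i < p.1 ∨ p.2 < i := by
    intro s
    have hfin : {i | ∃ r', Tch π s (W r') i}.Finite := by
      have h2 : ((bk s) ⁻¹' ((Finset.univ.biUnion fun r' => su (W r')).image π : Finset Lam)).Finite :=
        (Finset.finite_toSet _).preimage fun i _ j _ h => SYX_bk_inj s h
      refine h2.subset ?_
      rintro i ⟨r', x, hx, hxi⟩
      rw [Set.mem_preimage, Finset.mem_coe, Finset.mem_image]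
      exact ⟨x, Finset.mem_biUnion.2 ⟨r', Finset.mem_univ _, hx⟩, hxi⟩
    obtain ⟨a, b, ha, hb, h3⟩ := SYX_gap hfin.toFinset (c s)
    exact ⟨(a, b), ha, hb, fun r' i hi hic => h3 i (hfin.mem_toFinset.2 ⟨r', hi⟩) hic⟩
  choose p hp1 hp2 hp3 using h1
  choose l hl using fun s => hπ.neb s (p s).1
  choose r hr using fun s => hπ.neb s (p s).2
  choose v hv using fun s => hVTX (p s).1 (p s).2 ((hp1 s).trans (hp2 s)) R
  have h4 : ∀ s i, ∃ g : Gam, (∀ x, x ∉ Ioo (l s) (r s) → g x = x) ∧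
      ((p s).1 < i → i < (p s).2 → ∀ r', ∀ x ∈ su (W r'), π x = bk s (c s) → π (g x) = bk s i) := by
    intro s i
    by_cases hi : (p s).1 < i ∧ i < (p s).2
    · obtain ⟨g, hg1, hg2⟩ := SYX_move hMVP hπ s (hp1 s) (hp2 s) (hl s) (hr s)
        ((Finset.univ.biUnion fun r' => su (W r')).filter fun x => π x = bk s (c s))
        (fun x hx => (Finset.mem_filter.1 hx).2) i hi.1 hi.2
      refine ⟨g, hg1, fun _ _ r' x hx hxc => hg2 x ?_⟩
      rw [Finset.mem_filter]
      exact ⟨Finset.mem_biUnion.2 ⟨r', Finset.mem_univ _, hx⟩, hxc⟩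
    · exact ⟨1, fun _ _ => rfl, fun h5 h6 => absurd ⟨h5, h6⟩ hi⟩
  choose g hg1 hg2 using h4
  exact ⟨fun s => (p s).1, fun s => (p s).2, l, r, g, v, {
    ctx := hC
    blk := hπ
    fin := hι
    mc := hmc
    ab := fun s => ⟨hp1 s, hp2 s⟩
    fa := hp3
    lo := hl
    hi := hr
    ou := hg1
    mv := hg2
    vt := hv }⟩

end Pool.Agent.EAE
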