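import Pool.Agent.EAE.Defs

/-!
# EAE, statements of part A (helper97), with proofs in the docstrings: blocks, locality, critical instances

The paper proof is `GC_EAE_helper97.md`.  Facts on supports: `Pool/Agent/UNS/Base.lean` (`ext`, `ext_fam`, `su_fix`, `su_min`, `su_act`,
`su_eq`, `su_stab`, `inv`, `inv2`, `aut`); `UNS.thm_LOC UNS.thm_EMB` (`UNS/LOC.lean`, `UNS/EMB.lean`): moves in an open interval.
-/

set_option autoImplicit false
set_option linter.unusedVariables false

namespace Pool.Agent.EAE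

open FirstOrder.Language Set
open scoped FirstOrder
open Pool.Agent.AAD (Gam Fx ls St su Ctx)

/-! ### Blocks -/

/-- [BLX] block maps exist.
HYPS: none; `thm_PIX` of `EAE/MOV.lean` (helper45) for the subtype `A` below, or:
PROOF.  `A = {λ : Lam // (∃ c, λ = fr c) ∨ ∃ s i, λ = bk s i}` (a linear order, as a subtype).  `A ×ₗ ℚ` is a countable dense linear order without endpoints (the second
coordinate), nonempty; `Order.iso_of_countable_dense`: `e : ℚ ≃o A ×ₗ ℚ`.  `π x = ((ofLex (e x)).1).1`.  Monotone: `(ofLex ·).1` is monotone on a lexicographic product.  `up`, `dn`: change the second coordinate of `e x` by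
`± 1`.  `nef`, `neb`: `e.symm (toLex (λ, 0))`. -/
def St_BLX : Prop := ∃ π : ℚ → Lam, Blk π

/-- [MVP] moves with prescribed parts.
HYPS: none; use the generic theorem `thm_MOV` of `EAE/MOV.lean` (helper45) for the range of `π` as a subtype, or:
PROOF.  Induction on `F'` (for fixed `F`): suppose that `h` is constructed for `F'` (`h = g` on `F`, `π (h a) = f a` on `F'`, so `π (h a) = f a` for all `a ∈ F ∪ F'`), and let `q ∉ F ∪ F'` (if `q ∈ F ∪ F'` there is
nothing to do).  `f q = π x₀` for some `x₀`.  We need `q'` with `π q' = f q` and `h a < q' ↔ a < q` for `a ∈ F ∪ F'`.  For `a < q`: `π (h a) = f a ≤ f q`; if `f a < f q` then `h a < q'` for every `q'` with `π q' = f q` (`Blk.mono`).  So only the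
`a` with `f a = f q` matter: `L = {h a | a < q, f a = f q}`, `U = {h a | q < a, f a = f q}`: finite sets of points of the part `f q`, `L < U` (`h` is strictly increasing).  Both empty: `q' = x₀`.  `U` empty: `q' > max L` in the same part
(`Blk.up`).  `L` empty: `Blk.dn`.  Otherwise `q' = (max L + min U) / 2` (parts are convex by `Blk.mono`).  The map `a ↦ h a` (`a ∈ F ∪ F'`), `q ↦ q'` is strictly increasing: `ext`. -/
def St_MVP : Prop :=
  ∀ π : ℚ → Lam, Blk π → ∀ (F F' : Finset ℚ) (g : Gam) (f : ℚ → Lam),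
    (∀ a ∈ F ∪ F', ∀ b ∈ F ∪ F', a ≤ b → f a ≤ f b) → (∀ a ∈ F, f a = π (g a)) →
    (∀ a ∈ F', ∃ x, π x = f a) →
    ∃ h : Gam, (∀ a ∈ F, h a = g a) ∧ ∀ a ∈ F', π (h a) = f a

/-- [LCL] locality: `D (W)` depends only on the graph induced on the blocks touched by `W`.
HYPS: MVP.
PROOF.  Let `z ∈ X_G`, `F` = the union of the `su (W r)`, `F' = su z`.  For each side `s` let `i_s` be the block of side `s` touched by `z` (if there is one; unique).  Target blocks `k_s`: if `i_s` is touched by some `W r` then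
`k_s = σ s i_s`; otherwise `k_s` is a filler of `G'` (`Gd G'`: `∀ j, ad G' s k_s j`) with `σ s i < k_s` for all `i < i_s` touched by `W` and `k_s < σ s i` for all `i > i_s` touched by `W` (finitely many; the values `σ s i` for
`i < i_s` are smaller than those for `i > i_s`, by the third hypothesis; take the maximum and the minimum, or `max - 1`, `min + 1` if one of the sets is empty).  `f a` for `a ∈ F ∪ F'`: `π a` if `π a = fr c`; `bk s (σ s i)` if `π a = bk s i` and `i` is
touched by `W`; `bk s k_s` if `π a = bk s i_s`.  (Every `a ∈ F` is in one of the first two cases; every `a ∈ F'` with `π a = bk s i` has `i = i_s`.)  `f` is monotone on `F ∪ F'`: `fr` and `bk` are ordered as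
`fr 0 < bk false _ < fr 1 < bk true _ < fr 2` and this is preserved; on one side `i < i'` implies `f`-values in the same order.  `f = π ∘ g` on `F` by the first two hypotheses.  MVP: `h`, `h = g` on `F`, so
`h • W r = g • W r` (`su_eq`), `π (h a) = f a` for `a ∈ su z`.  `su (h • z) = h (su z)` (`su_act`): `h • z` touches on side `s` only `k_s`; if it touches `k_false` and `k_true`: both `i_s` touched by `W`: `G i_false i_true` (`z ∈ X_G`), so
`G' (σ ..) (σ ..)` (fourth hypothesis); if one of the `k_s` is a filler it is adjacent to the other one.  So `h • z ∈ X_G'`.  Second part: `z ∈ X_G` with `φ (W; z)`: `φ (h • W; h • z)` (`inv2`), `h • W r = g • W r`. -/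
def St_LCL : Prop :=
  ∀ (L : FirstOrder.Language.{0, 0}) (N : Type) [L.Structure N] [MulAction Gam N], Ctx L N →
    ∀ π : ℚ → Lam, Blk π → ∀ (ι : Type) [Finite ι] (W : ι → N) (G G' : ℚ → ℚ → Prop) (g : Gam)
      (σ : Bool → ℚ → ℚ), Gd G' →
    (∀ r, ∀ a ∈ su (W r), ∀ c, π a = fr c → π (g a) = fr c) →
    (∀ r, ∀ a ∈ su (W r), ∀ s i, π a = bk s i → π (g a) = bk s (σ s i)) →
    (∀ s r r' i i', Tch π s (W r) i → Tch π s (W r') i' → i < i' → σ s i < σ s i') →
    (∀ r r' i j, Tch π false (W r) i → Tch π true (W r') j → G i j → G' (σ false i) (σ true j)) →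
    (∀ z ∈ (XG π G : Set N), ∃ h : Gam, (∀ r, h • W r = g • W r) ∧ h • z ∈ (XG π G' : Set N)) ∧
    ∀ φ : L.Formula (ι ⊕ Unit), DD π φ G W → DD π φ G' fun r => g • W r

/-- [EDG] adding edges one at a time.
HYPS: LCL.
PROOF.  Let `E` be the set of the pairs `(i, j)` with `Tch false (W r) i`, `Tch true (W r') j` for some `r, r'`, and `G' i j`: a finite set (the `su (W r)` are finite and `π a = bk s i` determines `i`; take `E` as a `Finset (ℚ × ℚ)`).  For `E' ⊆ E` let `H_E' i j := G i j ∨ (i, j) ∈ E'`.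
`Gd (H_E')` since `G ⊆ H_E'`.  `X_G ⊆ X_(H_E')`.  `DD (H_E) W`: LCL from `G'` to `H_E` with `g = 1`, `σ s i = i` (fourth hypothesis: pairs of touched blocks in `G'` are in `E`).  Induction on `E'` (`Finset.induction`): for all `E' ⊆ E`, either `¬ DD H_E' W` or the conclusion holds:
`E' = ∅`: `H_∅ = G`.  `E' = insert (i, j) E''`: `¬ DD H_E'' W` (otherwise done).  If `DD H_E' W`: `H = H_E''`, `c = (i, j)` (`c false = i`, `c true = j`): `H_E' = adE H c` (pointwise, `funext`); if `H i j` then `H_E' = H_E''`, contradiction to `¬ DD H_E'' W`; so `¬ H i j`. -/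
def St_EDG : Prop :=
  ∀ (L : FirstOrder.Language.{0, 0}) (N : Type) [L.Structure N] [MulAction Gam N], Ctx L N →
    ∀ π : ℚ → Lam, Blk π → ∀ (ι : Type) [Finite ι] (φ : L.Formula (ι ⊕ Unit)) (W : ι → N)
      (G G' : ℚ → ℚ → Prop), Gd G → (∀ i j, G i j → G' i j) → (∀ r, W r ∈ (XG π G : Set N)) →
    ¬ DD π φ G W → DD π φ G' W →
    ∃ (H : ℚ → ℚ → Prop) (c : Bool → ℚ), Gd H ∧ (∀ i j, G i j → H i j) ∧ (∀ i j, H i j → G' i j) ∧
      ¬ H (c false) (c true) ∧ G' (c false) (c true) ∧ (∀ s, ∃ r, Tch π s (W r) (c s)) ∧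
      (∀ r, W r ∈ (XG π H : Set N)) ∧ ¬ DD π φ H W ∧ DD π φ (adE H c) W

/-! ### Visible pairs and critical instances -/

/-- [XFR] the formula `xf`.
PROOF.  `Formula.realize_relabel`, `realize_iff`, `realize_not`, `realize_inf`.  (1) for all structures `M`; in the second part apply (1) in `N` and in `X_G` (with the structure `rs`); a valuation of `((α ⊕ α) ⊕ (β ⊕ β)) ⊕ Unit` is `Sum.elim (Sum.elim (Sum.elim d₁ d₂) (Sum.elim e₁ e₂)) (fun _ => z)` (`Sum.elim_comp_inl_inr`
or `funext`). -/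
def St_XFR : Prop :=
  ∀ (L : FirstOrder.Language.{0, 0}) (α β : Type) (φ : L.Formula (α ⊕ Unit)) (ψ : L.Formula (β ⊕ Unit)),
    (∀ (M : Type) [L.Structure M] (d₁ d₂ : α → M) (e₁ e₂ : β → M) (z : M),
      (xf φ ψ).Realize (Sum.elim (Sum.elim (Sum.elim d₁ d₂) (Sum.elim e₁ e₂)) fun _ => z) ↔
        ¬ (φ.Realize (Sum.elim d₁ fun _ => z) ↔ φ.Realize (Sum.elim d₂ fun _ => z)) ∧
        ¬ (ψ.Realize (Sum.elim e₁ fun _ => z) ↔ ψ.Realize (Sum.elim e₂ fun _ => z))) ∧
    ∀ (N : Type) [L.Structure N] [MulAction Gam N] (hf : ∀ n, IsEmpty (L.Functions n)) (π : ℚ → Lam),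
      Abs hf N π φ → Abs hf N π ψ → Abs hf N π (xf φ ψ)

/-- [VPC] the words of a visible pair.
HYPS: MVP, XFR.
PROOF.  `d₂ = h⁻¹ • d`, `e₂ = h'⁻¹ • e` (entrywise).  `F` = the union of the supports of `z`, all `d i`, `d₂ i`, `e i`, `e₂ i`.  MVP with the first finite set empty, `F' = F`, `g = 1` and `f a = bk false (c false)` for `a ∈ Ioo l r`, `bk true (c true)` for
`a ∈ Ioo l' r'`, else `fr 0` if `a ≤ l`, `fr 1` if `l < a ≤ l'`, `fr 2` otherwise (monotone since `l < r ≤ l' < r'` if the intervals are nonempty; if `Ioo l r` is empty then `h = 1` and `df` is false; the same for `l'`, `r'`): `g`.  `W = ` the words `g • d`, `g • d₂`, `g • e`,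
`g • e₂`.  (1) `su (g • x) = g (su x)`; so all `W i` touch only `c s`.  (2) `su (d₂ i) = h⁻¹ (su (d i))`, and `h⁻¹` preserves `Ioo l r` and is the identity outside; so `W i` touches `c false` iff `su (d i)` meets `Ioo l r`, and `c true` iff it meets `Ioo l' r'`; `sp`,
`sp'` (the same for `e`).  (3) Let `z'` satisfy `xf (W; z')` and suppose `¬ Tch false z' (c false)`.  By XFR not (`φ (g • d; z')` iff `φ (g • d₂; z')`).  The map `m` on `su z' ∪ ⋃ su (g • d i)`: `m x = g (h⁻¹ (g⁻¹ x))` if `π x = bk false (c false)` and `x ∈ su (g • d i)` for some `i`, `m x = x` otherwise.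
For `x = g a`, `a ∈ su (d i)`: `π x = bk false (c false)` iff `a ∈ Ioo l r`; then `h⁻¹ a ∈ Ioo l r ∩ F` and `π (m x) = bk false (c false)`.  `m` is strictly increasing on this set: the points with `m x ≠ x` and their images are in the part
`bk false (c false)`, which contains no points of `su z'`, all other points are outside this (convex) part or not moved; on the part `m` is the restriction of an element of `Γ`.  `ext`: `γ`.  `γ • z' = z'` (`su_fix`), `γ • g • d i = g • d₂ i` (`su_eq`: on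
`su (g • d i)` the maps `γ` and `g h⁻¹ g⁻¹` agree: for `a ∉ Ioo l r`, `h⁻¹ a = a`).  So `φ (g • d; z')` iff `φ (g • d₂; z')` (`inv2` for `γ`).  Contradiction.  The same for `c true`.  (4) `g • z`: `φ (d₂; z)` iff `φ (d; h • z)` (`inv2`), `df`, `df'`, XFR, `inv2` for `g`. -/
def St_VPC : Prop :=
  ∀ (L : FirstOrder.Language.{0, 0}) (N : Type) [L.Structure N] [MulAction Gam N], Ctx L N →
    ∀ π : ℚ → Lam, Blk π → ∀ (α β : Type) [Finite α] [Finite β] (φ : L.Formula (α ⊕ Unit))
      (ψ : L.Formula (β ⊕ Unit)) (d : α → N) (e : β → N) (z : N) (l r l' r' : ℚ) (h h' : Gam),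
    VP φ ψ d e z l r l' r' h h' → ∀ c : Bool → ℚ,
    ∃ W : (α ⊕ α) ⊕ (β ⊕ β) → N, (∀ i s j, Tch π s (W i) j → j = c s) ∧
      (∀ i, ¬ (Tch π false (W i) (c false) ∧ Tch π true (W i) (c true))) ∧
      (∀ z' : N, (xf φ ψ).Realize (Sum.elim W fun _ => z') → ∀ s, Tch π s z' (c s)) ∧
      ∃ z' : N, (xf φ ψ).Realize (Sum.elim W fun _ => z') ∧ ∀ s j, Tch π s z' j → j = c s

/-- [GCO] the graph of all pairs except `(0, 0)` is good, and words as in VPC.
PROOF.  `G i j := ¬ (i = 0 ∧ j = 0)`: every `i ≠ 0` is a filler.  `c = fun _ => 0`.  `W i ∈ X_G`: it touches only `0` on each side, and not both.  `DD χ G W` is false: `z ∈ X_G` touches `0` on both sides, so `G 0 0`.  `DD χ (adE G c) W`: `z'` touches only `0`; `adE G c` is everything. -/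
def St_GCO : Prop :=
  ∀ (L : FirstOrder.Language.{0, 0}) (N : Type) [L.Structure N] [MulAction Gam N] (π : ℚ → Lam) (ι : Type)
    (χ : L.Formula (ι ⊕ Unit)) (W : ι → N), (∀ i s j, Tch π s (W i) j → j = 0) →
    (∀ i, ¬ (Tch π false (W i) 0 ∧ Tch π true (W i) 0)) →
    (∀ z' : N, χ.Realize (Sum.elim W fun _ => z') → ∀ s, Tch π s z' 0) →
    (∃ z' : N, χ.Realize (Sum.elim W fun _ => z') ∧ ∀ s j, Tch π s z' j → j = 0) →
    ∃ G : ℚ → ℚ → Prop, Gd G ∧ ¬ G 0 0 ∧ (∀ i, W i ∈ (XG π G : Set N)) ∧ ¬ DD π χ G W ∧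
      DD π χ (adE G fun _ => 0) W

/-- [VCR] a visible pair for absolute formulas gives a critical instance.
HYPS: XFR, VPC, GCO.
PROOF.  VPC for `c = fun _ => 0`, GCO for `χ = xf φ ψ`; `Abs (xf φ ψ)` by XFR. -/
def St_VCR : Prop :=
  ∀ (L : FirstOrder.Language.{0, 0}) (N : Type) [L.Structure N] [MulAction Gam N] (hf : ∀ n, IsEmpty (L.Functions n)),
    Ctx L N → ∀ π : ℚ → Lam, Blk π → ∀ (α β : Type) [Finite α] [Finite β] (φ : L.Formula (α ⊕ Unit))
      (ψ : L.Formula (β ⊕ Unit)) (d : α → N) (e : β → N) (z : N) (l r l' r' : ℚ) (h h' : Gam),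
    VP φ ψ d e z l r l' r' h h' → Abs hf N π φ → Abs hf N π ψ →
    ∃ (ι : Type) (_ : Finite ι) (χ : L.Formula (ι ⊕ Unit)) (G : ℚ → ℚ → Prop) (W : ι → N) (c : Bool → ℚ),
      Crit hf π χ G W c

/-- [VIP] two visible points give a visible pair.
HYPS: `UNS.thm_VIS`, `UNS.thm_LOC`.
PROOF.  `p < p'` in `vs L z ⊆ su z` (`UNS.St_VIS`).  VIS: `g` fixes `su z` except `p` and not `Tr L (g • z) z`: `θ`, `d` (entries with `(su (d h)).card ≤ 1`) with not (`θ (d; g • z)` iff `θ (d; z)`).  In the same way `g'`, `θ'`, `e` for `p'`.  Let `m = (p + p') / 2`, or any point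
`p < m < p'`.  Claim: there is `τ ∈ Γ` fixing all points of `su z` with `τ (g p) < m`: `g p < p'` (`g` is increasing and fixes `p'`); no point of `su z` is strictly between `p` and `g p` or equal to `g p` if `g p ≠ p` (`g` fixes it and is
increasing); if `g p < m`: `τ = 1`; if `g p ≥ m > p`: `ext` for `su z ∪ {g p}`: the points of `su z` are fixed and `g p ↦` a point strictly between `p` and `min m (g p)`; this is strictly increasing.  (`g p ≠ p` as `g • z ≠ z`.)  `q = τ (g p)`, and `τ (g a) = a` for `a ∈ su z`, `a ≠ p`;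
not (`θ (τ • d; τ • g • z)` iff `θ (τ • d; z)`) (`inv2`, `τ • z = z`).  `Ioo l r` contains `p` and `q`, `r ≤ m`, and no other point of `su z`.  `UNS.St_LOC`: `h = id` outside `Ioo l r`, `h p = q`; so `h • z = τ • g • z` (`su_eq`).  In the same way `h'`, `Ioo l' r'`
with `m ≤ l'`.  The entries of `τ • d`, `τ' • e` have supports with at most one point, which is not in both intervals. -/
def St_VIP : Prop :=
  ∀ (L : FirstOrder.Language.{0, 0}) (N : Type) [L.Structure N] [MulAction Gam N], Ctx L N →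
    ∀ z : N, 2 ≤ (Pool.Agent.UNS.vs L z).card →
    ∃ (α β : Type) (_ : Finite α) (_ : Finite β) (φ : L.Formula (α ⊕ Unit)) (ψ : L.Formula (β ⊕ Unit))
      (d : α → N) (e : β → N) (l r l' r' : ℚ) (h h' : Gam), VP φ ψ d e z l r l' r' h h'

/-- [AIF] if no absolute formula fails then all formulas are absolute.
PROOF.  Show by induction on `φ : L.BoundedFormula α n` (`α` finite; all `n`): for all good `G`, `v : α → X_G`, `xs : Fin n → X_G`: `φ` has the same truth value at `(v, xs)` in `X_G` (structure `rs`) and in `N`.  Falsum, equality and relations: clear (`L` has no function symbols,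
so every term is a variable; `RelMap` of `rs` is the restriction).  `imp`: clear.  `all φ`: if it is true in `N` then it is true in `X_G` (induction hypothesis).  If it is false in `N`: `z ∈ N` with `¬ φ (v, xs, z)`.  Let
`χ : L.Formula ((α ⊕ Fin n) ⊕ Unit)` be `¬ φ` with variables renamed (`BoundedFormula` to `Formula`: e.g. `φ.toFormula` on `α ⊕ Fin (n + 1)` and `relabel` along `Fin (n + 1) ≃ Fin n ⊕ Unit`); `χ` is absolute by the induction hypothesis (for `(v, xs, z)` all in `X_G`), so by assumption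
`DD χ G (v, xs)`: `z ∈ X_G` with `¬ φ (v, xs, z)` in `N`, so in `X_G`.  A formula is a bounded formula with `n = 0`. -/
def St_AIF : Prop :=
  ∀ (L : FirstOrder.Language.{0, 0}) (N : Type) [L.Structure N] [MulAction Gam N] (hf : ∀ n, IsEmpty (L.Functions n))
    (π : ℚ → Lam),
    (∀ (ι : Type) [Finite ι] (χ : L.Formula (ι ⊕ Unit)), Abs hf N π χ → ∀ G, Gd G → ∀ w : ι → N,
      (∀ i, w i ∈ (XG π G : Set N)) → (∃ z : N, χ.Realize (Sum.elim w fun _ => z)) → DD π χ G w) →
    ∀ (α : Type) [Finite α] (φ : L.Formula α), Abs hf N π φ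

/-- [FAI] an absolute formula which fails.
HYPS: XFR, VPC, GCO, VIP, AIF.
PROOF.  Suppose not.  Then (AIF) all formulas with finitely many variables are absolute.  VIP, VPC (`c = 0`), GCO (`χ = xf φ ψ`): `W ∈ X_G`, `χ (W; z')` for some `z' ∈ N`, `¬ DD χ G W`: contradiction to the assumption for `χ`. -/
def St_FAI : Prop :=
  ∀ (L : FirstOrder.Language.{0, 0}) (N : Type) [L.Structure N] [MulAction Gam N] (hf : ∀ n, IsEmpty (L.Functions n)),
    Ctx L N → ∀ π : ℚ → Lam, Blk π → (∃ z : N, 2 ≤ (Pool.Agent.UNS.vs L z).card) →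
    ∃ (ι : Type) (_ : Finite ι) (χ : L.Formula (ι ⊕ Unit)) (G : ℚ → ℚ → Prop) (w : ι → N), Abs hf N π χ ∧ Gd G ∧
      (∀ i, w i ∈ (XG π G : Set N)) ∧ (∃ z : N, χ.Realize (Sum.elim w fun _ => z)) ∧ ¬ DD π χ G w

/-- [CLM] failure for the complete graph gives a visible pair.
HYPS: `UNS.thm_LOC`.
PROOF.  Among the `z ∈ N` with `φ (w; z)` choose one with the least number of points `a ∈ su z` with `π a = bk s i` for some `s`, `i` (`Nat.find`).  `z ∉ X_⊤` (otherwise `DD`), so for some `s` there are `i < i'` with `Tch s z i`, `Tch s z i'`.  Let `f₁` be the least and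
`f₂` the greatest point of `su z` on side `s` (i.e. `π a = bk s _`), `π f₁ = bk s i₁`, `π f₂ = bk s i₂`: `i₁ ≤ i < i' ≤ i₂`.  Let `fr c`, `fr c'` be the free parts to the left and to the right of side `s` (`fr c < bk s _ < fr c'`, consecutive).  `l` = a point of `fr c`
above all points of `su z` and of the `su (w k)` in `fr c` (`Blk.nef`, `Blk.up`); `q` a point of `fr c` above `l` (`Blk.up`); `r` a point of block `i₁` above `f₁` and below all points of `su z` above `f₁` (finitely many; `Blk.up` for `f₁` and the minimum).  `Ioo l r ∩ su z = {f₁}`.  `UNS.St_LOC`: `h = id`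
outside `Ioo l r`, `h f₁ = q`.  `su (h • z) = h (su z)`: all points of `su z` except `f₁` are fixed, `h f₁` is in a free part, so the number is smaller, so `¬ φ (w; h • z)`.  In the same way `l'` in block `i₂` below `f₂` and above all
points of `su z` below `f₂`, `r'` and `q'` in `fr c'` below all points of `su z` and of the `su (w k)` in `fr c'`: `h'`, `¬ φ (w; h' • z)`.  `r ≤ l'` (blocks `i₁ < i₂`).  `sp`: a point `a ∈ su (w k) ∩ Ioo l r` is not in `fr c` (choice of `l`), so `π a = bk s j` with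
`bk s j ≤ π r = bk s i₁`, `j ≤ i₁`; a point of `su (w k) ∩ Ioo l' r'` is in a block `j' ≥ i₂`; `w k` touches at most one block of side `s`. -/
def St_CLM : Prop :=
  ∀ (L : FirstOrder.Language.{0, 0}) (N : Type) [L.Structure N] [MulAction Gam N], Ctx L N →
    ∀ π : ℚ → Lam, Blk π → ∀ (ι : Type) [Finite ι] (φ : L.Formula (ι ⊕ Unit)) (w : ι → N),
    (∀ k s i i', Tch π s (w k) i → Tch π s (w k) i' → i = i') → (∃ z : N, φ.Realize (Sum.elim w fun _ => z)) →
    ¬ DD π φ (fun _ _ => True) w →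
    ∃ (z : N) (l r l' r' : ℚ) (h h' : Gam), VP φ φ w w z l r l' r' h h'

/-- [CRX] critical instances exist.
HYPS: EDG, VCR, FAI, CLM.
PROOF.  FAI: `χ`, `G`, `w`.  If `DD χ ⊤ w` (`⊤ = fun _ _ => True`): EDG from `G` to `⊤`: `(χ, H, w, c)` is critical.  Otherwise CLM and VCR (`φ = ψ = χ`). -/
def St_CRX : Prop :=
  ∀ (L : FirstOrder.Language.{0, 0}) (N : Type) [L.Structure N] [MulAction Gam N] (hf : ∀ n, IsEmpty (L.Functions n)),
    Ctx L N → ∀ π : ℚ → Lam, Blk π → (∃ z : N, 2 ≤ (Pool.Agent.UNS.vs L z).card) →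
    ∃ (ι : Type) (_ : Finite ι) (χ : L.Formula (ι ⊕ Unit)) (G : ℚ → ℚ → Prop) (W : ι → N) (c : Bool → ℚ),
      Crit hf π χ G W c

/-- [MCX] minimal critical instances.
HYPS: LCL.
PROOF.  `Nat.find` for the numbers `cnt W false (c false) + cnt W true (c true)`, `(G, W, c)` critical.  `po`: suppose that no `W r` touches `c s`.  LCL from `adE G c` to `G` with `g = 1`, `σ s i = i`: for touched `i`, `j`, `adE G c i j` implies `G i j` (the new pair is
not a pair of touched blocks): so `DD φ (adE G c) W` implies `DD φ G W`.  Contradiction. -/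
def St_MCX : Prop :=
  ∀ (L : FirstOrder.Language.{0, 0}) (N : Type) [L.Structure N] [MulAction Gam N] (hf : ∀ n, IsEmpty (L.Functions n)),
    Ctx L N → ∀ π : ℚ → Lam, Blk π → ∀ (ι : Type) [Finite ι] (φ : L.Formula (ι ⊕ Unit)),
    (∃ (G : ℚ → ℚ → Prop) (W : ι → N) (c : Bool → ℚ), Crit hf π φ G W c) →
    ∃ (G : ℚ → ℚ → Prop) (W : ι → N) (c : Bool → ℚ), MCr hf π φ G W c

end Pool.Agent.EAE
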