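import Pool.Agent.EAE.StA

/-!
# EAE, statements of part B (helper97), with proofs in the docstrings: the graphs, the words, decoding

Notation of `Defs.lean`.  `Sys`: the coding system.  For `r'` in the index type `ι`: `Tch π s (W r') (c s)` means that the entry `r'` belongs to side `s` (of the
critical instance); no entry belongs to both sides (`W r' ∈ X_(G₀)`, `¬ G₀ (c false) (c true)`).
-/

set_option autoImplicit false
set_option linter.unusedVariables false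

namespace Pool.Agent.EAE

open FirstOrder.Language Set
open scoped FirstOrder
open Pool.Agent.AAD (Gam Fx ls St su Ctx UD)

/-! ### The graphs -/

/-- [VTX] positions of the vertices.
PROOF.  `R = 0`: trivial.  `v ρ m = a + (b - a) * (ρ + 1 - 1 / (m + 2)) / R`.  `0 < ρ + 1 - 1 / (m + 2) < ρ + 1 ≤ R`; for `ρ < ρ'`: `ρ + 1 - 1 / (m + 2) < ρ + 1 ≤ ρ' < ρ' + 1 - 1 / (m' + 2)`; increasing in `m`. -/
def St_VTX : Prop := ∀ a b : ℚ, a < b → ∀ R : ℕ, ∃ v : Fin R → ℕ → ℚ, Vt a b v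

/-- [NWD] the vertices and a finite set are nowhere dense.
PROOF.  Call `S ⊆ ℚ` thin if for all `p < q` there are `p ≤ p' < q' ≤ q` with `Ioo p' q' ∩ S = ∅`.  The union of two thin sets is thin; a finite union of thin sets is thin (induction; `Finset.induction` or `Set.Finite.induction_on`).  A point is thin (`p < q`: take `Ioo p x` or `Ioo x q` or `Ioo p q`).
The range of a strictly increasing sequence `u : ℕ → ℚ` is thin: if `Ioo p q` contains some `u m`: take `Ioo (u m) (min q (u (m + 1)))` (`u` has no value strictly between `u m` and `u (m + 1)`); otherwise `Ioo p q`.  So `A ∪ ⋃ ρ, range (v ρ)` is thin; a point of `Ioo p' q'`. -/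
def St_NWD : Prop := ∀ (a b : ℚ) (R : ℕ) (v : Fin R → ℕ → ℚ), Vt a b v → ∀ A : Set ℚ, A.Finite →
  ∀ p q : ℚ, p < q → ∃ i, p < i ∧ i < q ∧ i ∉ A ∧ ∀ ρ m, i ≠ v ρ m

/-- [GEX] the graph.
HYPS: NWD.
PROOF.  `Vx s i := ∃ ρ m, i = v s ρ m`, `nm s i := T s i ∧ i ≠ c s` (never both: `v s ρ m` is in `Ioo (a s) (b s)`).  `G i j :=` not (`Vx false i ∨ nm false i`), or not (`Vx true j ∨ nm true j`), or (`i = v false ρ m`, `j = v true ρ' m'`, `H m m'` for some `ρ, m, ρ', m'`), or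
(`Vx false i`, `nm true j`, `G₀ (c false) j`), or (`nm false i`, `Vx true j`, `G₀ i (c true)`), or (`nm false i`, `nm true j`, `G₀ i j`).  `vv`: `v s ρ m` determines `ρ` and `m` (`Vt`: increasing in `(ρ, m)`).  `va`, `aa`, `nf`: clear.  `gd`: all `i` which are neither
`Vx s` nor `nm s` are fillers; NWD for the finite set `{μ | T s μ}`. -/
def St_GEX : Prop :=
  ∀ (G₀ : ℚ → ℚ → Prop) (c a b : Bool → ℚ) (T : Bool → ℚ → Prop) (R : ℕ) (v : Bool → Fin R → ℕ → ℚ),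
    (∀ s, Vt (a s) (b s) (v s)) → (∀ s, {μ | T s μ}.Finite) →
    (∀ s μ, T s μ → μ ≠ c s → μ < a s ∨ b s < μ) →
    ∀ H : ℕ → ℕ → Prop, ∃ G, CdG G₀ c T v H G

/-- [SYX] coding systems exist.
HYPS: VTX, MVP, `UNS.thm_LOC`.
PROOF.  The set of blocks touched by some `W r'` is finite; `a s < c s < b s` such that no touched block except `c s` is in `[a s, b s]` (`fa`).  `l s`, `r s`: points of the blocks `a s`, `b s` of side `s` (`Blk.neb`).  VTX: `v s`.  `g s i` for `a s < i < b s`: let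
`A` = the set of the `x ∈ su (W r')`, some `r'`, with `π x = bk s (c s)`: finite, `A ⊆ Ioo (l s) (r s)` (`π` is monotone, `bk s (a s) < bk s (c s) < bk s (b s)`).  MVP (first set empty, `F' = A`, `g = 1`, constant target `bk s i`): `h₀ ∈ Γ` with
`π (h₀ x) = bk s i` for `x ∈ A`, so `h₀ x ∈ Ioo (l s) (r s)`.  `UNS.St_LOC`: `g s i = h₀` on `A`, `= id` outside `Ioo (l s) (r s)`.  For other `i`: `g s i = 1`. -/
def St_SYX : Prop :=
  ∀ (L : FirstOrder.Language.{0, 0}) (N : Type) [L.Structure N] [MulAction Gam N] (hf : ∀ n, IsEmpty (L.Functions n)),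
    Ctx L N → ∀ π : ℚ → Lam, Blk π → ∀ (ι : Type) [Finite ι] (φ : L.Formula (ι ⊕ Unit)) (G₀ : ℚ → ℚ → Prop)
      (W : ι → N) (c : Bool → ℚ), MCr hf π φ G₀ W c → ∀ R : ℕ,
    ∃ (a b l r : Bool → ℚ) (g : Bool → ℚ → Gam) (v : Bool → Fin R → ℕ → ℚ), Sys hf π φ G₀ W c a b l r g v

/-! ### The words -/

/-- [TWT] the blocks touched by the true words.
PROOF.  A point `x ∈ Ioo (l s) (r s)` has `π x = bk s i` with `a s ≤ i ≤ b s` (`Blk.mono`, `Blk.cov`, `lo`, `hi`; only these parts are between `bk s (a s)` and `bk s (b s)`).  So (`fa`) the points of `su (W r')` in `Ioo (l s) (r s)` are those with `π x = bk s (c s)`.  (1)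
there are none: `g s i` fixes `su (W r')` (`ou`, `su_fix`).  (2) `W r' ∈ X_(G₀)` (`mc.cr.mem`), so all points of `su (W r')` on side `s` are in block `c s`; they are moved to block `v s ρ m` (`mv`, `vt.rg`); all other points are fixed.  `su_act`.  (3) In the
same way, also if `W r'` does not touch `c s` (1).  (4) Both touched: `G₀ (c false) (c true)`, against `na`. -/
def St_TWT : Prop :=
  ∀ (L : FirstOrder.Language.{0, 0}) (N : Type) [L.Structure N] [MulAction Gam N] (hf : ∀ n, IsEmpty (L.Functions n))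
    (π : ℚ → Lam) (ι : Type) (φ : L.Formula (ι ⊕ Unit)) (G₀ : ℚ → ℚ → Prop) (W : ι → N) (c a b l r : Bool → ℚ)
    (g : Bool → ℚ → Gam) (R : ℕ) (v : Bool → Fin R → ℕ → ℚ), Sys hf π φ G₀ W c a b l r g v →
    (∀ s ρ m r', ¬ Tch π s (W r') (c s) → tw W g v s ρ m r' = W r') ∧
    (∀ s ρ m r', Tch π s (W r') (c s) → ∀ j, Tch π s (tw W g v s ρ m r') j ↔ j = v s ρ m) ∧
    (∀ s ρ m r' j, Tch π (!s) (tw W g v s ρ m r') j ↔ Tch π (!s) (W r') j) ∧
    ∀ r', ¬ (Tch π false (W r') (c false) ∧ Tch π true (W r') (c true))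

/-- [AB0] the true words are in `X_G`.
HYPS: TWT.
PROOF.  (1) `y = tw W g v s ρ m r'`, `r'` of side `s`: it touches on side `s` only `v s ρ m`, on the other side the blocks `μ` touched by `W r'`: at most one, and `μ ≠ c (!s)` (TWT (4)); `W r' ∈ X_(G₀)`: `ad G₀ s (c s) μ`, so `ad G s (v s ρ m) μ` (`CdG.va`).  (2) `W r'` touches at most one block of each side,
`μ`, `μ'`, not `c false`, `c true`; `G₀ μ μ'`, so `G μ μ'` (`CdG.aa`). -/
def St_AB0 : Prop :=
  ∀ (L : FirstOrder.Language.{0, 0}) (N : Type) [L.Structure N] [MulAction Gam N] (hf : ∀ n, IsEmpty (L.Functions n))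
    (π : ℚ → Lam) (ι : Type) (φ : L.Formula (ι ⊕ Unit)) (G₀ : ℚ → ℚ → Prop) (W : ι → N) (c a b l r : Bool → ℚ)
    (g : Bool → ℚ → Gam) (R : ℕ) (v : Bool → Fin R → ℕ → ℚ), Sys hf π φ G₀ W c a b l r g v →
    ∀ (H : ℕ → ℕ → Prop) (G : ℚ → ℚ → Prop), CdG G₀ c (Nm π W) v H G →
    (∀ s ρ m r', Tch π s (W r') (c s) → tw W g v s ρ m r' ∈ (XG π G : Set N)) ∧
    ∀ r', (∀ s, ¬ Tch π s (W r') (c s)) → W r' ∈ (XG π G : Set N)

/-- [AB1] true words.
HYPS: LCL, TWT.
PROOF.  `i s = v s (ρ s) (m s)`, `γ = g false (i false) * g true (i true)` (the two factors are the identity outside the disjoint intervals `Ioo (l s) (r s)`; they commute on all points of `ℚ`).  `mg π W c (..) = γ • W` (entrywise): `r'` of side `false`: `W r'` has no points in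
`Ioo (l true) (r true)` (see TWT (1)), so `γ • W r' = g false _ • W r'`; `r'` of side `true`: `γ • W r' = g false _ • g true _ • W r'`, and `g true _ • W r'` has no points in `Ioo (l false) (r false)` (its points on side `false` are those of `W r'`); the others: fixed by both.  `σ s`: `c s ↦ i s`, identity
elsewhere: strictly increasing on the touched blocks (`fa`, `vt.rg`).  `π (γ x)` for `x ∈ su (W r')`: block `c s` goes to block `i s`, the other points are fixed.  If `H (m false) (m true)`: LCL from `adE G₀ c` to `G` (`CdG.gd`): for touched `i`, `j`, `adE G₀ c i j` implies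
`G (σ i) (σ j)`: `CdG.vv` for the pair `c`, `va` (both sides), `aa`; `DD (adE G₀ c) W` (`mc.cr.d1`).  Conversely `DD G (γ • W)`, not `H ..`: LCL from `G` to `G₀` (`mc.cr.gd`), words `γ • W`, element `γ⁻¹`, `σ' s`: `i s ↦ c s`, identity elsewhere: for touched `i`, `j` of `γ • W` (these are `σ` of touched
blocks of `W`) `G i j` implies `G₀ ..` (`vv`, `va`, `aa`; the pair `(i false, i true)` is not in `G`): `DD G₀ W`, against `d0`. -/
def St_AB1 : Prop :=
  ∀ (L : FirstOrder.Language.{0, 0}) (N : Type) [L.Structure N] [MulAction Gam N] (hf : ∀ n, IsEmpty (L.Functions n))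
    (π : ℚ → Lam) (ι : Type) (φ : L.Formula (ι ⊕ Unit)) (G₀ : ℚ → ℚ → Prop) (W : ι → N) (c a b l r : Bool → ℚ)
    (g : Bool → ℚ → Gam) (R : ℕ) (v : Bool → Fin R → ℕ → ℚ), Sys hf π φ G₀ W c a b l r g v →
    ∀ (H : ℕ → ℕ → Prop) (G : ℚ → ℚ → Prop), CdG G₀ c (Nm π W) v H G →
    ∀ (ρ : Bool → Fin R) (m : Bool → ℕ),
      DD π φ G (mg π W c fun s => tw W g v s (ρ s) (m s)) ↔ H (m false) (m true)

/-- [MV2] moving a vertex: the element of `Γ` for AB2.
HYPS: TWT.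
PROOF.  `Y = mg π W c (pr s w (tw W g v (!s) ρ m))`, `Y' =` the same with `m'`; `j = v (!s) ρ m`, `j' = v (!s) ρ m'`.  Entries `r'` of side `s`: `Y r' = Y' r' = w r'`; of side `!s`: `Y r' = g (!s) j • W r'`, `Y' r' = g (!s) j' • W r'`; others: `W r'`.  `t x := g (!s) j' ((g (!s) j)⁻¹ x)` if
`π x = bk (!s) j` and `x ∈ su (Y r')` for an entry `r'` of side `!s`, `t x = x` otherwise.  On the union of the `su (Y r')`: for `r'` of side `!s` the points of `su (Y r')` in block `j` are the `g (!s) j y`, `y ∈ su (W r')`, `π y = bk (!s) (c (!s))`, and `t (g (!s) j y) = g (!s) j' y` is in block `j'`;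
no other entry of `Y` touches block `j` or block `j'` (entries of side `s`: hypothesis; others: `fa`, `vt.rg`), and no touched block is between `j` and `j'` (hypothesis, `fa`).  So `t` is strictly increasing on this union, `ext`: `γ`, `γ • Y r' = Y' r'` (`su_eq`; for `r'` of side `!s` the points outside
block `c (!s)` are not in `Ioo (l (!s)) (r (!s))`). -/
def St_MV2 : Prop :=
  ∀ (L : FirstOrder.Language.{0, 0}) (N : Type) [L.Structure N] [MulAction Gam N] (hf : ∀ n, IsEmpty (L.Functions n))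
    (π : ℚ → Lam) (ι : Type) (φ : L.Formula (ι ⊕ Unit)) (G₀ : ℚ → ℚ → Prop) (W : ι → N) (c a b l r : Bool → ℚ)
    (g : Bool → ℚ → Gam) (R : ℕ) (v : Bool → Fin R → ℕ → ℚ), Sys hf π φ G₀ W c a b l r g v →
    ∀ (s : Bool) (w : ι → N) (ρ : Fin R) (m m' : ℕ),
    (∀ r' μ, Tch π s (W r') (c s) → Tch π (!s) (w r') μ →
      (μ < v (!s) ρ m ∧ μ < v (!s) ρ m') ∨ (v (!s) ρ m < μ ∧ v (!s) ρ m' < μ)) →
    ∃ γ : Gam, (∀ r', γ • mg π W c (pr s w (tw W g v (!s) ρ m)) r' = mg π W c (pr s w (tw W g v (!s) ρ m')) r') ∧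
      ∀ r', ∀ x ∈ su (mg π W c (pr s w (tw W g v (!s) ρ m)) r'),
        (π x = bk (!s) (v (!s) ρ m) → π (γ x) = bk (!s) (v (!s) ρ m')) ∧
        (π x ≠ bk (!s) (v (!s) ρ m) → π (γ x) = π x)

/-- [AB2] arbitrary words against true words.
HYPS: LCL, EDG, TWT, AB0, MV2.
PROOF.  Notation of MV2.  All entries of `Y` and `Y'` are in `X_G` (AB0).  Let `G'` be `G` with all neighbours of `j` added to `j'`: `ad G' s i k := ad G s i k ∨ (k = j' ∧ ad G s i j)`.  `DD G' Y'`: LCL from `G` to `G'` for `Y` and `γ` (MV2): `σ (!s) j = j'`, `σ = id` elsewhere; strictly increasing on the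
touched blocks: the blocks of side `!s` touched by `Y` are `j`, blocks touched by `w r'`, `r'` of side `s`, and blocks `μ ≠ c (!s)` touched by some `W r'` (outside `[a (!s), b (!s)]`, `fa`), so on the same side of `j` and `j'`; `Gd G'` as `G ⊆ G'`.  EDG for `Y'`, `G ⊆ G'`: `H₁`, `c'`: `¬ H₁ c'`, so `¬ G (c' false) (c' true)`, `G' (c' false) (c' true)`:
`c' (!s) = j'` and for `i = c' s`: `ad G s i j`, `¬ ad G s i j'`; `i` is touched by some `Y' r₁`.  `(φ, H₁, Y', c')` is critical (`mc.cr.ab`).  By `CdG.nf` `i` is a vertex `v s ρ₁ m₁`, or a named block `≠ c s`; the second case is impossible: `CdG.va` for the side `!s` gives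
`ad G s i j ↔ ad G₀ s i (c (!s)) ↔ ad G s i j'` (`ad G (!s) x y ↔ ad G s y x`).  So `ad H s m₁ m`, `¬ ad H s m₁ m'` (`vv`).  Entries of `Y'` touching `i` on side `s`: they are of side `s` (`r'` of side `!s`, or neither: on side `s` they touch the same blocks as
`W r'` (TWT (3)), which are `≠ c s` and named, so outside `[a s, b s]`, but `i ∈ Ioo (a s) (b s)`).  Entries touching `j'` on side `!s`: of side `!s` (entries of side `s`: `w r'` does not touch `j'`; others: named blocks).  So `cnt Y' (!s) j' ≤ cnt W (!s) (c (!s))` and `cnt Y' s i ≤ cnt W s (c s)`, with `<` if some `r'` of side `s`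
has `¬ Tch s (w r') i` (`Nat.card` of subtypes of the finite type `ι`).  `mc.mn`: so all `w r'`, `r'` of side `s`, touch `i`. -/
def St_AB2 : Prop :=
  ∀ (L : FirstOrder.Language.{0, 0}) (N : Type) [L.Structure N] [MulAction Gam N] (hf : ∀ n, IsEmpty (L.Functions n))
    (π : ℚ → Lam) (ι : Type) (φ : L.Formula (ι ⊕ Unit)) (G₀ : ℚ → ℚ → Prop) (W : ι → N) (c a b l r : Bool → ℚ)
    (g : Bool → ℚ → Gam) (R : ℕ) (v : Bool → Fin R → ℕ → ℚ), Sys hf π φ G₀ W c a b l r g v →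
    ∀ (H : ℕ → ℕ → Prop) (G : ℚ → ℚ → Prop), CdG G₀ c (Nm π W) v H G →
    ∀ (s : Bool) (w : ι → N), (∀ r', w r' ∈ (XG π G : Set N)) → ∀ (ρ : Fin R) (m m' : ℕ),
    (∀ r' μ, Tch π s (W r') (c s) → Tch π (!s) (w r') μ →
      (μ < v (!s) ρ m ∧ μ < v (!s) ρ m') ∨ (v (!s) ρ m < μ ∧ v (!s) ρ m' < μ)) →
    DD π φ G (mg π W c (pr s w (tw W g v (!s) ρ m))) → ¬ DD π φ G (mg π W c (pr s w (tw W g v (!s) ρ m'))) →
    ∃ (ρ₁ : Fin R) (m₁ : ℕ), (∀ r', Tch π s (W r') (c s) → Tch π s (w r') (v s ρ₁ m₁)) ∧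
      ad H s m₁ m ∧ ¬ ad H s m₁ m'

/-- [BAD] few bad zones.
PROOF.  `B` = the set of the `ρ` such that for some `r' ∈ ι`, `μ`, `m`, `m'`: `Tch π (!s) (w r') μ`, `v (!s) ρ m ≤ μ ≤ v (!s) ρ m'`.  Choose such an `r'` for every `ρ ∈ B`: injective (`w r' ∈ X_G` touches only one block `μ` of side `!s`; `μ` cannot be between vertices of two different zones, `Vt.zo`), so `B.card ≤ Nat.card ι`.  `ρ ∉ B`, `μ` touched by
`w r'`: if `v m ≤ μ` then `v m'' < μ` for all `m''` (`v = v (!s) ρ`; otherwise `v m ≤ μ ≤ v m''`); in particular for `m`, `m'`.  If `μ < v m` then `μ < v m'` (otherwise `v m' ≤ μ ≤ v m`). -/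
def St_BAD : Prop :=
  ∀ (N : Type) [MulAction Gam N] (π : ℚ → Lam) (G : ℚ → ℚ → Prop) (ι : Type) [Finite ι] (a b : Bool → ℚ) (R : ℕ)
    (v : Bool → Fin R → ℕ → ℚ), (∀ s, Vt (a s) (b s) (v s)) → ∀ (s : Bool) (w : ι → N),
    (∀ r', w r' ∈ (XG π G : Set N)) → ∃ B : Finset (Fin R), B.card ≤ Nat.card ι ∧ ∀ ρ ∉ B, ∀ (m m' : ℕ) (r' : ι) (μ : ℚ),
      Tch π (!s) (w r') μ → (μ < v (!s) ρ m ∧ μ < v (!s) ρ m') ∨ (v (!s) ρ m < μ ∧ v (!s) ρ m' < μ)

/-- [TT2] the meaning of an arbitrary word.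
HYPS: AB2, BAD.
PROOF.  BAD: `B`.  `mc.po`: an entry `r₀` of side `s`.  If `Tch π s (w r₀) (v s ρ₁ m₁)` for some `ρ₁, m₁`: these are unique (`w r₀ ∈ X_G`, `v s` is injective by `Vt`); `m₀ = m₁`; otherwise `m₀ = 0`.  AB2. -/
def St_TT2 : Prop :=
  ∀ (L : FirstOrder.Language.{0, 0}) (N : Type) [L.Structure N] [MulAction Gam N] (hf : ∀ n, IsEmpty (L.Functions n))
    (π : ℚ → Lam) (ι : Type) (φ : L.Formula (ι ⊕ Unit)) (G₀ : ℚ → ℚ → Prop) (W : ι → N) (c a b l r : Bool → ℚ)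
    (g : Bool → ℚ → Gam) (R : ℕ) (v : Bool → Fin R → ℕ → ℚ), Sys hf π φ G₀ W c a b l r g v →
    ∀ (H : ℕ → ℕ → Prop) (G : ℚ → ℚ → Prop), CdG G₀ c (Nm π W) v H G →
    ∀ (s : Bool) (w : ι → N), (∀ r', w r' ∈ (XG π G : Set N)) →
    ∃ B : Finset (Fin R), B.card ≤ Nat.card ι ∧ ∃ m₀ : ℕ, ∀ ρ ∉ B, ∀ m m' : ℕ,
      DD π φ G (mg π W c (pr s w (tw W g v (!s) ρ m))) → ¬ DD π φ G (mg π W c (pr s w (tw W g v (!s) ρ m'))) →
      ad H s m₀ m ∧ ¬ ad H s m₀ m'

/-! ### Decoding -/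

/-- [HSF] the graph `HS S`.
PROOF.  Cases on the parities; `n = 2 t` or `n = 2 t + 1`; `omega` for everything except the third clause of `HS`, which does not matter for (1)-(4).  (1) `n = 2t`: `HS (t + 3) (t + 3)`; `n = 2t + 1`: `HS (t + 4) (t + 3)`.  (2) The flag `cl n` is adjacent to `a_n`, the flag `1 - cl n` is not.  (3) A vertex `m` of side
`sd n` adjacent to the flag `k ≤ 1` of the other side and not to the flag `1 - k` is `≥ 3` with `(m - 3) % 2 = k`.  (4) If `m ≥ 3` on side `sd (n + 1)` has the colour of `a_(n+1)` and is adjacent to `a_n` then `m = vx (n + 1)`. -/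
def St_HSF : Prop :=
  ∀ S : ℕ → Prop,
    (∀ n, ad (HS S) (sd n) (vx n) (vx (n + 1))) ∧
    (∀ n, ad (HS S) (sd n) (vx n) (cl n) ∧ ¬ ad (HS S) (sd n) (vx n) (1 - cl n)) ∧
    (∀ (s : Bool) (m k : ℕ), k ≤ 1 → ad (HS S) s m k → ¬ ad (HS S) s m (1 - k) → 3 ≤ m ∧ (m - 3) % 2 = k) ∧
    (∀ n m, 3 ≤ m → (m - 3) % 2 = cl (n + 1) → ad (HS S) (sd n) (vx n) m → m = vx (n + 1)) ∧
    ∀ t, HS S (vx (2 * t)) 2 ↔ S t

/-- [CNT] counting.
PROOF.  (1) Rows outside the set of bad rows (at most `K`) have at most `K` zeros.  (2) Suppose more than `K` columns are bad and let `C` be a set of `K + 1` of them; for `σ ∈ C` the set `Z σ` of the `ρ` with `E ρ σ` has at most `K` elements.  For `ρ` outside `⋃_(σ ∈ C) Z σ` (at most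
`(K + 1) * K` elements) the row `ρ` has at least `K + 1` zeros.  So at least `R - K (K + 1) > K` rows have more than `K` zeros (`K * (K + 2) < R`), against `Adj`. -/
def St_CNT : Prop :=
  ∀ (K R : ℕ) (E : Fin R → Fin R → Prop), K * (K + 2) < R →
    (∀ P : Finset (Fin R), P.card ≤ K → (∀ ρ ∉ P, Nat.card {σ : Fin R // ¬ E ρ σ} ≤ K) → Adj K E) ∧
    (∀ P : Finset (Fin R), (∀ σ ∈ P, Nat.card {ρ : Fin R // E ρ σ} ≤ K) → Adj K E → P.card ≤ K) ∧
    ((∀ ρ σ, ¬ E ρ σ) → ¬ Adj K E)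

/-- [DEC] decoding.
HYPS: HSF, CNT.
PROOF.  For a word `u` and a vertex `m` of side `s` let `Mean s u m` mean: there is `B` with `B.card ≤ K` such that for all `ρ ∉ B`, all `k`: `ad D s u (t (!s) ρ k) ↔ ad (HS S) s m k`.  `ad D s w u ↔ ad D (!s) u w` (definition).
(A) If `u` passes the test of `a_n` (`s = sd n`; for all `σ`: `ad D s u (t (!s) σ (cl n))`, `¬ ad D s u (t (!s) σ (1 - cl n))`) then `Mean s u m` for some `m ≥ 3` with `(m - 3) % 2 = cl n`: hypothesis (T2): `B`, `m₀`; `R > K` so there is `ρ ∉ B`: `ad (HS S) s m₀ (cl n)`,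
`¬ ad (HS S) s m₀ (1 - cl n)`: HSF (3).  For `ρ ∉ B` and any `k`: if `ad D s u (t ρ k)`: compare with `1 - cl n`: `ad (HS S) s m₀ k`.  If not: compare `cl n` with `k`: `¬ ad (HS S) s m₀ k`.
(B) CLAIM, by induction on `n`: (i) `fun ρ => t (sd n) ρ (vx n)` is in `WW n`; (ii) for every `w ∈ WW n` there is `P`, `P.card ≤ K`, with `Mean (sd n) (w ρ) (vx n)` for all `ρ ∉ P`.  `n = 0`: (T1) (`w ρ = t false ρ 3`, `vx 0 = 3`, `P = B = ∅`).
Step, (i): the tests: (T1), HSF (2).  `w ∈ WW n`: for `ρ ∉ P`: `ad D (sd n) (w ρ) (t (sd (n+1)) σ (vx (n+1))) ↔ ad (HS S) (sd n) (vx n) (vx (n+1))` (true, HSF (1)) for all but at most `K` of the `σ`; CNT (1).  (`sd (n + 1) = !sd n`.)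
Step, (ii): `u ∈ WW (n+1)`; by (A) every `u σ` has a meaning `m_σ`, `3 ≤ m_σ`, `(m_σ - 3) % 2 = cl (n + 1)`.  `P` = the set of `σ` with `m_σ ≠ vx (n+1)`.  `w = fun ρ => t (sd n) ρ (vx n)` is in `WW n`, so `Adj K E` for `E ρ σ := ad D (sd n) (w ρ) (u σ)`.  For `σ ∈ P`: HSF (4): `¬ ad (HS S) (sd n) (vx n) m_σ`;
`E ρ σ ↔ ad D (sd (n+1)) (u σ) (t (sd n) ρ (vx n)) ↔ ad (HS S) (sd (n+1)) m_σ (vx n)`, false, for all but at most `K` of the `ρ`.  CNT (2): `P.card ≤ K`.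
(C) The bit `n`: `sd (2n) = false`.  If `S n`: `HS S (vx (2n)) 2` (HSF (5)); for `w ∈ WW (2n)`, `ρ ∉ P`: `D (w ρ) (t true σ 2)` for all but at most `K` of the `σ`: CNT (1).  If not `S n`: `w = fun ρ => t false ρ (vx (2n))` is in `WW (2n)` and by (T1) all `D (w ρ) (t true σ 2)` are false: CNT (3). -/
def St_DEC : Prop :=
  ∀ (X : Type) (K R : ℕ) (S : ℕ → Prop) (D : X → X → Prop) (t : Bool → Fin R → ℕ → X), K * (K + 2) < R →
    (∀ ρ m ρ' m', D (t false ρ m) (t true ρ' m') ↔ HS S m m') →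
    (∀ (s : Bool) (w : X), ∃ B : Finset (Fin R), B.card ≤ K ∧ ∃ m₀ : ℕ, ∀ ρ ∉ B, ∀ m m' : ℕ,
      ad D s w (t (!s) ρ m) → ¬ ad D s w (t (!s) ρ m') → ad (HS S) s m₀ m ∧ ¬ ad (HS S) s m₀ m') →
    ∀ n, Bit K D t n ↔ S n

/-- [BTS] the bits in `X_G`.
HYPS: TWT, AB0, AB1, TT2, DEC.
PROOF.  DEC for `X = ι → X_G`, `K = Nat.card ι`, `D = Dw π φ W c G`, `t = tt W g v G x₀`.  (T1): for `r'` of side `s`, `tt .. s ρ m r' = tw .. s ρ m r'` (AB0); `mg` uses only the entries of side `false` of the first word, of side `true` of the second one: so `mg π W c (pr false ..) =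
mg π W c (fun s => tw W g v s (ρ s) (m s))`: AB1.  (T2): `ad (Dw ..) s w (tt (!s) ρ m) ↔ DD π φ G (mg π W c (pr s w (tw W g v (!s) ρ m)))` (both sides: `pr true w u = pr false u w`, `mg` as before): TT2. -/
def St_BTS : Prop :=
  ∀ (L : FirstOrder.Language.{0, 0}) (N : Type) [L.Structure N] [MulAction Gam N] (hf : ∀ n, IsEmpty (L.Functions n))
    (π : ℚ → Lam) (ι : Type) (φ : L.Formula (ι ⊕ Unit)) (G₀ : ℚ → ℚ → Prop) (W : ι → N) (c a b l r : Bool → ℚ)
    (g : Bool → ℚ → Gam) (R : ℕ) (v : Bool → Fin R → ℕ → ℚ), Sys hf π φ G₀ W c a b l r g v →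
    Nat.card ι * (Nat.card ι + 2) < R → ∀ (S : ℕ → Prop) (G : ℚ → ℚ → Prop), CdG G₀ c (Nm π W) v (HS S) G →
    ∀ x₀ : (XG π G : Set N), ∀ n, Bit (Nat.card ι) (Dw π φ W c G) (tt W g v G x₀) n ↔ S n

end Pool.Agent.EAE
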