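import Pool.Agent.EAE.StB
import Pool.Agent.VPF.Defs
import Pool.Agent.WOM.StB

/-!
# EAE, statements of part C (helper97), with proofs in the docstrings: definability, models, types, the theorem
-/

set_option autoImplicit false
set_option linter.unusedVariables false

namespace Pool.Agent.EAE

open FirstOrder.Language Set
open scoped FirstOrder
open Pool.Agent.AAD (Gam Fx ls St su Ctx UD)
open Pool.Agent.WOM (tp Small CtT PerfT)
open VPF (Pre)

/-! ### Definability -/

/-- [UDE] the bits are definable (uniformly in a family of structures).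
PROOF.  `AAD/Kit.lean`: `UD_sub`, `UD_not`, `UD_and`, `UD_imp`, `UD_fin`, `UD_fex`, `UD_all`, `UD_const`.  (1) Boolean combinations of finitely many relations: for UD relations `E ρ σ` (`ρ, σ : Fin R`) the relation `Adj K E` is UD: `Adj K E` is the disjunction over all
`A : Fin R → Fin R → Prop` (finitely many) with `Adj K A` of `∀ ρ σ, (E ρ σ ↔ A ρ σ)` (`Fin R → Fin R → Prop` is finite; `UD_fex`, `UD_fin`, `UD_iff`).  (2) By induction on `n`: the relation `u ∈ WW K D t n` of `(x, u)`, `x` the parameters, `u : Fin R → ι → X j` (variables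
`((Bool × Fin R × Fin 4 × ι) ⊕ ι) ⊕ (Fin R × ι)`), is UD, where `D w u = Q j w u (x ∘ inr)`, `t s ρ m = fun i => x (inl (s, ρ, m % 4, i))`.  `n = 0`: equations.  `n + 1`: the tests: `UD_sub` of the hypothesis (`ad D s w u` is `D w u` or `D u w`); the second clause: `UD_all` over `Fin R × ι → X j`
(a tuple of words is a function `Fin R × ι → X j`: `curry`), `UD_imp`, (1).  (3) `Bit`: the same. -/
def St_UDE : Prop :=
  ∀ (B : FirstOrder.Language.{0, 0}) (J : Type) (X : J → Type) (S : ∀ j, B.Structure (X j)) (ι : Type) [Finite ι]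
    (Q : ∀ j, (ι → X j) → (ι → X j) → (ι → X j) → Prop) (K R : ℕ),
    UD B X S ((ι ⊕ ι) ⊕ ι) (fun j x => Q j (fun i => x (Sum.inl (Sum.inl i))) (fun i => x (Sum.inl (Sum.inr i)))
      fun i => x (Sum.inr i)) →
    ∀ n, UD B X S ((Bool × Fin R × Fin 4 × ι) ⊕ ι) fun j x =>
      Bit K (fun w u => Q j w u fun i => x (Sum.inr i))
        (fun s ρ m i => x (Sum.inl (s, ρ, (⟨m % 4, Nat.mod_lt _ (by decide)⟩ : Fin 4), i))) n

/-- [WWC] `WW` and `Bit` use only the vertices `0, 1, 2, 3` of `t`.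
PROOF.  Induction on `n` (`cl n ≤ 1`, `1 - cl n ≤ 1`): `WW K D t n = WW K D t' n`. -/
def St_WWC : Prop :=
  ∀ (X : Type) (K R : ℕ) (D : X → X → Prop) (t t' : Bool → Fin R → ℕ → X),
    (∀ s ρ m, m < 4 → t s ρ m = t' s ρ m) → ∀ n, Bit K D t n ↔ Bit K D t' n

/-- [FMB] the formulas for the bits.
HYPS: UDE, WWC, TWT.
PROOF.  UDE for `J = {G // Gd G}`, `X j = X_G` with the structure `rs hf _`, `Q G w u y :=` there is `z : X_G` such that `φ` holds in `X_G` (`Rz`) for `z` and the word with the entries `w i` (`i` of side `false`), `u i` (`i` of side `true`), `y i` (otherwise): UD by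
`UD_ex1` and `UD_sub` (the sides of `i` do not depend on `G`).  Let `θ n` be the formula for `n`.  For `G` as in the statement, `y i = pt (inr i)`: `Q G w u y ↔ Dw π φ W c G w u`: `φ` is absolute (`mc.cr.ab`, `Gd G`), and for `i` of neither side `W i ∈ X_G`, so `(y i).1 = W i`.  `t s ρ m = tt .. s ρ m` for `m < 4`: WWC. -/
def St_FMB : Prop :=
  ∀ (L : FirstOrder.Language.{0, 0}) (N : Type) [L.Structure N] [MulAction Gam N] (hf : ∀ n, IsEmpty (L.Functions n))
    (π : ℚ → Lam) (ι : Type) (φ : L.Formula (ι ⊕ Unit)) (G₀ : ℚ → ℚ → Prop) (W : ι → N) (c a b l r : Bool → ℚ)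
    (g : Bool → ℚ → Gam) (R : ℕ) (v : Bool → Fin R → ℕ → ℚ), Sys hf π φ G₀ W c a b l r g v → ∀ K : ℕ,
    ∃ θ : ℕ → L.Formula ((Bool × Fin R × Fin 4 × ι) ⊕ ι), ∀ G, Gd G →
      (∀ r', (∀ s, ¬ Tch π s (W r') (c s)) → W r' ∈ (XG π G : Set N)) → ∀ (x₀ : (XG π G : Set N)) (n : ℕ),
      Rz hf (XG π G) (θ n) (pt W g v G x₀) ↔ Bit K (Dw π φ W c G) (tt W g v G x₀) n

/-! ### Models -/

/-- [X0E] an element which touches no block.
HYPS: MVP.
PROOF.  `z : N`; MVP (first set empty, `F' = su z`, `g = 1`, `f = fr 0`): `h`; `su (h • z) = h (su z)`. -/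
def St_X0E : Prop :=
  ∀ (L : FirstOrder.Language.{0, 0}) (N : Type) [L.Structure N] [MulAction Gam N] [Nonempty N], Ctx L N →
    ∀ π : ℚ → Lam, Blk π → ∃ x₀ : N, ∀ s i, ¬ Tch π s x₀ i

/-- [ELB] elementary submodels.
HYPS: MVP.
PROOF.  `B = {z | ∀ s i, Tch π s z i → Tch π s x i}`.  Let `v i ∈ B`, `z ∈ N` with `φ (v; z)`.  MVP: `F` = the union of the `su (v i)`, `F' = su z`, `g = 1`; `f p = π p` if `π p = fr _`; if `π p = bk s j`: `f p = bk s i_s` if `x` touches a block `i_s` of side `s` (unique), else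
`f p = fr 1` for `s = false`, `fr 2` for `s = true`.  Monotone: the parts are ordered as `fr 0 < bk false _ < fr 1 < bk true _ < fr 2`; on one side `f` is constant.  On `F`: `π p = bk s j` implies that `v i` touches `j`, so `x` touches `j = i_s`: `f p = π p`.  So `h` fixes all `su (v i)`, `h • v i = v i`,
`φ (v; h • z)` (`inv2`), and `h • z` touches only the `i_s`: `h • z ∈ B`. -/
def St_ELB : Prop :=
  ∀ (L : FirstOrder.Language.{0, 0}) (N : Type) [L.Structure N] [MulAction Gam N], Ctx L N →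
    ∀ π : ℚ → Lam, Blk π → ∀ x : N, (∀ s i i', Tch π s x i → Tch π s x i' → i = i') →
    Elm L {z : N | ∀ s i, Tch π s z i → Tch π s x i}

/-- [PRX] preservation.
PROOF.  For `φ : L.BoundedFormula Empty n` and `xs : Fin n → X` write `X ⊨ φ (xs)` for the truth in the structure `rs hf X`.  (0) `φ` quantifier-free: `X ⊨ φ (xs)` iff `N ⊨ φ (xs)` (induction on `IsQF`: `L` has no function symbols).  (1) `Pre (replicate k true) φ`: `N ⊨ φ (xs)` implies `X ⊨ φ (xs)`, `xs` in
`X`: induction on `k`.  (2) `B` elementary, `B ⊆ X`, `Pre (replicate n false ++ replicate k true) φ`, `xs` in `B`: `N ⊨ φ (xs)` implies `X ⊨ φ (xs)`: induction on `n`: `N ⊨ ∃ z ψ (xs, z)`: there is such a `z` in `B` (`Elm`, for the formula `ψ` with the variables renamed to `Fin _ ⊕ Unit`).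
(3) One more quantifier `∀`, `xs` in `B₀`: for `x ∈ X` choose `B` with `x ∈ B ⊇ B₀`; (2) for `(xs, x)` in `B`.  (`e = 0`: (2) for `B₀`.)  (4) The quantifiers `∃^m`, `xs` in `B₀`: witnesses in `B₀` (`Elm B₀`), induction on `m`.  `n = 0`. -/
def St_PRX : Prop :=
  ∀ (L : FirstOrder.Language.{0, 0}) (N : Type) [L.Structure N] (hf : ∀ n, IsEmpty (L.Functions n)) (X B₀ : Set N),
    Elm L B₀ → B₀ ⊆ X → (∀ x ∈ X, ∃ B : Set N, Elm L B ∧ B₀ ⊆ B ∧ B ⊆ X ∧ x ∈ B) →
    ∀ (φ : L.Sentence) (w : List Bool), Pre w φ → EAEA w → N ⊨ φ →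
      @FirstOrder.Language.Sentence.Realize L X (rs hf X) φ

/-- [MDL] `X_G` is a model.
HYPS: X0E, ELB, PRX.
PROOF.  `B₀` = the set of ELB for `x₀` (X0E): the elements which touch no block.  For `x ∈ X_G` the set `B` of ELB for `x`: `B₀ ⊆ B`, `x ∈ B`, `B ⊆ X_G`. -/
def St_MDL : Prop :=
  ∀ (L : FirstOrder.Language.{0, 0}) (N : Type) [L.Structure N] [MulAction Gam N] [Nonempty N]
    (hf : ∀ n, IsEmpty (L.Functions n)), Ctx L N → ∀ π : ℚ → Lam, Blk π → ∀ T : L.Theory,
    (∀ φ ∈ T, ∃ w, EAEA w ∧ Pre w φ) → N ⊨ T → ∀ G : ℚ → ℚ → Prop,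
      @FirstOrder.Language.Theory.Model L (XG π G : Set N) (rs hf (XG π G)) T

/-- [INF] `X_G` is infinite.
HYPS: X0E, ELB.
PROOF.  `B₀` (see MDL) is elementary and `N` is infinite: for every finite subset `{b_1, ..} ⊆ B₀` there is `z ∈ N` different from all `b_i`, so (`Elm` for the formula `⋀ z ≠ v_i`) one in `B₀`.  `B₀ ⊆ X_G`. -/
def St_INF : Prop :=
  ∀ (L : FirstOrder.Language.{0, 0}) (N : Type) [L.Structure N] [MulAction Gam N] [Infinite N], Ctx L N →
    ∀ π : ℚ → Lam, Blk π → ∀ G : ℚ → ℚ → Prop, Infinite (XG π G : Set N)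

/-! ### Types -/

/-- [PFA] perfectly many models from uncountably many types (helper45, `EAE/PFT.lean`; here as a statement).
PROOF.  `thm_PFT` of `EAE/PFT.lean`: reindex `α ≃ Fin q`. -/
def St_PFA : Prop :=
  ∀ (L : FirstOrder.Language.{0, 0}), Countable L.Symbols → ∀ (T : L.Theory) (α : Type) [Finite α]
    (θ : ℕ → L.Formula α),
    (∀ S : ℕ → Prop, ∃ (M : Type) (_ : L.Structure M) (p : α → M), Infinite M ∧ M ⊨ T ∧
      ∀ n, (θ n).Realize p ↔ S n) → PerfT L T

/-- [TYP] perfectly many models from two visible points.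
HYPS: BLX, CRX, MCX, SYX, GEX, AB0, BTS, FMB, X0E, MDL, INF, PFA.
PROOF.  `L` has no function symbols (`hf`).  BLX: `π`.  CRX: `ι`, `φ`; MCX: `(G₀, W, c)` minimal.  `K = Nat.card ι`, `R = K * (K + 2) + 1`.  SYX.  FMB for `K`: `θ`.  For `S`: GEX for `T = Nm π W` (finite: the supports are finite; `Sys.fa`) and `H = HS S`: `G`, `CdG`.  `M = X_G` with the structure `rs hf _`:
a model of `T` (MDL), infinite (INF).  `x₀` (X0E) is in `X_G`.  `p = pt W g v G x₀`.  AB0 (2), FMB, BTS: `θ n` is true at `p` in `M` iff `Bit ..` iff `S n`.  PFA. -/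
def St_TYP : Prop :=
  ∀ (L : FirstOrder.Language.{0, 0}), Countable L.Symbols → (∀ n, IsEmpty (L.Functions n)) → ∀ T : L.Theory,
    (∀ φ ∈ T, ∃ w, EAEA w ∧ Pre w φ) → ∀ (N : Type) [L.Structure N] [MulAction Gam N] [Infinite N], Ctx L N → N ⊨ T →
    (∃ z : N, 2 ≤ (Pool.Agent.UNS.vs L z).card) → PerfT L T

/-! ### The theorem -/

/-- [MAI] THE THEOREM: Vaught's conjecture for all theories with axioms of the form `∃* ∀ ∃* ∀*`.
HYPS: TYP.  Uses `thm_TSX` (`EAE/TSX.lean`) and `thm_SYS` (`EAE/SYS.lean`) of helper45.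
PROOF.  If `Nip L V ∧ Cod L V` for all infinite models `V` of `T`: `thm_TSX`.  Otherwise `thm_SYS` for such a `V`: `C` with `C ⊨ T` and two visible points (`C` is infinite as `V` is: by the sentences expressing that there are at least k elements): TYP. -/
def St_MAI : Prop :=
  ∀ (L : FirstOrder.Language.{0, 0}), Countable L.Symbols → (∀ n, IsEmpty (L.Functions n)) → ∀ T : L.Theory,
    (∀ φ ∈ T, ∃ w, EAEA w ∧ Pre w φ) → CtT L T ∨ PerfT L T

/-- [WRD] words without the subword `∀ ∀ ∃`.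
PROOF.  Induction on `w`: `false :: w`: `m + 1`.  `true :: w`: `w` does not contain `[true, false]` as a sublist after a `true`: precisely, `w` does not contain `[true, false]` (otherwise `[true, true, false]` is a sublist of `true :: w`), so `w = replicate n false ++ replicate k true` (induction, compare `omit_two` in
`cand_MP_5df2c5_lc_PrefixClassesF.lean.txt`); `m = 0`, `e = 1`.  `[]`: `m = e = n = k = 0`. -/
def St_WRD : Prop := ∀ w : List Bool, ¬ List.Sublist [true, true, false] w → EAEA w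

end Pool.Agent.EAE
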